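import Mathlib

/-! Chunk ZL1 (M): the change of variables x = u^2 x' + r, y = u^3 y' + u^2 s x' + t is an isomorphism of the groups of
points. Copy H55P/S4.lean (PS4_eq, PS4_negY, PS4_cond, PS4_slope, PS4_addX, PS4_addY, PS4_ns, PS4_f, PS4_f_add, PS4_iso; there
u = 1 and W₂ is short): first the structure of the relations between the coefficients
  u a1' = a1 + 2s, u^2 a2' = a2 - s a1 + 3r - s^2, u^3 a3' = a3 + r a1 + 2t,
  u^4 a4' = a4 - s a3 + 2r a2 - (t + rs) a1 + 3r^2 - 2st, u^6 a6' = a6 + r a4 + r^2 a2 + r^3 - t a3 - t^2 - r t a1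
(from WeierstrassCurve.variableChange_a₁ ..., Mathlib AlgebraicGeometry/EllipticCurve/VariableChange.lean), the map on
coordinates f(x', y') = (u^2 x' + r, u^3 y' + u^2 s x' + t). Equation' <-> Equation (the difference is u^6 times);
negY (f P) = f (negY' P); slope: slope = u slope' + s (cases x1 = x2, y1 <> negY: slope_of_Y_ne; x1 <> x2: slope_of_X_ne);
addX: addX = u^2 addX' + r. The curves are elliptic, so Nonsingular <-> Equation (Affine.equation_iff_nonsingular;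
Mathlib has the instance (C • W).IsElliptic). -/

open WeierstrassCurve

namespace H19Z

/-- The coefficients of the two curves are related by the change of variables
`X = u^2 x + r`, `Y = u^3 y + u^2 s x + t`. -/
structure ZL1_D {k : Type} [Field k] (W₁ W₂ : WeierstrassCurve k) (u r s t : k) : Prop where
  hu : u ≠ 0
  h1 : u * W₁.a₁ = W₂.a₁ + 2 * s
  h2 : u ^ 2 * W₁.a₂ = W₂.a₂ - s * W₂.a₁ + 3 * r - s ^ 2
  h3 : u ^ 3 * W₁.a₃ = W₂.a₃ + r * W₂.a₁ + 2 * t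
  h4 : u ^ 4 * W₁.a₄ = W₂.a₄ - s * W₂.a₃ + 2 * r * W₂.a₂ - (t + r * s) * W₂.a₁ + 3 * r ^ 2
      - 2 * s * t
  h6 : u ^ 6 * W₁.a₆ = W₂.a₆ + r * W₂.a₄ + r ^ 2 * W₂.a₂ + r ^ 3 - t * W₂.a₃ - t ^ 2
      - r * t * W₂.a₁

section

variable {k : Type} [Field k] {W₁ W₂ : WeierstrassCurve k} {u r s t : k}

theorem ZL1_eq (D : ZL1_D W₁ W₂ u r s t) (x y : k) :
    W₁.toAffine.Equation x y ↔
      W₂.toAffine.Equation (u ^ 2 * x + r) (u ^ 3 * y + u ^ 2 * s * x + t) := by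
  have h1 : u * W₁.toAffine.a₁ = W₂.toAffine.a₁ + 2 * s := D.h1
  have h2 : u ^ 2 * W₁.toAffine.a₂ = W₂.toAffine.a₂ - s * W₂.toAffine.a₁ + 3 * r - s ^ 2 := D.h2
  have h3 : u ^ 3 * W₁.toAffine.a₃ = W₂.toAffine.a₃ + r * W₂.toAffine.a₁ + 2 * t := D.h3
  have h4 : u ^ 4 * W₁.toAffine.a₄ = W₂.toAffine.a₄ - s * W₂.toAffine.a₃ +
      2 * r * W₂.toAffine.a₂ - (t + r * s) * W₂.toAffine.a₁ + 3 * r ^ 2 - 2 * s * t := D.h4
  have h6 : u ^ 6 * W₁.toAffine.a₆ = W₂.toAffine.a₆ + r * W₂.toAffine.a₄ +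
      r ^ 2 * W₂.toAffine.a₂ + r ^ 3 - t * W₂.toAffine.a₃ - t ^ 2
      - r * t * W₂.toAffine.a₁ := D.h6
  rw [Affine.equation_iff, Affine.equation_iff]
  constructor
  · intro h
    linear_combination u ^ 6 * h - u ^ 5 * x * y * h1 - u ^ 3 * y * h3 + u ^ 4 * x ^ 2 * h2 +
      u ^ 2 * x * h4 + h6
  · intro h
    refine mul_left_cancel₀ (pow_ne_zero 6 D.hu) ?_
    linear_combination h + u ^ 5 * x * y * h1 + u ^ 3 * y * h3 - u ^ 4 * x ^ 2 * h2 -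
      u ^ 2 * x * h4 - h6

theorem ZL1_negY (D : ZL1_D W₁ W₂ u r s t) (x y : k) :
    W₂.toAffine.negY (u ^ 2 * x + r) (u ^ 3 * y + u ^ 2 * s * x + t) =
      u ^ 3 * W₁.toAffine.negY x y + u ^ 2 * s * x + t := by
  have h1 : u * W₁.toAffine.a₁ = W₂.toAffine.a₁ + 2 * s := D.h1
  have h3 : u ^ 3 * W₁.toAffine.a₃ = W₂.toAffine.a₃ + r * W₂.toAffine.a₁ + 2 * t := D.h3
  rw [Affine.negY, Affine.negY]
  linear_combination u ^ 2 * x * h1 + h3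

theorem ZL1_cond (D : ZL1_D W₁ W₂ u r s t) (x₁ y₁ x₂ y₂ : k) :
    (u ^ 2 * x₁ + r = u ^ 2 * x₂ + r ∧ u ^ 3 * y₁ + u ^ 2 * s * x₁ + t =
      W₂.toAffine.negY (u ^ 2 * x₂ + r) (u ^ 3 * y₂ + u ^ 2 * s * x₂ + t)) ↔
      (x₁ = x₂ ∧ y₁ = W₁.toAffine.negY x₂ y₂) := by
  rw [ZL1_negY D]
  constructor
  · rintro ⟨h1, h2⟩
    have h3 : x₁ = x₂ := mul_left_cancel₀ (pow_ne_zero 2 D.hu) (by linear_combination h1)
    refine ⟨h3, ?_⟩
    rw [h3] at h2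
    exact mul_left_cancel₀ (pow_ne_zero 3 D.hu) (by linear_combination h2)
  · rintro ⟨h1, h2⟩
    rw [h1, h2]
    exact ⟨rfl, rfl⟩

theorem ZL1_slope [DecidableEq k] (D : ZL1_D W₁ W₂ u r s t) {x₁ y₁ x₂ y₂ : k}
    (E₁ : W₁.toAffine.Equation x₁ y₁) (E₂ : W₁.toAffine.Equation x₂ y₂)
    (hxy : ¬(x₁ = x₂ ∧ y₁ = W₁.toAffine.negY x₂ y₂)) :
    W₂.toAffine.slope (u ^ 2 * x₁ + r) (u ^ 2 * x₂ + r) (u ^ 3 * y₁ + u ^ 2 * s * x₁ + t)
      (u ^ 3 * y₂ + u ^ 2 * s * x₂ + t) = u * W₁.toAffine.slope x₁ x₂ y₁ y₂ + s := by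
  have hu := D.hu
  by_cases hx : x₁ = x₂
  · have hy : y₁ ≠ W₁.toAffine.negY x₂ y₂ := fun h => hxy ⟨hx, h⟩
    have hy' : u ^ 3 * y₁ + u ^ 2 * s * x₁ + t ≠
        W₂.toAffine.negY (u ^ 2 * x₂ + r) (u ^ 3 * y₂ + u ^ 2 * s * x₂ + t) := fun h =>
      hxy ((ZL1_cond D x₁ y₁ x₂ y₂).1 ⟨by rw [hx], h⟩)
    have hyy : y₁ = y₂ := Affine.Y_eq_of_Y_ne E₁ E₂ hx hy
    rw [Affine.slope_of_Y_ne (by rw [hx]) hy', Affine.slope_of_Y_ne hx hy, ZL1_negY D]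
    have hne : y₁ - W₁.toAffine.negY x₁ y₁ ≠ 0 := by
      rw [sub_ne_zero]
      rw [← hx, ← hyy] at hy
      exact hy
    have h1 : u * W₁.toAffine.a₁ = W₂.toAffine.a₁ + 2 * s := D.h1
    have h2 : u ^ 2 * W₁.toAffine.a₂ = W₂.toAffine.a₂ - s * W₂.toAffine.a₁ + 3 * r - s ^ 2 := D.h2
    have h3 : u ^ 3 * W₁.toAffine.a₃ = W₂.toAffine.a₃ + r * W₂.toAffine.a₁ + 2 * t := D.h3
    have h4 : u ^ 4 * W₁.toAffine.a₄ = W₂.toAffine.a₄ - s * W₂.toAffine.a₃ +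
      2 * r * W₂.toAffine.a₂ - (t + r * s) * W₂.toAffine.a₁ + 3 * r ^ 2 - 2 * s * t := D.h4
    have e5 : u ^ 3 * y₁ + u ^ 2 * s * x₁ + t -
        (u ^ 3 * W₁.toAffine.negY x₁ y₁ + u ^ 2 * s * x₁ + t) =
        u ^ 3 * (y₁ - W₁.toAffine.negY x₁ y₁) := by
      ring
    rw [e5, div_eq_iff (mul_ne_zero (pow_ne_zero 3 hu) hne)]
    have e6 : (u * ((3 * x₁ ^ 2 + 2 * W₁.toAffine.a₂ * x₁ + W₁.toAffine.a₄ -
        W₁.toAffine.a₁ * y₁) / (y₁ - W₁.toAffine.negY x₁ y₁)) + s) *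
        (u ^ 3 * (y₁ - W₁.toAffine.negY x₁ y₁)) =
        u ^ 4 * (3 * x₁ ^ 2 + 2 * W₁.toAffine.a₂ * x₁ + W₁.toAffine.a₄ -
        W₁.toAffine.a₁ * y₁) + s * u ^ 3 * (y₁ - W₁.toAffine.negY x₁ y₁) := by
      field_simp
    rw [e6, Affine.negY]
    linear_combination (-2) * u ^ 2 * x₁ * h2 - h4 + u ^ 3 * y₁ * h1 - s * u ^ 2 * x₁ * h1 -
      s * h3
  · have hx' : u ^ 2 * x₁ + r ≠ u ^ 2 * x₂ + r := fun h =>
      hx (mul_left_cancel₀ (pow_ne_zero 2 hu) (by linear_combination h))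
    have h0 : x₁ - x₂ ≠ 0 := sub_ne_zero.2 hx
    rw [Affine.slope_of_X_ne hx', Affine.slope_of_X_ne hx]
    have e5 : u ^ 2 * x₁ + r - (u ^ 2 * x₂ + r) = u ^ 2 * (x₁ - x₂) := by ring
    rw [e5, div_eq_iff (mul_ne_zero (pow_ne_zero 2 hu) h0)]
    have e6 : (u * ((y₁ - y₂) / (x₁ - x₂)) + s) * (u ^ 2 * (x₁ - x₂)) =
        u ^ 3 * (y₁ - y₂) + s * u ^ 2 * (x₁ - x₂) := by
      field_simp
    rw [e6]
    ring

theorem ZL1_addX (D : ZL1_D W₁ W₂ u r s t) (x₁ x₂ l : k) :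
    W₂.toAffine.addX (u ^ 2 * x₁ + r) (u ^ 2 * x₂ + r) (u * l + s) =
      u ^ 2 * W₁.toAffine.addX x₁ x₂ l + r := by
  have h1 : u * W₁.toAffine.a₁ = W₂.toAffine.a₁ + 2 * s := D.h1
  have h2 : u ^ 2 * W₁.toAffine.a₂ = W₂.toAffine.a₂ - s * W₂.toAffine.a₁ + 3 * r - s ^ 2 := D.h2
  rw [Affine.addX, Affine.addX]
  linear_combination -(u * l) * h1 + h2

theorem ZL1_addY (D : ZL1_D W₁ W₂ u r s t) (x₁ x₂ y₁ l : k) :
    W₂.toAffine.addY (u ^ 2 * x₁ + r) (u ^ 2 * x₂ + r) (u ^ 3 * y₁ + u ^ 2 * s * x₁ + t)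
      (u * l + s) =
      u ^ 3 * W₁.toAffine.addY x₁ x₂ y₁ l + u ^ 2 * s * W₁.toAffine.addX x₁ x₂ l + t := by
  have h : W₂.toAffine.negAddY (u ^ 2 * x₁ + r) (u ^ 2 * x₂ + r)
      (u ^ 3 * y₁ + u ^ 2 * s * x₁ + t) (u * l + s) =
      u ^ 3 * W₁.toAffine.negAddY x₁ x₂ y₁ l + u ^ 2 * s * W₁.toAffine.addX x₁ x₂ l + t := by
    rw [Affine.negAddY, Affine.negAddY, ZL1_addX D]
    ring
  rw [Affine.addY, Affine.addY, h, ZL1_addX D, ZL1_negY D]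

theorem ZL1_ns [W₁.IsElliptic] [W₂.IsElliptic] (D : ZL1_D W₁ W₂ u r s t) (x y : k) :
    W₁.toAffine.Nonsingular x y ↔
      W₂.toAffine.Nonsingular (u ^ 2 * x + r) (u ^ 3 * y + u ^ 2 * s * x + t) := by
  rw [← Affine.equation_iff_nonsingular (W := W₁.toAffine),
    ← Affine.equation_iff_nonsingular (W := W₂.toAffine)]
  exact ZL1_eq D x y

/-- The map on points. -/
noncomputable def ZL1_f [W₁.IsElliptic] [W₂.IsElliptic] (D : ZL1_D W₁ W₂ u r s t) :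
    W₁.toAffine.Point → W₂.toAffine.Point
  | 0 => 0
  | .some x y h => .some (u ^ 2 * x + r) (u ^ 3 * y + u ^ 2 * s * x + t) ((ZL1_ns D x y).1 h)

theorem ZL1_f_add [DecidableEq k] [W₁.IsElliptic] [W₂.IsElliptic] (D : ZL1_D W₁ W₂ u r s t)
    (P Q : W₁.toAffine.Point) : ZL1_f D (P + Q) = ZL1_f D P + ZL1_f D Q := by
  rcases P with _ | ⟨x₁, y₁, h₁⟩
  · change ZL1_f D (0 + Q) = 0 + ZL1_f D Q
    rw [zero_add, zero_add]
  rcases Q with _ | ⟨x₂, y₂, h₂⟩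
  · change ZL1_f D (_ + 0) = _ + 0
    rw [add_zero, add_zero]
  by_cases hxy : x₁ = x₂ ∧ y₁ = W₁.toAffine.negY x₂ y₂
  · rw [Affine.Point.add_of_Y_eq hxy.1 hxy.2]
    have h := (ZL1_cond D x₁ y₁ x₂ y₂).2 hxy
    exact (Affine.Point.add_of_Y_eq (h₁ := (ZL1_ns D x₁ y₁).1 h₁) (h₂ := (ZL1_ns D x₂ y₂).1 h₂)
      h.1 h.2).symm
  · have hxy' := fun h => hxy ((ZL1_cond D x₁ y₁ x₂ y₂).1 h)
    have e1 := Affine.Point.add_some hxy' (h₁ := (ZL1_ns D x₁ y₁).1 h₁)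
      (h₂ := (ZL1_ns D x₂ y₂).1 h₂)
    rw [Affine.Point.add_some hxy]
    refine Eq.trans ?_ e1.symm
    change Affine.Point.some _ _ _ = Affine.Point.some _ _ _
    rw [Affine.Point.some.injEq]
    rw [ZL1_slope D h₁.1 h₂.1 hxy, ZL1_addX D, ZL1_addY D]
    exact ⟨rfl, rfl⟩

theorem ZL1_f_inj [W₁.IsElliptic] [W₂.IsElliptic] (D : ZL1_D W₁ W₂ u r s t) :
    Function.Injective (ZL1_f D) := by
  intro P Q hPQ
  rcases P with _ | ⟨x₁, y₁, h₁⟩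
  · rcases Q with _ | ⟨x₂, y₂, h₂⟩
    · rfl
    · exact absurd hPQ (Affine.Point.some_ne_zero _).symm
  · rcases Q with _ | ⟨x₂, y₂, h₂⟩
    · exact absurd hPQ (Affine.Point.some_ne_zero _)
    · have h := Affine.Point.some.inj hPQ
      have hx : x₁ = x₂ :=
        mul_left_cancel₀ (pow_ne_zero 2 D.hu) (by linear_combination h.1)
      have hy : y₁ = y₂ :=
        mul_left_cancel₀ (pow_ne_zero 3 D.hu) (by linear_combination h.2 - u ^ 2 * s * hx)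
      subst hx hy
      rfl

theorem ZL1_f_surj [W₁.IsElliptic] [W₂.IsElliptic] (D : ZL1_D W₁ W₂ u r s t) :
    Function.Surjective (ZL1_f D) := by
  intro P
  rcases P with _ | ⟨x, y, h⟩
  · exact ⟨0, rfl⟩
  · have hu := D.hu
    have e1 : u ^ 2 * ((x - r) / u ^ 2) + r = x := by field_simp; ring
    have e2 : u ^ 3 * ((y - u ^ 2 * s * ((x - r) / u ^ 2) - t) / u ^ 3) +
        u ^ 2 * s * ((x - r) / u ^ 2) + t = y := by field_simp; ring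
    have h' : W₁.toAffine.Nonsingular ((x - r) / u ^ 2)
        ((y - u ^ 2 * s * ((x - r) / u ^ 2) - t) / u ^ 3) := by
      rw [ZL1_ns D, e1, e2]
      exact h
    refine ⟨.some _ _ h', ?_⟩
    change Affine.Point.some _ _ _ = Affine.Point.some _ _ _
    rw [Affine.Point.some.injEq]
    exact ⟨e1, e2⟩

/-- The isomorphism of the groups of points. -/
noncomputable def ZL1_iso [DecidableEq k] [W₁.IsElliptic] [W₂.IsElliptic]
    (D : ZL1_D W₁ W₂ u r s t) : W₁.toAffine.Point ≃+ W₂.toAffine.Point :=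
  AddEquiv.ofBijective (AddMonoidHom.mk' (ZL1_f D) (ZL1_f_add D)) ⟨ZL1_f_inj D, ZL1_f_surj D⟩

end

theorem ZL1_rel {k : Type} [Field k] (W : WeierstrassCurve k) (C : VariableChange k) :
    ZL1_D (C • W) W (C.u : k) C.r C.s C.t where
  hu := C.u.ne_zero
  h1 := by
    rw [variableChange_a₁, ← mul_assoc, Units.mul_inv, one_mul]
  h2 := by
    rw [variableChange_a₂, ← mul_assoc, ← mul_pow, Units.mul_inv, one_pow, one_mul]
  h3 := by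
    rw [variableChange_a₃, ← mul_assoc, ← mul_pow, Units.mul_inv, one_pow, one_mul]
  h4 := by
    rw [variableChange_a₄, ← mul_assoc, ← mul_pow, Units.mul_inv, one_pow, one_mul]
  h6 := by
    rw [variableChange_a₆, ← mul_assoc, ← mul_pow, Units.mul_inv, one_pow, one_mul]

theorem vc_iso {k : Type} [Field k] [DecidableEq k] (W : WeierstrassCurve k) [W.IsElliptic]
    (C : VariableChange k) :
    ∃ φ : (C • W).toAffine.Point ≃+ W.toAffine.Point,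
      ∀ (x y : k) (h : (C • W).toAffine.Nonsingular x y),
        ∃ h' : W.toAffine.Nonsingular ((C.u : k) ^ 2 * x + C.r)
            ((C.u : k) ^ 3 * y + (C.u : k) ^ 2 * C.s * x + C.t),
          φ (Affine.Point.some x y h) = Affine.Point.some _ _ h' :=
  ⟨ZL1_iso (ZL1_rel W C), fun x y h => ⟨(ZL1_ns (ZL1_rel W C) x y).1 h, rfl⟩⟩

end H19Z
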