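import Mathlib
import Pool.Agent.Lib.H19X.U3
import Pool.Agent.Lib.H19Y.Y5
import Pool.Agent.Lib.H19Z.T1

open NumberField IsDedekindDomain

namespace H19Z

open H55B H55C H55E H19X

/-! Parity above 3: N = K(theta) is totally ramified over K above 3. -/

open Polynomial in
theorem cub_equiv {K N : Type} [Field K] [Field N] [Algebra K N] (θ : N) (hθ : θ ^ 3 = 2)
    (hs : ∀ z : N, ∃ a b c : K, z = algebraMap K N a + algebraMap K N b * θ +
      algebraMap K N c * θ ^ 2) (hno : ¬ ∃ x : K, x ^ 3 = 2) : Nonempty (Cub K ≃ₐ[K] N) := by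
  haveI : Fact (Irreducible (X ^ 3 - C 2 : K[X])) :=
    ⟨X_pow_sub_C_irreducible_of_prime Nat.prime_three fun x hx => hno ⟨x, hx⟩⟩
  have h0 : (X ^ 3 - C 2 : K[X]).eval₂ (algebraMap K N) θ = 0 := by
    rw [eval₂_sub, eval₂_X_pow, eval₂_C, hθ, map_ofNat, sub_self]
  let f : Cub K →ₐ[K] N :=
    { AdjoinRoot.lift (algebraMap K N) θ h0 with
      commutes' := fun x => AdjoinRoot.lift_of h0 }
  have f_of : ∀ x, f (AdjoinRoot.of _ x) = algebraMap K N x := fun x => AdjoinRoot.lift_of h0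
  have f_root : f (AdjoinRoot.root _) = θ := AdjoinRoot.lift_root h0
  refine ⟨AlgEquiv.ofBijective f ⟨f.toRingHom.injective, fun z => ?_⟩⟩
  obtain ⟨a, b, c, h⟩ := hs z
  refine ⟨AdjoinRoot.of _ a + AdjoinRoot.of _ b * AdjoinRoot.root _ +
    AdjoinRoot.of _ c * AdjoinRoot.root _ ^ 2, ?_⟩
  rw [map_add, map_add, map_mul, map_mul, map_pow, f_of, f_of, f_of, f_root, h]

variable {K M L N : Type} [Field K] [NumberField K] [Algebra F K] [Field M] [NumberField M]
  [Algebra F M] [Field L] [NumberField L] [Algebra L M] [Field N] [NumberField N] [Algebra K N]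
  [Algebra M N] {θ : M} {t : L} {τ σ : M ≃+* M} {T : N ≃+* N} {act : (K ≃ₐ[F] K) → (N ≃+* N)}

theorem even3_core {K N : Type} [Field K] [NumberField K] [Algebra F K] [Field N] [NumberField N]
    [Algebra K N] (φ : Cub K ≃ₐ[K] N) (T : N ≃ₐ[K] N)
    (h3K : ∀ w : HeightOneSpectrum (𝓞 K), (3 : 𝓞 K) ∈ w.asIdeal →
      ∃ e : ℕ, ¬ 3 ∣ e ∧ w.valuation K (3 : K) = WithZero.exp (-(e : ℤ)))
    (P : HeightOneSpectrum (𝓞 N)) (h3 : (3 : 𝓞 N) ∈ P.asIdeal) (m : N) (hm : m ≠ 0) (n : K)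
    (hn : m * T m * T (T m) = algebraMap K N n ^ 2) :
    ∃ k : ℤ, P.valuation N m = WithZero.exp (2 * k) := by
  obtain ⟨w, -, hw, -, -⟩ := A4_glob (K := K) (N := N) P
  have h3w : (3 : 𝓞 K) ∈ w.asIdeal := by
    rw [hw, Ideal.mem_comap, map_ofNat]
    exact h3
  obtain ⟨P0, hP0, hu, hPT, -⟩ := exists_P3 φ w h3w (h3K w h3w) T
  have hPP : P = P0 := hu P hw
  subst hPP
  have hTm : T m ≠ 0 := (map_ne_zero_iff _ T.injective).2 hm
  have hTTm : T (T m) ≠ 0 := (map_ne_zero_iff _ T.injective).2 hTm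
  have hν0 : algebraMap K N n ≠ 0 := by
    intro h
    rw [h] at hn
    exact mul_ne_zero (mul_ne_zero hm hTm) hTTm (by rw [hn]; ring)
  have hvm0 : P.valuation N m ≠ 0 := (Valuation.ne_zero_iff _).2 hm
  have hvν0 : P.valuation N (algebraMap K N n) ≠ 0 := (Valuation.ne_zero_iff _).2 hν0
  refine A3_root (P.valuation N) m (algebraMap K N n) hvm0 hvν0 ?_
  rw [← map_pow (P.valuation N) (algebraMap K N n) 2, ← hn, map_mul, map_mul, hPT (T m), hPT m,
    pow_succ, pow_two]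

theorem even3N (C : Comp K M L N θ t τ σ T act)
    (h3K : ∀ w : HeightOneSpectrum (𝓞 K), (3 : 𝓞 K) ∈ w.asIdeal →
      ∃ e : ℕ, ¬ 3 ∣ e ∧ w.valuation K (3 : K) = WithZero.exp (-(e : ℤ)))
    (hno : ¬ ∃ x : K, x ^ 3 = 2)
    (P : HeightOneSpectrum (𝓞 N)) (h3 : (3 : 𝓞 N) ∈ P.asIdeal) (m : N) (hm : m ≠ 0) (n : K)
    (hn : m * T m * T (T m) = algebraMap K N n ^ 2) :
    ∃ k : ℤ, P.valuation N m = WithZero.exp (2 * k) := by
  obtain ⟨φ⟩ := cub_equiv (algebraMap M N θ) (by rw [← map_pow, C.sex.cube, map_ofNat]) C.span hno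
  exact even3_core φ (AlgEquiv.ofRingEquiv (f := T) C.T_K) h3K P h3 m hm n hn

theorem subT_F : SubT F := by
  refine ⟨F, inferInstance, inferInstance, inferInstance, inferInstance, inferInstance,
    ⟨IsGalois.self F, 0, ?_⟩, ?_⟩
  · rw [pow_zero]
    exact Module.finrank_self F
  · intro w _
    exact H19Y.e_one_of_rank_one F (Module.finrank_self F) w

theorem even3M (D : Sextic M L θ t τ σ) (P : HeightOneSpectrum (𝓞 M)) (h3 : (3 : 𝓞 M) ∈ P.asIdeal)
    (m : M) (hm : m ≠ 0) (n : F) (hn : m * τ m * τ (τ m) = algebraMap F M n ^ 2) :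
    ∃ k : ℤ, P.valuation M m = WithZero.exp (2 * k) := by
  obtain ⟨φ⟩ := cub_equiv θ D.cube D.span (subT_no_cube subT_F)
  exact even3_core φ (AlgEquiv.ofRingEquiv (f := τ) D.tau_F) (fun w hw => Z1_nine subT_F w hw)
    P h3 m hm n hn

/-- Comp holds only for fields without a cube root of 2. -/
theorem comp_no_cube (C : Comp K M L N θ t τ σ T act) : ¬ ∃ x : K, x ^ 3 = 2 := by
  rintro ⟨z, hz⟩
  have hom : algebraMap O K om ^ 2 + algebraMap O K om + 1 = 0 := by
    have h := congrArg (algebraMap O K) om_rel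
    rwa [map_add, map_add, map_pow, map_one, map_zero] at h
  have hom3 : algebraMap O K om ^ 3 = 1 := by linear_combination (algebraMap O K om - 1) * hom
  have hθ : algebraMap M N θ ^ 3 = 2 := by rw [← map_pow, C.sex.cube, map_ofNat]
  have hz' : algebraMap K N z ^ 3 = 2 := by rw [← map_pow, hz, map_ofNat]
  obtain ⟨r, hr⟩ : ∃ r, r = algebraMap K N (algebraMap O K om) := ⟨_, rfl⟩
  have hr1 : r ^ 2 + r + 1 = 0 := by
    rw [hr, ← map_pow, ← map_one (algebraMap K N), ← map_add, ← map_add, hom, map_zero]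
  have hprod : (algebraMap M N θ - algebraMap K N z) * (algebraMap M N θ - r * algebraMap K N z) *
      (algebraMap M N θ - r ^ 2 * algebraMap K N z) = 0 := by
    generalize algebraMap M N θ = A at *
    generalize algebraMap K N z = B at *
    linear_combination hθ - hz' + (-(A ^ 2 * B) + r * A * B ^ 2 - (r - 1) * B ^ 3) * hr1
  have key : ∀ y : K, algebraMap M N θ ≠ algebraMap K N y := by
    intro y hy
    have h := C.indep (-y) 1 0 (by rw [map_neg, map_one, map_zero, hy]; ring)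
    exact one_ne_zero h.2.1
  rcases mul_eq_zero.1 hprod with h | h
  · rcases mul_eq_zero.1 h with h | h
    · exact key z (sub_eq_zero.1 h)
    · exact key (algebraMap O K om * z) (by rw [map_mul, ← hr]; exact sub_eq_zero.1 h)
  · exact key (algebraMap O K om ^ 2 * z) (by
      rw [map_mul, map_pow, ← hr]; exact sub_eq_zero.1 h)

end H19Z
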