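import Mathlib
import Pool.Agent.Lib.H19Z.T3
import Pool.Agent.Lib.H55C.A10
import Pool.Agent.Lib.H55C.A13

open NumberField IsDedekindDomain

namespace H19Z

open H55B H55C H55E H19X

/-! Copies of A4, A10, A13 of H55C. -/

variable {K M L N : Type} [Field K] [NumberField K] [Algebra F K] [Field M] [NumberField M]
  [Algebra F M] [Field L] [NumberField L] [Algebra L M] [Field N] [NumberField N] [Algebra K N]
  [Algebra M N] {θ : M} {t : L} {τ σ : M ≃+* M} {T : N ≃+* N} {act : (K ≃ₐ[F] K) → (N ≃+* N)}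

theorem glob2T (K N : Type) [Field K] [NumberField K] [Field N] [NumberField N]
    [Algebra K N] (hU : UnrTwo K) (P : HeightOneSpectrum (𝓞 N)) (h2 : (2 : 𝓞 N) ∈ P.asIdeal) (z : K)
    (hz : P.valuation N (algebraMap K N z) < 1) :
    P.valuation N (algebraMap K N z) ≤ P.valuation N 2 := by
  obtain ⟨w, e, hw, he, hval⟩ := A4_glob (K := K) (N := N) P
  have h2w : (2 : 𝓞 K) ∈ w.asIdeal := by
    rw [hw, Ideal.mem_comap, map_ofNat]
    exact h2
  have h := hU w h2w
  have h5 : (2 : N) = algebraMap K N 2 := (map_ofNat (algebraMap K N) 2).symm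
  rw [h5, hval, hval, h]
  rw [hval] at hz
  have hz1 : w.valuation K z < 1 := by
    by_contra hcon
    exact absurd hz (not_lt.mpr (one_le_pow₀ (not_lt.mp hcon)))
  exact pow_le_pow_left₀ zero_le (A4_lt hz1) e

/-- the values of the elements of K -/
theorem ZA13_K (K N : Type) [Field K] [NumberField K] [Algebra F K] [Field N] [NumberField N]
    [Algebra K N] (hU : UnrTwo K) (P : HeightOneSpectrum (𝓞 N)) (h2 : (2 : 𝓞 N) ∈ P.asIdeal)
    (s : ℤ) (hs : 0 < s) (hv2 : P.valuation N 2 = WithZero.exp (-s)) (z : K) (hz : z ≠ 0) :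
    ∃ n : ℤ, P.valuation N (algebraMap K N z) = WithZero.exp (s * n) := by
  have hz' : algebraMap K N z ≠ 0 := (map_ne_zero _).2 hz
  obtain ⟨r, hr⟩ := A13_exp P hz'
  set n : ℤ := (-r) / s with hn
  have h1 : (-r) % s + s * n = -r := Int.emod_add_mul_ediv (-r) s
  have h3 : 0 ≤ (-r) % s := Int.emod_nonneg _ hs.ne'
  have h4 : (-r) % s < s := Int.emod_lt_of_pos _ hs
  set z' : K := z / 2 ^ n with hz'def
  have h20 : (2 : K) ≠ 0 := two_ne_zero
  have hv : P.valuation N (algebraMap K N z') = WithZero.exp (-((-r) % s)) := by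
    rw [hz'def, map_div₀, map_div₀, map_zpow₀, map_zpow₀, map_ofNat, hv2, hr, ← WithZero.exp_zsmul,
      ← WithZero.exp_sub]
    congr 1
    rw [smul_eq_mul]
    linarith
  have h5 : (-r) % s = 0 := by
    by_contra hne
    have hpos : 0 < (-r) % s := lt_of_le_of_ne h3 (Ne.symm hne)
    have h6 : P.valuation N (algebraMap K N z') < 1 := by
      rw [hv, ← WithZero.exp_zero, WithZero.exp_lt_exp]
      linarith
    have h7 := glob2T K N hU P h2 z' h6
    rw [hv, hv2, WithZero.exp_le_exp] at h7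
    linarith
  refine ⟨-n, ?_⟩
  rw [hr]
  congr 1
  rw [h5] at h1
  linarith

theorem not_twoT (C : Comp K M L N θ t τ σ T act) (hU : UnrTwo K) (P : HeightOneSpectrum (𝓞 N))
    (h2 : (2 : 𝓞 N) ∈ P.asIdeal) (j : ℕ) (b : N) (hb : b ≠ 0) :
    ¬ P.valuation N (algebraMap M N (algebraMap O M om ^ j * θ - 1) / b ^ 2 - 1) ≤
      P.valuation N (algebraMap M N θ ^ 2) := by
  set v := P.valuation N with hvdef
  set ϑ := algebraMap M N θ with hϑ
  have hcube : ϑ ^ 3 = 2 := by
    rw [hϑ, ← map_pow, C.sex.cube, map_ofNat]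
  have hϑ0 : ϑ ≠ 0 := by
    intro h0
    rw [h0] at hcube
    norm_num at hcube
  obtain ⟨r, hr⟩ := A13_exp P hϑ0
  change v ϑ = _ at hr
  have hv2 : v 2 = WithZero.exp (3 * r) := by
    rw [← hcube, map_pow, hr, ← WithZero.exp_nsmul]
    congr 1
  have hv2lt : v 2 < 1 := by
    have h3 : P.valuation N (algebraMap (𝓞 N) N 2) < 1 :=
      (P.valuation_lt_one_iff_mem (K := N) (2 : 𝓞 N)).2 h2
    rwa [map_ofNat] at h3
  have hr0 : r < 0 := by
    rw [hv2, ← WithZero.exp_zero, WithZero.exp_lt_exp] at hv2lt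
    linarith
  set s : ℤ := -r with hs
  have hspos : 0 < s := by linarith
  have hK := ZA13_K K N hU P h2 (3 * s) (by linarith) (by
    change v 2 = _
    rw [hv2]
    congr 1
    rw [hs]
    ring)
  change ∀ z : K, z ≠ 0 → ∃ n : ℤ, v (algebraMap K N z) = WithZero.exp (3 * s * n) at hK
  have hvϑ : v ϑ = WithZero.exp (-s) := by
    rw [hr, hs, neg_neg]
  have hvϑ1 : v ϑ < 1 := by
    rw [hvϑ, ← WithZero.exp_zero, WithZero.exp_lt_exp]
    linarith
  have hvϑ0 : 0 < v ϑ := by
    rw [hvϑ]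
    exact WithZero.exp_pos
  -- the element th
  set th := algebraMap M N (algebraMap O M om ^ j * θ) with hth
  have hthm : algebraMap M N (algebraMap O M om ^ j * θ - 1) = th - 1 := by
    rw [map_sub, map_one]
  have hvom : v (algebraMap M N (algebraMap O M om ^ j)) = 1 := by
    have h3 : om ^ 3 = 1 := by
      have := om_rel
      linear_combination (om - 1) * this
    have h4 : (algebraMap M N (algebraMap O M om ^ j)) ^ 3 = 1 := by
      rw [← map_pow, ← pow_mul, mul_comm j 3, pow_mul, ← map_pow, h3, map_one, one_pow, map_one]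
    have h5 : v (algebraMap M N (algebraMap O M om ^ j)) ^ 3 = 1 := by
      rw [← map_pow, h4, map_one]
    exact (pow_eq_one_iff_of_nonneg zero_le (by norm_num)).1 h5
  have hvth : v th = v ϑ := by
    rw [hth, map_mul (algebraMap M N), map_mul, hvom, one_mul]
  rw [hthm]
  intro hle
  have hϑ2 : v (ϑ ^ 2) < v ϑ := by
    rw [map_pow, pow_two]
    calc v ϑ * v ϑ < v ϑ * 1 := by
          exact (mul_lt_mul_iff_right₀ hvϑ0).2 hvϑ1
      _ = v ϑ := mul_one _
  have hϑ2' : v (ϑ ^ 2) < 1 := hϑ2.trans hvϑ1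
  have hth1 : v (th - 1) = 1 := by
    have h3 : v (-1 + th) = v (-1 : N) := Valuation.map_add_eq_of_lt_left _ (by
      rw [Valuation.map_neg, map_one, hvth]
      exact hvϑ1)
    rw [Valuation.map_neg, map_one] at h3
    rw [← h3]
    congr 1
    ring
  have hb2 : v (b ^ 2) = 1 := by
    have h3 : v (1 + ((th - 1) / b ^ 2 - 1)) = v (1 : N) := Valuation.map_add_eq_of_lt_left _ (by
      rw [map_one]
      exact hle.trans_lt hϑ2')
    rw [map_one] at h3
    have h4 : (1 + ((th - 1) / b ^ 2 - 1)) = (th - 1) / b ^ 2 := by ring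
    rw [h4, map_div₀, hth1] at h3
    have h5 : v (b ^ 2) ≠ 0 := (Valuation.ne_zero_iff _).2 (pow_ne_zero 2 hb)
    rw [div_eq_one_iff_eq h5] at h3
    exact h3.symm
  have hb1 : v b = 1 := by
    rw [map_pow] at hb2
    exact (pow_eq_one_iff_of_nonneg zero_le (by norm_num)).1 hb2
  have hmain : v ((th - 1) - b ^ 2) ≤ v (ϑ ^ 2) := by
    have h3 : (th - 1) - b ^ 2 = ((th - 1) / b ^ 2 - 1) * b ^ 2 := by
      field_simp
    rw [h3, map_mul, hb2, mul_one]
    exact hle
  obtain ⟨u0, u1, u2, hu⟩ := C.span b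
  change b = algebraMap K N u0 + algebraMap K N u1 * ϑ + algebraMap K N u2 * ϑ ^ 2 at hu
  -- distinctness of the values
  have hdist : ∀ (x y : K) (i k : ℤ), ¬ (3 ∣ i - k) →
      v (algebraMap K N x) * WithZero.exp (-(s * i)) = v (algebraMap K N y) * WithZero.exp (-(s * k)) →
      x = 0 ∧ y = 0 := by
    intro x y i k hik he
    by_cases hx : x = 0
    · refine ⟨hx, ?_⟩
      rw [hx, map_zero, map_zero, zero_mul] at he
      rcases mul_eq_zero.1 he.symm with h | h
      · have h3 : algebraMap K N y = 0 := (Valuation.zero_iff _).1 h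
        exact (map_eq_zero _).1 h3
      · exact absurd h WithZero.exp_ne_zero
    · by_cases hy : y = 0
      · exfalso
        rw [hy, map_zero, map_zero, zero_mul] at he
        rcases mul_eq_zero.1 he with h | h
        · have h3 : algebraMap K N x = 0 := (Valuation.zero_iff _).1 h
          exact hx ((map_eq_zero _).1 h3)
        · exact absurd h WithZero.exp_ne_zero
      · exfalso
        obtain ⟨n, hn⟩ := hK x hx
        obtain ⟨n', hn'⟩ := hK y hy
        rw [hn, hn', ← WithZero.exp_add, ← WithZero.exp_add] at he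
        have h3 := WithZero.exp_injective he
        have h4 : s * (3 * n - i - (3 * n' - k)) = 0 := by linear_combination h3
        rcases mul_eq_zero.1 h4 with h5 | h5
        · omega
        · apply hik
          exact ⟨n - n', by linarith⟩
  have e0 : v (algebraMap K N u0) = v (algebraMap K N u0) * WithZero.exp (-(s * 0)) := by
    rw [mul_zero, neg_zero, WithZero.exp_zero, mul_one]
  have e1 : v (algebraMap K N u1 * ϑ) = v (algebraMap K N u1) * WithZero.exp (-(s * 1)) := by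
    rw [map_mul, hvϑ, mul_one]
  have e2 : v (algebraMap K N u2 * ϑ ^ 2) = v (algebraMap K N u2) * WithZero.exp (-(s * 2)) := by
    rw [map_mul, map_pow, hvϑ, ← WithZero.exp_nsmul]
    congr 2
    rw [nsmul_eq_mul]
    push_cast
    ring
  obtain ⟨m0, m1, m2⟩ := A13_max v (algebraMap K N u0) (algebraMap K N u1 * ϑ)
    (algebraMap K N u2 * ϑ ^ 2)
    (fun h => by
      rw [e0, e1] at h
      obtain ⟨h3, h4⟩ := hdist u0 u1 0 1 (by norm_num) h
      rw [h3, h4, map_zero, zero_mul]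
      exact ⟨rfl, rfl⟩)
    (fun h => by
      rw [e1, e2] at h
      obtain ⟨h3, h4⟩ := hdist u1 u2 1 2 (by norm_num) h
      rw [h3, h4, map_zero, zero_mul, zero_mul]
      exact ⟨rfl, rfl⟩)
    (fun h => by
      rw [e0, e2] at h
      obtain ⟨h3, h4⟩ := hdist u0 u2 0 2 (by norm_num) h
      rw [h3, h4, map_zero, zero_mul]
      exact ⟨rfl, rfl⟩)
    (by rw [← hu]; exact hb1)
  have hbd : ∀ (x : K) (i : ℤ), 0 ≤ i → i < 3 →
      v (algebraMap K N x) * WithZero.exp (-(s * i)) ≤ 1 → v (algebraMap K N x) ≤ 1 := by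
    intro x i hi0 hi3 h
    by_cases hx : x = 0
    · rw [hx, map_zero, map_zero]
      exact zero_le
    · obtain ⟨n, hn⟩ := hK x hx
      rw [hn, ← WithZero.exp_add, ← WithZero.exp_zero, WithZero.exp_le_exp] at h
      rw [hn, ← WithZero.exp_zero, WithZero.exp_le_exp]
      have h3 : n ≤ 0 := by
        by_contra hn0
        rw [not_le] at hn0
        have h4 : 1 ≤ n := hn0
        nlinarith
      nlinarith
  have n1 : v (algebraMap K N u1) ≤ 1 := hbd u1 1 (by norm_num) (by norm_num) (by rw [← e1]; exact m1)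
  have n2 : v (algebraMap K N u2) ≤ 1 := hbd u2 2 (by norm_num) (by norm_num) (by rw [← e2]; exact m2)
  -- b = u0 + th b'
  set b' : N := algebraMap K N u1 + algebraMap K N u2 * ϑ with hb'
  have hbb' : b = algebraMap K N u0 + ϑ * b' := by
    rw [hu, hb']
    ring
  have hvb' : v b' ≤ 1 := by
    refine (v.map_add _ _).trans (max_le n1 ?_)
    rw [map_mul]
    exact mul_le_one' n2 hvϑ1.le
  have hb2' : v (b ^ 2 - algebraMap K N u0 ^ 2) ≤ v (ϑ ^ 2) := by
    have h3 : b ^ 2 - algebraMap K N u0 ^ 2 =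
        ϑ ^ 2 * (ϑ ^ 2 * algebraMap K N u0 * b' + b' ^ 2) := by
      have h4 : ϑ ^ 3 = 2 := hcube
      rw [hbb']
      linear_combination (-(algebraMap K N u0 * b' * ϑ)) * h4
    rw [h3, map_mul]
    have h5 : v (ϑ ^ 2 * algebraMap K N u0 * b' + b' ^ 2) ≤ 1 := by
      refine (v.map_add _ _).trans (max_le ?_ ?_)
      · rw [map_mul, map_mul]
        exact mul_le_one' (mul_le_one' hϑ2'.le m0) hvb'
      · rw [map_pow]
        exact pow_le_one' hvb' 2
    calc v (ϑ ^ 2) * v (ϑ ^ 2 * algebraMap K N u0 * b' + b' ^ 2) ≤ v (ϑ ^ 2) * 1 :=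
          mul_le_mul' le_rfl h5
      _ = _ := mul_one _
  have hfin : v (th - algebraMap K N (1 + u0 ^ 2)) ≤ v (ϑ ^ 2) := by
    have h3 : th - algebraMap K N (1 + u0 ^ 2) =
        ((th - 1) - b ^ 2) + (b ^ 2 - algebraMap K N u0 ^ 2) := by
      rw [map_add, map_one, map_pow]
      ring
    rw [h3]
    exact (v.map_add _ _).trans (max_le hmain hb2')
  have hval : v (algebraMap K N (1 + u0 ^ 2)) = v ϑ := by
    have h3 : v (th + -(th - algebraMap K N (1 + u0 ^ 2))) = v th :=
      Valuation.map_add_eq_of_lt_left _ (by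
        rw [Valuation.map_neg, hvth]
        exact hfin.trans_lt hϑ2)
    rw [hvth] at h3
    rw [← h3]
    congr 1
    ring
  have h3 := glob2T K N hU P h2 (1 + u0 ^ 2) (by
    change v _ < 1
    rw [hval]
    exact hvϑ1)
  change v _ ≤ v 2 at h3
  rw [hval, hv2, hvϑ, WithZero.exp_le_exp] at h3
  linarith

theorem even_badT (C : Comp K M L N θ t τ σ T act) (hU : UnrG K) (P : HeightOneSpectrum (𝓞 M))
    (v : HeightOneSpectrum O) (hP : v.asIdeal = P.asIdeal.under O) (hv : ¬ Good v)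
    (h3v : (3 : O) ∉ v.asIdeal) (m0 : M)
    (hm0 : m0 ≠ 0) (c : N) (hc : c ≠ 0)
    (h : ∀ Q : HeightOneSpectrum (𝓞 N), ∃ k : ℤ,
      Q.valuation N (algebraMap M N m0 * c ^ 2) = WithZero.exp (2 * k)) :
    ∃ k : ℤ, P.valuation M m0 = WithZero.exp (2 * k) := by
  let _ : Algebra F N := ((algebraMap K N).comp (algebraMap F K)).toAlgebra
  have tK : IsScalarTower F K N := IsScalarTower.of_algebraMap_eq (fun x => rfl)
  have tM : IsScalarTower F M N := IsScalarTower.of_algebraMap_eq (fun x => C.tower x)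
  have tK' : IsScalarTower O (𝓞 K) (𝓞 N) := inferInstance
  have tM' : IsScalarTower O (𝓞 M) (𝓞 N) := inferInstance
  have hPmax : P.asIdeal.IsMaximal := P.isMaximal
  obtain ⟨Q0, hQm, hQl⟩ := Ideal.exists_maximal_ideal_liesOver_of_isIntegral P.asIdeal (S := 𝓞 N)
  have hQ0 : Q0 ≠ ⊥ := Ideal.ne_bot_of_liesOver_of_ne_bot P.ne_bot Q0
  let Q : HeightOneSpectrum (𝓞 N) := ⟨Q0, hQm.isPrime, hQ0⟩
  have hQP : Q.asIdeal.LiesOver P.asIdeal := hQl
  have hw0 : Q0.under (𝓞 K) ≠ ⊥ := Ideal.IsIntegral.comap_ne_bot (𝓞 K) hQ0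
  let w : HeightOneSpectrum (𝓞 K) := ⟨Q0.under (𝓞 K), inferInstance, hw0⟩
  have hQw : Q.asIdeal.LiesOver w.asIdeal := ⟨rfl⟩
  have hPv : P.asIdeal.LiesOver v.asIdeal := ⟨hP⟩
  have hQv : Q.asIdeal.LiesOver v.asIdeal := Ideal.LiesOver.trans Q.asIdeal P.asIdeal v.asIdeal
  have hwv : v.asIdeal = w.asIdeal.under O := by
    rw [hQv.over]
    change Q0.under O = (Q0.under (𝓞 K)).under O
    rw [Ideal.under_under]
  have hwv' : w.asIdeal.LiesOver v.asIdeal := ⟨hwv⟩
  have e1 : w.asIdeal.ramificationIdx O = 1 := hU w v hwv hv h3v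
  have e2 : Q.asIdeal.ramificationIdx O = w.asIdeal.ramificationIdx O *
      Q.asIdeal.ramificationIdx (𝓞 K) := Ideal.ramificationIdx_tower w.asIdeal Q.asIdeal
  have e3 : Q.asIdeal.ramificationIdx O = P.asIdeal.ramificationIdx O *
      Q.asIdeal.ramificationIdx (𝓞 M) := Ideal.ramificationIdx_tower P.asIdeal Q.asIdeal
  have e4 : Q.asIdeal.ramificationIdx (𝓞 M) ∣ 3 := by
    refine Dvd.dvd.trans ⟨P.asIdeal.ramificationIdx O, ?_⟩ (a10_dvd C w Q hQw)
    rw [e1, one_mul] at e2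
    rw [← e2, e3]
    ring
  have e5 : P.asIdeal.ramificationIdx' Q.asIdeal = Q.asIdeal.ramificationIdx (𝓞 M) :=
    Ideal.ramificationIdx'_eq_ramificationIdx P.asIdeal Q.asIdeal P.ne_bot
  have hodd : Odd (Q.asIdeal.ramificationIdx (𝓞 M)) := by
    rcases (Nat.dvd_prime Nat.prime_three).1 e4 with h1 | h1
    · rw [h1]
      exact odd_one
    · rw [h1]
      exact ⟨1, rfl⟩
  have h4 := HeightOneSpectrum.valuation_liesOver N P Q m0
  rw [e5] at h4
  obtain ⟨k, hk⟩ := h Q
  have hPm : P.valuation M m0 ≠ 0 := (Valuation.ne_zero_iff _).2 hm0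
  have hQc : Q.valuation N c ≠ 0 := (Valuation.ne_zero_iff _).2 hc
  obtain ⟨i, hi⟩ : ∃ i : ℤ, P.valuation M m0 = WithZero.exp i :=
    ⟨WithZero.log (P.valuation M m0), (WithZero.exp_log hPm).symm⟩
  obtain ⟨j, hj⟩ : ∃ j : ℤ, Q.valuation N c = WithZero.exp j :=
    ⟨WithZero.log (Q.valuation N c), (WithZero.exp_log hQc).symm⟩
  rw [map_mul, map_pow, ← h4, hi, hj, ← WithZero.exp_nsmul, ← WithZero.exp_nsmul,
    ← WithZero.exp_add, WithZero.exp_inj] at hk
  obtain ⟨r, hr⟩ := hodd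
  rw [hr] at hk
  simp only [nsmul_eq_mul] at hk
  push_cast at hk
  refine ⟨k - j - r * i, ?_⟩
  rw [hi, WithZero.exp_inj]
  linear_combination hk

end H19Z
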