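import Mathlib
import Pool.Agent.Lib.H19Z.A1
import Pool.Agent.Lib.H19Z.A2
import Pool.Agent.Lib.H55C.A15

open NumberField IsDedekindDomain

namespace H19Z

open H55B H55C H55E H19X

variable {K M L N : Type} [Field K] [NumberField K] [Algebra F K] [Field M] [NumberField M]
  [Algebra F M] [Field L] [NumberField L] [Algebra L M] [Field N] [NumberField N] [Algebra K N]
  [Algebra M N] {θ : M} {t : L} {τ σ : M ≃+* M} {T : N ≃+* N} {act : (K ≃ₐ[F] K) → (N ≃+* N)}

theorem cond_trivialT (C : Comp K M L N θ t τ σ T act) (hG : IsGalois F K) (k : ℕ)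
    (hk : Module.finrank F K = 2 ^ k) (hU : UnrG K) (hU2 : UnrTwo K) (m : N)
    (hm : Cond K N (algebraMap M N θ) T m) : ∃ b : N, m = b ^ 2 := by
  by_contra hns
  haveI : FiniteDimensional F K := by
    apply FiniteDimensional.of_finrank_pos
    rw [hk]
    positivity
  have hp : IsPGroup 2 (K ≃ₐ[F] K) := IsPGroup.of_card (n := k) (by
    rw [IsGalois.card_aut_eq_finrank, hk])
  obtain ⟨m', hm', hns', hfix⟩ := A15_fixed hp act (act_one C) (act_mul C)
    (Cond K N (algebraMap M N θ) T) (fun m h => h.ne) (fun m m' h h' => cond_mul C h h')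
    (fun c hc => cond_sq C hc) (fun g m h => cond_act C g h) m hm hns
  obtain ⟨n, hn0, hn⟩ := hm'.norm
  obtain ⟨m0, c, n0, hc0, hn00, hm0, hn0'⟩ := descend C hG m' n hn0 hn hfix
  have hm00 : m0 ≠ 0 := by
    rintro rfl
    apply hm'.ne
    rw [hm0, map_zero, zero_mul]
  have heven : ∀ P : HeightOneSpectrum (𝓞 M), ∃ k : ℤ, P.valuation M m0 = WithZero.exp (2 * k) := by
    intro P
    by_cases hv : Good (I2_under P)
    · exact even_good C.sex (I2_under P) hv P rfl m0 n0 hn00 hn0'
    · by_cases h3v : (3 : O) ∈ (I2_under P).asIdeal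
      · have h3P : (3 : 𝓞 M) ∈ P.asIdeal := by
          have h4 : algebraMap O (𝓞 M) 3 ∈ P.asIdeal := h3v
          rwa [map_ofNat] at h4
        exact even3M C.sex P h3P m0 hm00 n0 hn0'
      refine even_badT C hU P (I2_under P) rfl hv h3v m0 hm00 c hc0 ?_
      intro Q
      rw [← hm0]
      exact hm'.even Q
  rcases sq_or_conj' C.sex m0 hm00 heven n0 hn0' with ⟨b, hb⟩ | ⟨j, b, -, hb⟩
  · apply hns'
    refine ⟨algebraMap M N b * c, ?_⟩
    rw [hm0, hb, map_pow]
    ring
  · obtain ⟨P, hP⟩ := A15_prime2 N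
    obtain ⟨b', hb'0, hb'⟩ := hm'.two P hP
    have hb0 : b ≠ 0 := by
      rintro rfl
      apply hm00
      rw [hb]
      ring
    have hbN : algebraMap M N b ≠ 0 := (map_ne_zero _).2 hb0
    have hbc : algebraMap M N b * c ≠ 0 := mul_ne_zero hbN hc0
    apply not_twoT C hU2 P hP j (b' / (algebraMap M N b * c)) (div_ne_zero hb'0 hbc)
    have h1 : algebraMap M N (algebraMap O M om ^ j * θ - 1) / (b' / (algebraMap M N b * c)) ^ 2 =
        m' / b' ^ 2 := by
      rw [hm0, hb, map_mul, map_pow]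
      field_simp
    rw [h1]
    exact hb'

end H19Z
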