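import Mathlib
import Pool.Agent.Lib.H19Z.A3
import Pool.Agent.Lib.H55C.A16

open NumberField IsDedekindDomain

namespace H19Z

open H55B H55C H55E H19X

variable {K M L N : Type} [Field K] [NumberField K] [Algebra F K] [Field M] [NumberField M]
  [Algebra F M] [Field L] [NumberField L] [Algebra L M] [Field N] [NumberField N] [Algebra K N]
  [Algebra M N] {θ : M} {t : L} {τ σ : M ≃+* M} {T : N ≃+* N} {act : (K ≃ₐ[F] K) → (N ≃+* N)}

theorem cond_pointT (C : Comp K M L N θ t τ σ T act) (hU2 : UnrTwo K)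
    (h3K : ∀ w : HeightOneSpectrum (𝓞 K), (3 : 𝓞 K) ∈ w.asIdeal →
      ∃ e : ℕ, ¬ 3 ∣ e ∧ w.valuation K (3 : K) = WithZero.exp (-(e : ℤ))) (x Y : K)
    (hY : Y ^ 2 = 4 * x ^ 3 + 1) (hY0 : Y ≠ 0) :
    Cond K N (algebraMap M N θ) T (2 * (2 * algebraMap K N x + algebraMap M N θ)) := by
  have hcube := A16_cube C
  have hr := A16_om K
  have hne : 2 * (2 * algebraMap K N x + algebraMap M N θ) ≠ 0 := by
    intro h0
    have h1 : 2 * algebraMap K N x + algebraMap M N θ = 0 := by
      rcases mul_eq_zero.1 h0 with h | h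
      · exact absurd h two_ne_zero
      · exact h
    have h2 := C.indep (2 * x) 1 0 (by
      rw [map_mul, map_ofNat, map_one, map_zero]
      linear_combination h1)
    exact one_ne_zero h2.2.1
  have htwo : ∀ P : HeightOneSpectrum (𝓞 N), (2 : 𝓞 N) ∈ P.asIdeal →
      ∃ b : N, b ≠ 0 ∧ P.valuation N (2 * (2 * algebraMap K N x + algebraMap M N θ) / b ^ 2 - 1) ≤
        P.valuation N (algebraMap M N θ ^ 2) := by
    intro P h2
    exact loc2 (P.valuation N) (algebraMap M N θ) hcube
      ((Valuation.ne_zero_iff _).2 two_ne_zero) ((A16_val_lt P 2).2 h2)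
      (fun z hz => glob2T K N hU2 P h2 z hz) x Y hY hY0
  have hnorm : 2 * (2 * algebraMap K N x + algebraMap M N θ) *
      T (2 * (2 * algebraMap K N x + algebraMap M N θ)) *
      T (T (2 * (2 * algebraMap K N x + algebraMap M N θ))) = algebraMap K N (4 * Y) ^ 2 := by
    have hr' : algebraMap K N (algebraMap O K om) ^ 2 + algebraMap K N (algebraMap O K om) + 1 = 0 := by
      have h := congrArg (algebraMap K N) hr
      rwa [map_add, map_add, map_pow, map_one, map_zero] at h
    have h1 : T (2 * (2 * algebraMap K N x + algebraMap M N θ)) =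
        2 * (2 * algebraMap K N x + algebraMap K N (algebraMap O K om) * algebraMap M N θ) := by
      rw [map_mul, map_add, map_mul, map_ofNat, C.T_K, T_theta C]
    have h2 : T (T (2 * (2 * algebraMap K N x + algebraMap M N θ))) =
        2 * (2 * algebraMap K N x + algebraMap K N (algebraMap O K om) *
          (algebraMap K N (algebraMap O K om) * algebraMap M N θ)) := by
      rw [h1, map_mul, map_add, map_mul, map_mul, map_ofNat, C.T_K, C.T_K, T_theta C]
    have h3 := A16_prod hr' (2 * algebraMap K N x) (algebraMap M N θ)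
    have h4 := congrArg (algebraMap K N) hY
    rw [map_pow, map_add, map_mul, map_pow, map_ofNat, map_one] at h4
    rw [h2, h1, map_mul, map_ofNat]
    linear_combination 8 * h3 + 8 * hcube - 16 * h4
  refine ⟨hne, ⟨4 * Y, mul_ne_zero (by norm_num) hY0, hnorm⟩, ?_, htwo⟩
  · intro P
    by_cases h2 : (2 : 𝓞 N) ∈ P.asIdeal
    · obtain ⟨b, hb, hb2⟩ := htwo P h2
      exact A16_even_of_two (P.valuation N)
        (A16_val_theta (P.valuation N) hcube ((A16_val_lt P 2).2 h2)) hb hb2
    · by_cases h3 : (3 : 𝓞 N) ∈ P.asIdeal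
      · exact even3N C h3K (comp_no_cube C) P h3 _ hne (4 * Y) hnorm
      · exact loc1 (P.valuation N) (algebraMap O K om) hr (algebraMap M N θ) hcube
          (A16_val_eq P 2 h2) (A16_val_eq P 3 h3) x Y hY hY0

theorem E_divT (K : Type) [Field K] [NumberField K] [Algebra F K] [DecidableEq K] (hG : IsGalois F K)
    (k : ℕ) (hk : Module.finrank F K = 2 ^ k) (hU : UnrG K) (hU2 : UnrTwo K)
    (h3K : ∀ w : HeightOneSpectrum (𝓞 K), (3 : 𝓞 K) ∈ w.asIdeal →
      ∃ e : ℕ, ¬ 3 ∣ e ∧ w.valuation K (3 : K) = WithZero.exp (-(e : ℤ))) (P : (E27.baseChange K).toAffine.Point) :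
    ∃ Q : (E27.baseChange K).toAffine.Point, P = (2 : ℕ) • Q := by
  cases P with
  | zero =>
    refine ⟨0, ?_⟩
    rw [smul_zero]
    rfl
  | some x y h =>
    have hE := (nonsing_iff K x y).mp h
    have hY0 := A16_Y_ne K k hk x y hE
    obtain ⟨M, _, _, _, L, _, _, _, N, _, _, _, _, θ, t, τ, σ, T, act, φ, C, _, _⟩ :=
      exists_comp K k hk
    have hY : (2 * y + 1) ^ 2 = 4 * x ^ 3 + 1 := by linear_combination 4 * hE
    obtain ⟨b, hb⟩ := cond_trivialT C hG k hk hU hU2 _ (cond_pointT C hU2 h3K x (2 * y + 1) hY hY0)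
    obtain ⟨x1, y1, h1, hy10, h2, h3⟩ := half_K C x (2 * y + 1) hY b hb
    have h2' : (2 : K) ≠ 0 := two_ne_zero
    have hyQ : 2 * ((y1 - 1) / 2) + 1 = y1 := by
      field_simp
      ring
    have hQ : (E27.baseChange K).toAffine.Nonsingular x1 ((y1 - 1) / 2) := by
      rw [nonsing_iff]
      have h4 : (4 : K) ≠ 0 := by norm_num
      refine mul_left_cancel₀ h4 ?_
      linear_combination h1 + (2 * ((y1 - 1) / 2) + 1 + y1) * hyQ
    obtain ⟨h', hh⟩ := dbl_point K x1 ((y1 - 1) / 2) x y hQ (by rw [hyQ]; exact hy10) h2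
      (by rw [hyQ]; exact h3)
    exact ⟨WeierstrassCurve.Affine.Point.some _ _ hQ, hh.symm⟩

theorem E_fin_oddT (K : Type) [Field K] [NumberField K] [Algebra F K] (hG : IsGalois F K)
    (k : ℕ) (hk : Module.finrank F K = 2 ^ k) (hU : UnrG K) (hU2 : UnrTwo K)
    (h3K : ∀ w : HeightOneSpectrum (𝓞 K), (3 : 𝓞 K) ∈ w.asIdeal →
      ∃ e : ℕ, ¬ 3 ∣ e ∧ w.valuation K (3 : K) = WithZero.exp (-(e : ℤ))) :
    Finite (E27.baseChange K).toAffine.Point ∧ Odd (Nat.card (E27.baseChange K).toAffine.Point) := by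
  classical
  have htors : ∀ P : (E27.baseChange K).toAffine.Point, IsOfFinAddOrder P := by
    intro P
    refine tors_of_div K P fun n => ?_
    induction n with
    | zero => exact ⟨P, by simp⟩
    | succ n ih =>
      obtain ⟨Q, hQ⟩ := ih
      obtain ⟨Q', hQ'⟩ := E_divT K hG k hk hU hU2 h3K Q
      refine ⟨Q', ?_⟩
      rw [hQ, hQ', smul_smul, ← pow_succ]
  have h := finite_tors K
  have hfin : Finite (E27.baseChange K).toAffine.Point := Finite.of_injective
    (fun P : (E27.baseChange K).toAffine.Point =>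
      (⟨P, htors P⟩ : {P : (E27.baseChange K).toAffine.Point // IsOfFinAddOrder P}))
    fun P Q hPQ => congrArg Subtype.val hPQ
  refine ⟨hfin, ?_⟩
  by_contra hodd
  rw [Nat.not_odd_iff_even] at hodd
  haveI : Fact (Nat.Prime 2) := ⟨Nat.prime_two⟩
  obtain ⟨P, hP⟩ := exists_prime_addOrderOf_dvd_card' 2 hodd.two_dvd
  have h1 : (2 : ℕ) • P = 0 := by
    have h2 := addOrderOf_nsmul_eq_zero P
    rwa [hP] at h2
  have h2 := no_two K k hk P h1
  rw [h2, addOrderOf_zero] at hP
  omega

end H19Z
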