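import Mathlib
import Pool.Agent.Lib.H19Z.A4
import Pool.Agent.Lib.H55N.DS0

open NumberField IsDedekindDomain

namespace H19Z

open H55B H55C H55E H19X

variable {K M L N : Type} [Field K] [NumberField K] [Algebra F K] [Field M] [NumberField M]
  [Algebra F M] [Field L] [NumberField L] [Algebra L M] [Field N] [NumberField N] [Algebra K N]
  [Algebra M N] {θ : M} {t : L} {τ σ : M ≃+* M} {T : N ≃+* N} {act : (K ≃ₐ[F] K) → (N ≃+* N)}

theorem sel_condT (C : Comp K M L N θ t τ σ T act) (hU2 : UnrTwo K)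
    (h3K : ∀ w : HeightOneSpectrum (𝓞 K), (3 : 𝓞 K) ∈ w.asIdeal →
      ∃ e : ℕ, ¬ 3 ∣ e ∧ w.valuation K (3 : K) = WithZero.exp (-(e : ℤ)))
    (φ : Cub K ≃+* N)
    (hφ : ∀ x : K, φ (AdjoinRoot.of _ x) = algebraMap K N x)
    (hφr : φ (AdjoinRoot.root _) = algebraMap M N θ) (m : Cub K) (hm : m ∈ Sel K) :
    Cond K N (algebraMap M N θ) T (φ m) := by
  have hcube := A18_cube C
  have hne : φ m ≠ 0 := (hm.1.map φ).ne_zero
  have htwo : ∀ P : HeightOneSpectrum (𝓞 N), (2 : 𝓞 N) ∈ P.asIdeal →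
      ∃ b : N, b ≠ 0 ∧ P.valuation N (φ m / b ^ 2 - 1) ≤ P.valuation N (algebraMap M N θ ^ 2) := by
    intro P h2P
    obtain ⟨w, ι, e, hw, he, hι, hv, x, Y, β, hY, hY0, hβ⟩ := A18_loc C φ hφ hφr m hm P
    have hw2 : w.valuation K (2 : K) = WithZero.exp (-1 : ℤ) :=
      hU2 w (A18_under P w hw 2 h2P)
    have hcubeP : algebraMap N (P.adicCompletion N) (algebraMap M N θ) ^ 3 = 2 := by
      rw [← map_pow, hcube, map_ofNat]
    have hv2 : Valued.v (2 : P.adicCompletion N) < 1 := by
      rw [A18_valued_ofNat P 2]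
      exact (A18_val_lt P 2).2 h2P
    have hv20 : Valued.v (2 : P.adicCompletion N) ≠ 0 := by
      rw [A18_valued_ofNat P 2]
      exact (Valuation.ne_zero_iff _).2 two_ne_zero
    have hK : ∀ z : w.adicCompletion K, Valued.v (ι z) < 1 →
        Valued.v (ι z) ≤ Valued.v (2 : P.adicCompletion N) := by
      intro z hz
      have e1 : Valued.v (2 : P.adicCompletion N) = Valued.v (2 : w.adicCompletion K) ^ e := by
        have e2 : ι (2 : w.adicCompletion K) = 2 := map_ofNat ι 2
        rw [← hv, e2]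
      rw [e1, hv]
      rw [hv] at hz
      exact A18_le he ((A18_valued_ofNat w 2).trans hw2) hz
    obtain ⟨b₂, hb0, hb2⟩ := @loc2 (w.adicCompletion K) (P.adicCompletion N) _ _ ι.toAlgebra
      Valued.v (algebraMap N (P.adicCompletion N) (algebraMap M N θ)) hcubeP hv20 hv2 hK x Y hY hY0
    change Valued.v (2 * (2 * ι x + algebraMap N (P.adicCompletion N) (algebraMap M N θ)) / b₂ ^ 2 - 1) ≤
      Valued.v (algebraMap N (P.adicCompletion N) (algebraMap M N θ) ^ 2) at hb2
    set g : P.adicCompletion N :=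
      2 * (2 * ι x + algebraMap N (P.adicCompletion N) (algebraMap M N θ)) with hg
    set ρ := Valued.v (algebraMap N (P.adicCompletion N) (algebraMap M N θ) ^ 2) with hρ
    have hρ1 : ρ < 1 := by
      rw [hρ, map_pow]
      exact pow_lt_one₀ zero_le (A18_val_theta Valued.v hcubeP hv2) two_ne_zero
    have hθ0 : algebraMap N (P.adicCompletion N) (algebraMap M N θ) ≠ 0 := by
      intro h0
      rw [h0] at hcubeP
      have : (2 : P.adicCompletion N) = 0 := by rw [← hcubeP]; ring
      rw [this, map_zero] at hv20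
      exact hv20 rfl
    have hρ0 : ρ ≠ 0 := (Valuation.ne_zero_iff _).2 (pow_ne_zero 2 hθ0)
    have hg1 := A18_v_one Valued.v hρ1 hb2
    have hg0 : g ≠ 0 := by
      intro h0
      rw [h0, zero_div, map_zero] at hg1
      exact zero_ne_one hg1
    have hm0 : algebraMap N (P.adicCompletion N) (φ m) ≠ 0 := by
      rw [Ne, map_eq_zero]
      exact hne
    have hβ0 : β ≠ 0 := by
      intro h0
      rw [h0, zero_pow two_ne_zero] at hβ
      exact mul_ne_zero hm0 hg0 hβ
    have hc0 : β / b₂ ≠ 0 := div_ne_zero hβ0 hb0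
    have hvc : Valued.v (β / b₂) ≠ 0 := (Valuation.ne_zero_iff _).2 hc0
    obtain ⟨b, hb⟩ := exists_approx N P (β / b₂) (Valued.v (β / b₂) * ρ) (mul_ne_zero hvc hρ0)
    have hu2 : Valued.v (algebraMap N (P.adicCompletion N) b / (β / b₂) - 1) ≤ ρ := by
      have e1 : algebraMap N (P.adicCompletion N) b / (β / b₂) - 1 =
          -((β / b₂ - algebraMap N (P.adicCompletion N) b) / (β / b₂)) := by
        rw [sub_div, div_self hc0]
        ring
      rw [e1, Valuation.map_neg, map_div₀]
      rw [div_le_iff₀ (zero_lt_iff.2 hvc), mul_comm]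
      exact hb.le
    have hu21 := A18_v_one Valued.v hρ1 hu2
    have hbP0 : algebraMap N (P.adicCompletion N) b ≠ 0 := by
      intro h0
      rw [h0, zero_div, map_zero] at hu21
      exact zero_ne_one hu21
    have hb0' : b ≠ 0 := by
      rintro rfl
      exact hbP0 (map_zero _)
    refine ⟨b, hb0', ?_⟩
    have hfin : Valued.v (algebraMap N (P.adicCompletion N) (φ m) /
        algebraMap N (P.adicCompletion N) b ^ 2 - 1) ≤ ρ := by
      have e1 : algebraMap N (P.adicCompletion N) (φ m) / algebraMap N (P.adicCompletion N) b ^ 2 =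
          (g / b₂ ^ 2)⁻¹ * ((algebraMap N (P.adicCompletion N) b / (β / b₂))⁻¹ *
            (algebraMap N (P.adicCompletion N) b / (β / b₂))⁻¹) := by
        have e2 : algebraMap N (P.adicCompletion N) (φ m) = β ^ 2 / g := by
          rw [eq_div_iff hg0]
          exact hβ
        rw [e2]
        field_simp
      rw [e1]
      exact A18_U_mul Valued.v hρ1 (A18_U_inv Valued.v hρ1 hb2)
        (A18_U_mul Valued.v hρ1 (A18_U_inv Valued.v hρ1 hu2) (A18_U_inv Valued.v hρ1 hu2))
    rw [← valued_alg, ← valued_alg, map_sub, map_div₀, map_pow, map_pow, map_one]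
    exact hfin
  have hnorm : ∃ n : K, n ≠ 0 ∧ φ m * T (φ m) * T (T (φ m)) = algebraMap K N n ^ 2 := by
    obtain ⟨n, hn⟩ := hm.2.1
    obtain ⟨a, b, c, hm1, hm2⟩ := A18_repr C φ hφ hφr m
    have h1 : φ m * T (φ m) * T (T (φ m)) = algebraMap K N n ^ 2 := by
      rw [hm2, A18_norm_T C, ← map_pow, ← hn, hm1, A18_norm]
    refine ⟨n, ?_, h1⟩
    rintro rfl
    rw [map_zero, zero_pow two_ne_zero] at h1
    have h2 : T (φ m) ≠ 0 := by
      rw [Ne, map_eq_zero_iff T T.injective]
      exact hne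
    have h3 : T (T (φ m)) ≠ 0 := by
      rw [Ne, map_eq_zero_iff T T.injective]
      exact h2
    exact mul_ne_zero (mul_ne_zero hne h2) h3 h1
  refine ⟨hne, hnorm, ?_, htwo⟩
  · intro P
    by_cases h2P : (2 : 𝓞 N) ∈ P.asIdeal
    · obtain ⟨b, hb0, hb⟩ := htwo P h2P
      exact A18_even_of_two (P.valuation N)
        (A18_val_theta (P.valuation N) hcube ((A18_val_lt P 2).2 h2P)) hb0 hb
    · by_cases h3P : (3 : 𝓞 N) ∈ P.asIdeal
      · obtain ⟨n, -, hn⟩ := hnorm
        exact even3N C h3K (comp_no_cube C) P h3P _ hne n hn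
      obtain ⟨w, ι, e, hw, he, hι, hv, x, Y, β, hY, hY0, hβ⟩ := A18_loc C φ hφ hφr m hm P
      have hcubeP : algebraMap N (P.adicCompletion N) (algebraMap M N θ) ^ 3 = 2 := by
        rw [← map_pow, hcube, map_ofNat]
      have hr : algebraMap K (w.adicCompletion K) (algebraMap O K om) ^ 2 +
          algebraMap K (w.adicCompletion K) (algebraMap O K om) + 1 = 0 := by
        have h := congrArg (algebraMap K (w.adicCompletion K)) (A18_om K)
        rwa [map_add, map_add, map_pow, map_one, map_zero] at h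
      have hgex : ∃ k : ℤ, Valued.v (2 * (2 * ι x +
          algebraMap N (P.adicCompletion N) (algebraMap M N θ))) = WithZero.exp (2 * k) := by
        have hv2 : Valued.v (2 : P.adicCompletion N) = 1 := by
          rw [A18_valued_ofNat P 2]
          exact A18_val_eq P 2 h2P
        have hv3 : Valued.v (3 : P.adicCompletion N) = 1 := by
          rw [A18_valued_ofNat P 3]
          exact A18_val_eq P 3 h3P
        exact @loc1 (w.adicCompletion K) (P.adicCompletion N) _ _ ι.toAlgebra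
          Valued.v _ hr (algebraMap N (P.adicCompletion N) (algebraMap M N θ)) hcubeP hv2 hv3
          x Y hY hY0
      have hm0 : algebraMap N (P.adicCompletion N) (φ m) ≠ 0 := by
        rw [Ne, map_eq_zero]
        exact hne
      have hg0 : 2 * (2 * ι x + algebraMap N (P.adicCompletion N) (algebraMap M N θ)) ≠ 0 := by
        obtain ⟨k, hk⟩ := hgex
        intro h0
        rw [h0, map_zero] at hk
        exact WithZero.exp_ne_zero hk.symm
      rw [← valued_alg]
      exact A18_even_of_mul Valued.v hm0 hg0 hβ hgex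


theorem partAT (K : Type) [Field K] [NumberField K] [Algebra F K] (hG : IsGalois F K)
    (k : ℕ) (hk : Module.finrank F K = 2 ^ k) (hU : UnrG K) (hU2 : UnrTwo K)
    (h3K : ∀ w : HeightOneSpectrum (𝓞 K), (3 : 𝓞 K) ∈ w.asIdeal →
      ∃ e : ℕ, ¬ 3 ∣ e ∧ w.valuation K (3 : K) = WithZero.exp (-(e : ℤ))) :
    (∀ m ∈ Sel K, ∃ b : Cub K, m = b ^ 2) ∧ Finite (E27.baseChange K).toAffine.Point ∧
      Odd (Nat.card (E27.baseChange K).toAffine.Point) := by
  refine ⟨?_, E_fin_oddT K hG k hk hU hU2 h3K⟩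
  intro m hm
  obtain ⟨M, _, _, _, L, _, _, _, N, _, _, _, _, θ, t, τ, σ, T, act, φ, C, hφ, hφr⟩ :=
    exists_comp K k hk
  obtain ⟨b, hb⟩ := cond_trivialT C hG k hk hU hU2 (φ m) (sel_condT C hU2 h3K φ hφ hφr m hm)
  refine ⟨φ.symm b, ?_⟩
  rw [← map_pow, ← hb, RingEquiv.symm_apply_apply]



theorem UnrG.unrT {K : Type} [Field K] [NumberField K] [Algebra F K] (hU : UnrG K) : UnrT K := by
  intro w h2
  refine hU w (I2_under w) rfl ?_ ?_
  · intro hg
    apply hg.1
    show algebraMap O (𝓞 K) 2 ∈ w.asIdeal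
    rw [map_ofNat]
    exact h2
  · intro h3
    have h4 : algebraMap O (𝓞 K) 3 ∈ w.asIdeal := h3
    rw [map_ofNat] at h4
    apply w.isPrime.ne_top
    rw [Ideal.eq_top_iff_one]
    have h1 : (1 : 𝓞 K) = 3 - 2 := by norm_num
    rw [h1]
    exact w.asIdeal.sub_mem h4 h2

theorem SubG.subT {K : Type} [Field K] [NumberField K] [Algebra F K] (h : SubG K) : SubT K := by
  obtain ⟨L, i1, i2, i3, i4, i5, hT, hU⟩ := h
  exact ⟨L, i1, i2, i3, i4, i5, hT, hU.unrT⟩

theorem selTwo_subT (K : Type) [Field K] [NumberField K] [Algebra F K] (h : SubG K) : SelTwo K := by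
  obtain ⟨L, _, _, _, _, _, ⟨hG, k, hk⟩, hU⟩ := h
  have hGL : IsGalois K L := IsGalois.tower_top_of_isGalois F K L
  have hLT : SubT L := ⟨L, inferInstance, inferInstance, inferInstance, inferInstance, inferInstance,
    ⟨hG, k, hk⟩, hU.unrT⟩
  have hd1 : AdmD 1 := by
    refine ⟨squarefree_one, by norm_num, ?_⟩
    intro l hl h
    exfalso
    have h1 := Int.eq_one_of_dvd_one (Int.natCast_nonneg l) h
    exact hl.one_lt.ne' (by exact_mod_cast h1)
  have hH := hypF_of_subT hLT 1 hd1
  exact H55N.selTwo_desc K L (H55N.no_cbrt L k hk) (partAT L hG k hk hU hH.two hH.three)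

end H19Z
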