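import Mathlib
import Pool.Agent.Lib.H19Z.T1

/-! Subfields of Galois extensions of the rationals of 2-power degree unramified above 2. -/

open NumberField IsDedekindDomain

namespace H19Z

open H55B H55C H55E H55D H19X

/-- K is unramified over the rationals at 2. -/
def UnrTwoQ (K : Type) [Field K] [NumberField K] : Prop :=
  ∀ w : HeightOneSpectrum (𝓞 K), (2 : 𝓞 K) ∈ w.asIdeal → w.asIdeal.ramificationIdx ℤ = 1

/-- K is contained in a Galois extension of the rationals of 2-power degree unramified at 2. -/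
def SubQ2 (K : Type) [Field K] [NumberField K] : Prop :=
  ∃ (L : Type) (_ : Field L) (_ : NumberField L) (_ : Algebra K L),
    IsGalois ℚ L ∧ (∃ k : ℕ, Module.finrank ℚ L = 2 ^ k) ∧ UnrTwoQ L

theorem Q0_unr (K₀ E : Type) [Field K₀] [NumberField K₀] (hG : IsGalois ℚ K₀) (hU : UnrTwoQ K₀)
    [Field E] [NumberField E] [Algebra F E] [Algebra K₀ E] (hGE : IsGalois F E)
    (htop : IntermediateField.adjoin K₀ {X3_z E} = ⊤) : UnrT E := by
  have htow : IsScalarTower ℚ F E := IsScalarTower.of_algebraMap_eq' (Subsingleton.elim _ _)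
  have htow' : IsScalarTower ℚ K₀ E := IsScalarTower.of_algebraMap_eq' (Subsingleton.elim _ _)
  intro w h2
  rw [inertia_iff w]
  intro g hg
  let g' : E ≃ₐ[ℚ] E := g.restrictScalars ℚ
  let g₀ : K₀ ≃ₐ[ℚ] K₀ := g'.restrictNormal K₀
  have hg₀ : ∀ x : K₀, algebraMap K₀ E (g₀ x) = g (algebraMap K₀ E x) := fun x =>
    AlgEquiv.restrictNormal_commutes g' K₀ x
  have hwp := w.isPrime
  have hp : (w.asIdeal.under (𝓞 K₀)).IsPrime := inferInstance
  have hne : w.asIdeal.under (𝓞 K₀) ≠ ⊥ := by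
    intro h
    exact w.ne_bot (Ideal.eq_bot_of_comap_eq_bot (R := 𝓞 K₀) (I := w.asIdeal) h)
  let w₀ : HeightOneSpectrum (𝓞 K₀) := ⟨w.asIdeal.under (𝓞 K₀), hp, hne⟩
  have h1 : ∀ y : 𝓞 K₀, g₀ • y - y ∈ w₀.asIdeal := by
    intro y
    show algebraMap (𝓞 K₀) (𝓞 E) (g₀ • y - y) ∈ w.asIdeal
    have h2 : algebraMap (𝓞 K₀) (𝓞 E) (g₀ • y) = g • algebraMap (𝓞 K₀) (𝓞 E) y := by
      apply NumberField.RingOfIntegers.ext
      exact hg₀ _
    rw [map_sub, h2]
    exact hg _
  have hlw₀ : (2 : 𝓞 K₀) ∈ w₀.asIdeal := by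
    show algebraMap (𝓞 K₀) (𝓞 E) (2 : 𝓞 K₀) ∈ w.asIdeal
    rwa [map_ofNat]
  have hr := hU w₀ hlw₀
  have hg1 : g₀ = 1 := X3_inertia w₀ hr g₀ h1
  have hfix : ∀ x : K₀, g (algebraMap K₀ E x) = algebraMap K₀ E x := by
    intro x
    rw [← hg₀, hg1]
    rfl
  have hz : g (X3_z E) = X3_z E := g.commutes _
  ext x
  have hx : x ∈ IntermediateField.adjoin K₀ {X3_z E} := by
    rw [htop]
    exact IntermediateField.mem_top
  show g x = x
  refine IntermediateField.adjoin_induction K₀ (p := fun x _ => g x = x) ?_ hfix ?_ ?_ ?_ hx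
  · rintro x rfl
    exact hz
  · intro x y _ _ h1 h2
    rw [map_add, h1, h2]
  · intro x _ h1
    rw [map_inv₀, h1]
  · intro x y _ _ h1 h2
    rw [map_mul, h1, h2]

theorem of_ratT (K₀ : Type) [Field K₀] [NumberField K₀] (hG : IsGalois ℚ K₀) (k : ℕ)
    (hk : Module.finrank ℚ K₀ = 2 ^ k) (hU : UnrTwoQ K₀) :
    ∃ (K : Type) (_ : Field K) (_ : NumberField K) (_ : Algebra F K) (_ : Algebra K₀ K),
      TwoExt K ∧ UnrT K := by
  classical
  let φ : F →ₐ[ℚ] AlgebraicClosure K₀ := IsAlgClosed.lift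
  let _ : Algebra F (AlgebraicClosure K₀) := φ.toRingHom.toAlgebra
  have hz := X3_z_root (AlgebraicClosure K₀)
  let E : IntermediateField K₀ (AlgebraicClosure K₀) :=
    IntermediateField.adjoin K₀ {X3_z (AlgebraicClosure K₀)}
  have hmem : X3_z (AlgebraicClosure K₀) ∈ E := IntermediateField.mem_adjoin_simple_self K₀ _
  have hint : ∀ x ∈ ({X3_z (AlgebraicClosure K₀)} : Set (AlgebraicClosure K₀)),
      IsIntegral K₀ x := by
    intro x _
    exact (Algebra.IsAlgebraic.isAlgebraic x).isIntegral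
  have hEfin : FiniteDimensional K₀ E := IntermediateField.finiteDimensional_adjoin hint
  have hnf : NumberField E := NumberField.of_module_finite K₀ E
  let ψ : F →+* E := (algebraMap F (AlgebraicClosure K₀)).codRestrict E
    (X3_range K₀ (AlgebraicClosure K₀) E hmem)
  let hFE : Algebra F E := ψ.toAlgebra
  have htow : IsScalarTower ℚ F E := IsScalarTower.of_algebraMap_eq' (Subsingleton.elim _ _)
  have htow' : IsScalarTower ℚ K₀ E := IsScalarTower.of_algebraMap_eq' (Subsingleton.elim _ _)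
  have hzE : ((X3_z E : E) : AlgebraicClosure K₀) = X3_z (AlgebraicClosure K₀) := rfl
  have hrank : Module.finrank K₀ E = 1 ∨ Module.finrank K₀ E = 2 := by
    by_cases hno : ∀ x : K₀, x ^ 2 + x + 1 ≠ 0
    · exact Or.inr (X3_rank K₀ _ _ hz hno)
    · left
      push Not at hno
      obtain ⟨ζ, hζ⟩ := hno
      rw [IntermediateField.finrank_eq_one_iff, IntermediateField.adjoin_simple_eq_bot_iff,
        IntermediateField.mem_bot]
      have h1 : (algebraMap K₀ (AlgebraicClosure K₀) ζ) ^ 2 +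
          algebraMap K₀ (AlgebraicClosure K₀) ζ + 1 = 0 := by
        have h := congrArg (algebraMap K₀ (AlgebraicClosure K₀)) hζ
        simpa only [map_add, map_pow, map_one, map_zero] using h
      have h2 : (X3_z (AlgebraicClosure K₀) - algebraMap K₀ (AlgebraicClosure K₀) ζ) *
          (X3_z (AlgebraicClosure K₀) + algebraMap K₀ (AlgebraicClosure K₀) ζ + 1) = 0 := by
        linear_combination hz - h1
      rcases mul_eq_zero.1 h2 with h | h
      · exact ⟨ζ, (sub_eq_zero.1 h).symm⟩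
      · refine ⟨-ζ - 1, ?_⟩
        rw [map_sub, map_neg, map_one]
        linear_combination -h
  have hN : Normal ℚ E := X3_normal K₀ hG _ hz
  have hGQ : IsGalois ℚ E := { to_normal := hN }
  have hGF : IsGalois F E := IsGalois.tower_top_of_isGalois ℚ F E
  have htop : IntermediateField.adjoin K₀ {X3_z E} = ⊤ := by
    have h1 : IntermediateField.map E.val (IntermediateField.adjoin K₀ {X3_z E}) =
        IntermediateField.map E.val ⊤ := by
      rw [IntermediateField.adjoin_map, Set.image_singleton]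
      show IntermediateField.adjoin K₀ {X3_z (AlgebraicClosure K₀)} = _
      rw [← AlgHom.fieldRange_eq_map, IntermediateField.fieldRange_val]
    exact IntermediateField.map_injective E.val h1
  refine ⟨E, inferInstance, hnf, hFE, inferInstance, ⟨hGF, ?_⟩, Q0_unr K₀ E hG hU hGF htop⟩
  have h1 := Module.finrank_mul_finrank ℚ F E
  have h2 := Module.finrank_mul_finrank ℚ K₀ E
  rw [X3_finrank] at h1
  rw [hk] at h2
  have h3 : Module.finrank F E ∣ 2 ^ (k + 1) := by
    rw [pow_succ]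
    rcases hrank with h | h
    · rw [h, mul_one] at h2
      exact ⟨2 * 2, by rw [h2, ← h1]; ring⟩
    · rw [h] at h2
      exact ⟨2, by rw [h2, ← h1]; ring⟩
  obtain ⟨j, -, hj⟩ := (Nat.dvd_prime_pow Nat.prime_two).1 h3
  exact ⟨j, hj⟩

theorem clsT_of_subQ2 (K : Type) [Field K] [NumberField K] (h : SubQ2 K) : ClsT K := by
  obtain ⟨L, _, _, _, hG, ⟨k, hk⟩, hU⟩ := h
  obtain ⟨E, i1, i2, i3, i4, hT, hUE⟩ := of_ratT L hG k hk hU
  exact ⟨E, i1, i2, i3, ((algebraMap L E).comp (algebraMap K L)).toAlgebra, hT, hUE⟩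

end H19Z
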