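import Mathlib
import Pool.Agent.Lib.H19Z.T1
import Pool.Agent.Lib.H19X.T2

open NumberField IsDedekindDomain

namespace H19Z

open H55B H55C H55E H19X

/-! Copy of the induction over the tower of quadratic extensions (H19X.T2). -/

theorem Z2_ind (d : ℤ) : ∀ (k : ℕ) (K : Type) [Field K] [NumberField K] [Algebra F K],
    SubT K → Module.finrank F K = 2 ^ k → ∀ (w : HeightOneSpectrum (𝓞 K)), (6 : 𝓞 K) ∉ w.asIdeal →
    (∃ x : 𝓞 K, x ^ 3 - 2 ∈ w.asIdeal) → w.asIdeal.ramificationIdx O ≠ 1 →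
    ∃ (N : Type) (_ : Field N) (_ : NumberField N) (_ : Algebra K N) (φ : Cub K ≃ₐ[K] N) (m : N),
      Cnd d K N (th φ) m ∧ ¬ ∃ b : N, m = b ^ 2 := by
  intro k
  induction k with
  | zero =>
    intro K _ _ _ hS hk w h6 hx he
    exfalso
    apply he
    have hwp := w.isPrime
    have hle := T2_le (K1 := F) w
    have hep := w.asIdeal.ramificationIdx_pos O
    have hfp := w.asIdeal.inertiaDeg_pos O
    rw [hk] at hle
    nlinarith
  | succ k ih =>
    intro K _ _ _ hS hk w h6 hx he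
    have h1 : 1 < Module.finrank F K := by
      rw [hk]
      exact Nat.one_lt_two_pow (by omega)
    obtain ⟨K1, i1, i2, i3, i4, i5, hS1, h2⟩ := exists_subT K hS h1
    have hk1 : Module.finrank F K1 = 2 ^ k := by
      have h := Module.finrank_mul_finrank F K1 K
      rw [h2, hk, pow_succ] at h
      omega
    have hwp := w.isPrime
    have hp : (w.asIdeal.under (𝓞 K1)).IsPrime := inferInstance
    have hne : w.asIdeal.under (𝓞 K1) ≠ ⊥ := by
      intro h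
      exact w.ne_bot (Ideal.eq_bot_of_comap_eq_bot (R := 𝓞 K1) (I := w.asIdeal) h)
    obtain ⟨w1, hw⟩ : ∃ w1 : HeightOneSpectrum (𝓞 K1), w1.asIdeal = w.asIdeal.under (𝓞 K1) :=
      ⟨⟨w.asIdeal.under (𝓞 K1), hp, hne⟩, rfl⟩
    have hl : w.asIdeal.LiesOver w1.asIdeal := ⟨hw⟩
    obtain ⟨x, hx⟩ := hx
    obtain ⟨y, hy⟩ := cube_down h2 w w1 hw x hx
    have h61 : (6 : 𝓞 K1) ∉ w1.asIdeal := by
      rw [hw, Ideal.mem_under, map_ofNat]
      exact h6
    have htow : w.asIdeal.ramificationIdx O =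
        w1.asIdeal.ramificationIdx O * w.asIdeal.ramificationIdx (𝓞 K1) :=
      Ideal.ramificationIdx_tower w1.asIdeal w.asIdeal
    obtain ⟨N, j1, j2, j3, ⟨φ⟩⟩ := exists_N K (subT_no_cube hS)
    by_cases he1 : w.asIdeal.ramificationIdx (𝓞 K1) = 1
    · rw [he1, mul_one] at htow
      obtain ⟨N1, l1, l2, l3, φ1, m, hm, hns⟩ := ih K1 hS1 hk1 w1 h61 ⟨y, hy⟩ (by
        rw [← htow]; exact he)
      have h := cnd_mono φ1 φ h2 d m hm hns
      exact ⟨N, j1, j2, j3, φ, _, h⟩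
    · obtain ⟨N1, l1, l2, l3, ⟨φ1⟩⟩ := exists_N K1 (subT_no_cube hS1)
      have hd1 : AdmD 1 := by
        refine ⟨squarefree_one, by norm_num, ?_⟩
        intro l hl h
        exfalso
        have h1 := Int.eq_one_of_dvd_one (Int.natCast_nonneg l) h
        exact hl.one_lt.ne' (by exact_mod_cast h1)
      obtain ⟨z, hz, hzs, ⟨n, hn⟩, hzv, hzt⟩ := exists_z φ1 (hypF_of_subT hS1 1 hd1).two w1 h61 y hy
      have h := cnd_up φ1 φ h2 w1 w hw he1 d z hz hzs n hn hzv hzt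
      exact ⟨N, j1, j2, j3, φ, _, h⟩

theorem exists_cnd_FT (K : Type) [Field K] [NumberField K] [Algebra F K] (hS : SubT K) (d : ℤ)
    (w : HeightOneSpectrum (𝓞 K)) (h6 : (6 : 𝓞 K) ∉ w.asIdeal) (x : 𝓞 K)
    (hx : x ^ 3 - 2 ∈ w.asIdeal) (he : w.asIdeal.ramificationIdx O ≠ 1) :
    ∃ (N : Type) (_ : Field N) (_ : NumberField N) (_ : Algebra K N) (φ : Cub K ≃ₐ[K] N) (m : N),
      Cnd d K N (th φ) m ∧ ¬ ∃ b : N, m = b ^ 2 := by
  obtain ⟨k, hk⟩ := subT_rank hS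
  exact Z2_ind d k K hS hk w h6 ⟨x, hx⟩ he

end H19Z
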