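import Mathlib
import Pool.Agent.Lib.H19X.Q1
import Pool.Agent.Lib.H19X.Q4
import Pool.Agent.Lib.H19X.Sel
import Pool.Agent.Lib.H19X.T4
import Pool.Agent.Lib.H19Z.T2
import Pool.Agent.Lib.H19Z.T3

open NumberField IsDedekindDomain

namespace H19Z

open H55B H55C H55E H19X

theorem goodRamT_of_sel_F (K : Type) [Field K] [NumberField K] [Algebra F K] (hS : SubT K) (d : ℤ)
    (hd : AdmD d) (hs : ∀ m ∈ Seld d K, ∃ b : Cub K, m = b ^ 2) : GoodRam K := by
  intro w h6 hx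
  obtain ⟨x, hx⟩ := hx
  by_contra he
  have h3 : (3 : 𝓞 K) ∉ w.asIdeal := by
    intro h
    apply h6
    have : (6 : 𝓞 K) = 2 * 3 := by norm_num
    rw [this]
    exact w.asIdeal.mul_mem_left _ h
  have he' : w.asIdeal.ramificationIdx O ≠ 1 := fun h => he ((e_iff w h3).2 h)
  obtain ⟨N, i1, i2, i3, φ, m, hm, hns⟩ := exists_cnd_FT K hS d w h6 x hx he'
  obtain ⟨b, hb⟩ := hs _ (sel_of_cnd φ d hd (hypF_of_subT hS d hd) m hm)
  apply hns
  refine ⟨φ b, ?_⟩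
  rw [← map_pow, ← hb, AlgEquiv.apply_symm_apply]

theorem goodRamT_of_sel_0 (K₀ K : Type) [Field K₀] [NumberField K₀] [Field K] [NumberField K]
    [Algebra F K] [Algebra K₀ K] (hQ : H13E.Quad K₀ K) (hS : SubT K) (d : ℤ)
    (hd : AdmD d) (hs : ∀ m ∈ Seld d K₀, ∃ b : Cub K₀, m = b ^ 2) : GoodRam K₀ := by
  apply bad_up hQ
  intro w h6 hx
  obtain ⟨x, hx⟩ := hx
  by_contra he
  have h3 : (3 : 𝓞 K) ∉ w.asIdeal := by
    intro h
    apply h6
    have : (6 : 𝓞 K) = 2 * 3 := by norm_num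
    rw [this]
    exact w.asIdeal.mul_mem_left _ h
  have he' : w.asIdeal.ramificationIdx O ≠ 1 := fun h => he ((e_iff w h3).2 h)
  obtain ⟨N, i1, i2, i3, φ, m, hm, hns⟩ := exists_cnd_FT K hS d w h6 x hx he'
  have hno : ¬ ∃ x : K₀, x ^ 3 = 2 := by
    rintro ⟨y, hy⟩
    apply subT_no_cube hS
    exact ⟨algebraMap K₀ K y, by rw [← map_pow, hy, map_ofNat]⟩
  obtain ⟨N₀, j1, j2, j3, ⟨φ₀⟩⟩ := exists_N K₀ hno
  obtain ⟨ι, cK, c, S⟩ := exists_sq φ₀ φ hQ
  obtain ⟨m0, h0, hns0, n, hn⟩ := desc S d m hm hns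
  have hK := hypF_of_subT hS d hd
  have hc := cnd_desc hQ S hK.two d m0 h0 n hn
  obtain ⟨b, hb⟩ := hs _ (sel_of_cnd0 hQ S d hd hK m0 hc)
  apply hns0
  refine ⟨φ₀ b, ?_⟩
  rw [← map_pow, ← hb, AlgEquiv.apply_symm_apply]

/-- The algebraic half of the exact criterion. -/
theorem sel_iffT (K : Type) [Field K] [NumberField K] (hK : ClsT K) (d : ℤ) (hd : AdmD d) :
    (∀ m ∈ Seld d K, ∃ b : Cub K, m = b ^ 2) → GoodRam K := by
  intro hs
  rcases clsT_cases K hK with ⟨i, hS⟩ | ⟨K₁, i1, i2, i3, i4, hQ, hS⟩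
  · exact goodRamT_of_sel_F K hS d hd hs
  · exact goodRamT_of_sel_0 K K₁ hQ hS d hd hs

/-- A field of the class all whose ramified primes outside 6 are good. -/
theorem goodRam_cases (K : Type) [Field K] [NumberField K] (hK : ClsT K) (hg : GoodRam K) :
    (∃ _ : Algebra F K, SubT K ∧ SubG K) ∨
    ∃ (K₁ : Type) (_ : Field K₁) (_ : NumberField K₁) (_ : Algebra F K₁) (_ : Algebra K K₁),
      H13E.Quad K K₁ ∧ SubT K₁ ∧ SubG K₁ := by
  rcases clsT_cases K hK with ⟨i, hS⟩ | ⟨K₁, i1, i2, i3, i4, hQ, hS⟩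
  · exact Or.inl ⟨i, hS, subG_of_subT hS (fun w h6 hx => by
      have h3 : (3 : 𝓞 K) ∉ w.asIdeal := by
        intro h
        apply h6
        have : (6 : 𝓞 K) = 2 * 3 := by norm_num
        rw [this]
        exact w.asIdeal.mul_mem_left _ h
      exact (e_iff w h3).1 (hg w h6 hx))⟩
  · have hg1 := good_up hQ hg
    exact Or.inr ⟨K₁, i1, i2, i3, i4, hQ, hS, subG_of_subT hS (fun w h6 hx => by
      have h3 : (3 : 𝓞 K₁) ∉ w.asIdeal := by
        intro h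
        apply h6
        have : (6 : 𝓞 K₁) = 2 * 3 := by norm_num
        rw [this]
        exact w.asIdeal.mul_mem_left _ h
      exact (e_iff w h3).1 (hg1 w h6 hx))⟩

end H19Z
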