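import Mathlib
import Pool.Agent.Lib.H19Y.Y0
import Pool.Agent.Lib.H55C.A17
import Pool.Agent.Lib.H55E.L5
import Pool.Agent.Lib.H55E.T1

open NumberField IsDedekindDomain

namespace H19Z

open H55B H55C H55E H55N H19X H19Y

/-- The distance of a cube to 2 at a prime above 3 where the valuation of 3 is prime to 3. -/
theorem gap3 {k : Type*} [Field k] (v : Valuation k (WithZero (Multiplicative ℤ))) (e : ℕ)
    (he : ¬ 3 ∣ e) (h3 : v 3 = WithZero.exp (-(e : ℤ))) (r : k) : v 3 ≤ v (r ^ 3 - 2) := by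
  by_contra hlt
  push Not at hlt
  have he0 : 0 < e := by
    rcases Nat.eq_zero_or_pos e with h | h
    · exact absurd (h ▸ dvd_zero 3) he
    · exact h
  have h3lt : v 3 < 1 := by
    rw [h3, ← WithZero.exp_zero, WithZero.exp_lt_exp]
    have : (0 : ℤ) < e := by exact_mod_cast he0
    omega
  have h3pos : 0 < v 3 := by
    rw [h3]
    exact WithZero.exp_pos
  have h1 : v (r ^ 3 + 1) = v 3 := by
    have e1 : r ^ 3 + 1 = 3 + (r ^ 3 - 2) := by ring
    rw [e1]
    exact Valuation.map_add_eq_of_lt_left v hlt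
  set s : k := r + 1 with hs
  have e2 : r ^ 3 + 1 = s ^ 3 - 3 * (s ^ 2 - s) := by
    rw [hs]
    ring
  by_cases h : v s < 1
  · have h4 : v (3 * (s ^ 2 - s)) < v 3 := by
      rw [map_mul]
      have h5 : v (s ^ 2 - s) < 1 := by
        refine Valuation.map_sub_lt _ ?_ h
        rw [map_pow]
        exact pow_lt_one₀ zero_le h two_ne_zero
      calc v 3 * v (s ^ 2 - s) < v 3 * 1 := by
            exact (mul_lt_mul_iff_right₀ h3pos).2 h5
        _ = v 3 := mul_one _
    have h6 : v (s ^ 3) = v 3 := by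
      have e3 : s ^ 3 = (r ^ 3 + 1) + 3 * (s ^ 2 - s) := by rw [e2]; ring
      rw [e3, Valuation.map_add_eq_of_lt_left v (by rw [h1]; exact h4), h1]
    rw [map_pow, h3] at h6
    have hs0 : v s ≠ 0 := by
      intro h0
      rw [h0, zero_pow three_ne_zero] at h6
      exact WithZero.exp_ne_zero h6.symm
    rw [← WithZero.exp_log hs0, ← WithZero.exp_nsmul, WithZero.exp_inj] at h6
    simp only [nsmul_eq_mul] at h6
    push_cast at h6
    apply he
    have h7 : (3 : ℤ) ∣ (e : ℤ) := ⟨-WithZero.log (v s), by linear_combination h6⟩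
    exact_mod_cast h7
  · rw [not_lt] at h
    have hspos : 0 < v s := lt_of_lt_of_le zero_lt_one h
    have h4 : v (3 * (s ^ 2 - s)) < v (s ^ 3) := by
      rw [map_mul]
      have h5 : v (s ^ 2 - s) ≤ v s ^ 2 := by
        refine Valuation.map_sub_le _ (by rw [map_pow]) ?_
        rw [pow_two]
        exact le_mul_of_one_le_left' h
      calc v 3 * v (s ^ 2 - s) ≤ v 3 * v s ^ 2 := mul_le_mul' le_rfl h5
        _ < 1 * v s ^ 2 := by
            exact (mul_lt_mul_iff_left₀ (pow_pos hspos 2)).2 h3lt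
        _ = v s ^ 2 := one_mul _
        _ ≤ v s ^ 3 := pow_le_pow_right₀ h (by norm_num)
        _ = v (s ^ 3) := (map_pow _ _ _).symm
    have h6 : v (r ^ 3 + 1) = v s ^ 3 := by
      rw [e2, Valuation.map_sub_eq_of_lt_left v h4, map_pow]
    rw [h1] at h6
    have h7 : 1 ≤ v s ^ 3 := one_le_pow₀ h
    rw [← h6] at h7
    exact absurd h3lt (not_lt.2 h7)

/-- The distance of a cube to 2 at a prime modulo which 2 is not a cube. -/
theorem gapd {K : Type} [Field K] [NumberField K] (w : HeightOneSpectrum (𝓞 K))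
    (hno : ¬ ∃ u : 𝓞 K, u ^ 3 - 2 ∈ w.asIdeal) (r : w.adicCompletion K) :
    1 ≤ Valued.v (r ^ 3 - 2) := by
  have h2 : Valued.v (2 : w.adicCompletion K) ≤ 1 := by
    have e : (2 : w.adicCompletion K) = 1 + 1 := by norm_num
    rw [e]
    exact (Valuation.map_add _ _ _).trans (by rw [map_one, max_self])
  by_cases h : Valued.v r ≤ 1
  · by_contra hlt
    push Not at hlt
    obtain ⟨u, hu⟩ := ET1_approx w r h
    apply hno
    refine ⟨u, ?_⟩
    rw [← HeightOneSpectrum.valuation_lt_one_iff_mem (K := K), ← valued_alg]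
    obtain ⟨A, hA⟩ : ∃ A, A = algebraMap K (w.adicCompletion K) (algebraMap (𝓞 K) K u) := ⟨_, rfl⟩
    have hA1 : Valued.v A ≤ 1 := by
      rw [hA, valued_alg]
      exact w.valuation_le_one _
    have hu' : Valued.v (A - r) < 1 := by
      rw [hA]
      exact hu
    have e1 : algebraMap K (w.adicCompletion K) (algebraMap (𝓞 K) K (u ^ 3 - 2)) =
        (A - r) * (A ^ 2 + A * r + r ^ 2) + (r ^ 3 - 2) := by
      rw [map_sub, map_sub, map_pow, map_pow, map_ofNat, map_ofNat, ← hA]
      ring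
    rw [e1]
    refine Valuation.map_add_lt _ ?_ hlt
    rw [map_mul]
    have h5 : Valued.v (A ^ 2 + A * r + r ^ 2) ≤ 1 := by
      refine Valuation.map_add_le _ (Valuation.map_add_le _ ?_ ?_) ?_
      · rw [map_pow]; exact pow_le_one' hA1 2
      · rw [map_mul]; exact mul_le_one' hA1 h
      · rw [map_pow]; exact pow_le_one' h 2
    calc Valued.v (A - r) * Valued.v (A ^ 2 + A * r + r ^ 2) ≤ Valued.v (A - r) * 1 :=
          mul_le_mul' le_rfl h5
      _ = Valued.v (A - r) := mul_one _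
      _ < 1 := hu'
  · rw [not_le] at h
    have h3 : 1 < Valued.v r ^ 3 := one_lt_pow₀ h (by norm_num)
    have h4 : Valued.v (r ^ 3 - 2) = Valued.v r ^ 3 := by
      rw [Valuation.map_sub_eq_of_lt_left _ (by rw [map_pow]; exact lt_of_le_of_lt h2 h3), map_pow]
    rw [h4]
    exact h3.le

/-- The bad Euler factor at primes above 3 where the valuation of 3 is prime to 3. -/
theorem bad3_local (R : Type*) [CommRing R] [IsDomain R] [IsDiscreteValuationRing R] (K : Type*)
    [Field K] [Algebra R K] [IsFractionRing R K] (d a : K) (ha : 1 + 4 * a = d ^ 3) (e : ℕ)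
    (he : ¬ 3 ∣ e)
    (h3 : (IsDiscreteValuationRing.maximalIdeal R).valuation K 3 = WithZero.exp (-(e : ℤ)))
    (h2 : (IsDiscreteValuationRing.maximalIdeal R).valuation K 2 = 1)
    (hd : (IsDiscreteValuationRing.maximalIdeal R).valuation K d = 1) :
    (⟨0, 0, 1, 0, a⟩ : WeierstrassCurve K).localPolynomial R = 1 := by
  obtain ⟨v, hv⟩ : ∃ v, v = (IsDiscreteValuationRing.maximalIdeal R).valuation K := ⟨_, rfl⟩
  rw [← hv] at h3 h2 hd
  set W : WeierstrassCurve K := ⟨0, 0, 1, 0, a⟩ with hW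
  obtain ⟨C, hC⟩ : ∃ C : WeierstrassCurve.VariableChange K, W.minimal R = C • W :=
    ⟨_, rfl⟩
  have he0 : 0 < e := by
    rcases Nat.eq_zero_or_pos e with h | h
    · exact absurd (h ▸ dvd_zero 3) he
    · exact h
  have h3lt : v 3 < 1 := by
    rw [h3, ← WithZero.exp_zero, WithZero.exp_lt_exp]
    have : (0 : ℤ) < e := by exact_mod_cast he0
    omega
  have h3pos : 0 < v 3 := by
    rw [h3]
    exact WithZero.exp_pos
  have hd0 : d ≠ 0 := by
    rintro rfl
    rw [map_zero] at hd
    exact zero_ne_one hd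
  have h20 : (2 : K) ≠ 0 := by
    intro h
    rw [h, map_zero] at h2
    exact zero_ne_one h2
  have hgood : ¬ (W.minimal R).HasGoodReduction R := by
    intro hg
    have h1 := hg.goodReduction
    have hint : v (W.minimal R).b₆ ≤ 1 := by
      have h5 := WeierstrassCurve.integralModel_b₆_eq R (W.minimal R)
      rw [← h5, hv]
      exact IsDedekindDomain.HeightOneSpectrum.valuation_le_one _ _
    rw [← hv, hC, WeierstrassCurve.variableChange_Δ, hW, L4_Δ, ha] at h1
    rw [hC, WeierstrassCurve.variableChange_b₆, hW] at hint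
    have e6 : (⟨0, 0, 1, 0, a⟩ : WeierstrassCurve K).b₆ = d ^ 3 := by
      rw [← ha]
      simp [WeierstrassCurve.b₆]
    have e4 : (⟨0, 0, 1, 0, a⟩ : WeierstrassCurve K).b₄ = 0 := by
      simp [WeierstrassCurve.b₄]
    have e2 : (⟨0, 0, 1, 0, a⟩ : WeierstrassCurve K).b₂ = 0 := by
      simp [WeierstrassCurve.b₂]
    rw [e6, e4, e2, mul_zero, mul_zero, add_zero, add_zero, Units.val_inv_eq_inv_val] at hint
    rw [Units.val_inv_eq_inv_val] at h1
    set u : K := (C.u : K) with hu
    set r : K := C.r with hr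
    have hu0 : u ≠ 0 := C.u.ne_zero
    have hvu0 : v u ≠ 0 := (Valuation.ne_zero_iff _).2 hu0
    have hvu : 0 < v u := zero_lt_iff.2 hvu0
    -- v(u)^12 = v(3)^3
    have h5 : v u ^ 12 = v 3 ^ 3 := by
      have e27 : (27 : K) = 3 ^ 3 := by norm_num
      rw [e27, map_mul, map_pow v u⁻¹, map_inv₀, Valuation.map_neg, map_mul, map_pow v 3,
        map_pow v (d ^ 3), map_pow v d, hd, one_pow, one_pow, mul_one, inv_pow] at h1
      exact (inv_mul_eq_one₀ (pow_ne_zero _ hvu0)).1 h1
    have h6 : v (d ^ 3 + 4 * r ^ 3) ≤ v u ^ 6 := by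
      rw [map_mul, map_pow v u⁻¹, map_inv₀, inv_pow] at hint
      have := (inv_mul_le_iff₀ (pow_pos hvu 6)).1 hint
      rwa [mul_one] at this
    have h7 : v (d ^ 3 + 4 * r ^ 3) < v 3 := by
      have h8 : v (d ^ 3 + 4 * r ^ 3) ^ 2 < v 3 ^ 2 := by
        calc v (d ^ 3 + 4 * r ^ 3) ^ 2 ≤ (v u ^ 6) ^ 2 := pow_le_pow_left₀ zero_le h6 2
          _ = v 3 ^ 3 := by rw [← pow_mul, h5]
          _ = v 3 ^ 2 * v 3 := pow_succ _ _
          _ < v 3 ^ 2 * 1 := by exact (mul_lt_mul_iff_right₀ (pow_pos h3pos 2)).2 h3lt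
          _ = v 3 ^ 2 := mul_one _
      exact lt_of_pow_lt_pow_left₀ 2 zero_le h8
    have h9 := gap3 v e he h3 (-(2 * r) / d)
    have h10 : v ((-(2 * r) / d) ^ 3 - 2) = v (d ^ 3 + 4 * r ^ 3) := by
      have e1 : (-(2 * r) / d) ^ 3 - 2 = -(2 * (d ^ 3 + 4 * r ^ 3) / d ^ 3) := by
        field_simp
        ring
      rw [e1, Valuation.map_neg, map_div₀, map_mul, map_pow v d, h2, hd, one_pow, div_one, one_mul]
    rw [h10] at h9
    exact absurd h7 (not_lt.2 h9)
  have hmult : ¬ (W.minimal R).HasMultiplicativeReduction R := by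
    intro hm
    have h1 := hm.multiplicativeReduction
    rw [hC, WeierstrassCurve.variableChange_c₄, hW, L4_c₄, mul_zero, map_zero] at h1
    exact zero_ne_one h1
  have hsplit : ¬ (W.minimal R).HasSplitMultiplicativeReduction R := fun hs =>
    hmult hs.toHasMultiplicativeReduction
  unfold WeierstrassCurve.localPolynomial
  rw [if_neg hgood, if_neg hsplit, if_neg hmult]

/-- The Euler factor at the primes above 3 is 1. -/
theorem LEFd_threeT (K : Type) [Field K] [NumberField K] (w : HeightOneSpectrum (𝓞 K))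
    (h : (3 : 𝓞 K) ∈ w.asIdeal) (d : ℤ) (hd : AdmD d)
    (hv : ∃ e : ℕ, ¬ 3 ∣ e ∧ w.valuation K (3 : K) = WithZero.exp (-(e : ℤ))) :
    LEFd d K w = 1 := by
  obtain ⟨e, he, h3⟩ := hv
  have hdm := L5_not w d hd h
  have hvd : w.valuation K (d : K) = 1 := by
    have h1 := L5_val w d hdm
    have h2 : (((d : ℤ) : 𝓞 K) : K) = (d : K) := map_intCast _ d
    rwa [h2] at h1
  have h2m : (2 : 𝓞 K) ∉ w.asIdeal := by
    intro hc
    apply w.isPrime.ne_top
    rw [Ideal.eq_top_iff_one]
    have h1 : (1 : 𝓞 K) = 3 - 2 := by norm_num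
    rw [h1]
    exact w.asIdeal.sub_mem h hc
  have hv2 : w.valuation K (2 : K) = 1 := by
    have h1 := L5_val w 2 h2m
    have h2 : (((2 : 𝓞 K)) : K) = (2 : K) := map_ofNat (algebraMap (𝓞 K) K) 2
    rwa [h2] at h1
  have hP : (((Ed d).baseChange K).baseChange (w.adicCompletion K)).localPolynomial
      (w.adicCompletionIntegers K) = 1 := by
    have hcurve : ((Ed d).baseChange K).baseChange (w.adicCompletion K) =
        ⟨0, 0, 1, 0, algebraMap K (w.adicCompletion K) (((d : K) ^ 3 - 1) / 4)⟩ := by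
      ext <;> simp [Ed, WeierstrassCurve.baseChange]
    rw [hcurve]
    apply bad3_local (w.adicCompletionIntegers K) (w.adicCompletion K)
      (algebraMap K (w.adicCompletion K) (d : K)) _ _ e he
    · rw [← map_ofNat (algebraMap K (w.adicCompletion K)) 3, valuation_compl]
      exact h3
    · rw [← map_ofNat (algebraMap K (w.adicCompletion K)) 2, valuation_compl]
      exact hv2
    · rw [valuation_compl]
      exact hvd
    · have e : (d : K) ^ 3 = 1 + 4 * (((d : K) ^ 3 - 1) / 4) := by ring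
      conv_rhs => rw [← map_pow, e]
      simp only [map_mul, map_add, map_one, map_ofNat]
  unfold LEFd
  rw [WeierstrassCurve.localEulerFactor, WeierstrassCurve.localPowerSeries, hP]
  have : PowerSeries.invOfUnit ((1 : Polynomial ℤ) : PowerSeries ℤ) 1 = 1 := by
    have h := PowerSeries.mul_invOfUnit ((1 : Polynomial ℤ) : PowerSeries ℤ) 1 (by simp)
    simpa using h
  rw [this, map_one]
  simp

end H19Z
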