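import Mathlib
import Pool.Agent.Lib.H55E.Defs

/-! The product of the local terms of the conjecture of Birch and Swinnerton-Dyer: Tamagawa numbers and
discriminants of minimal models. -/

open NumberField IsDedekindDomain

namespace H19Z

open H55B H55C H55E

/-- The curve E_d over the completion of K at w. -/
noncomputable def Ew (d : ℤ) (K : Type) [Field K] [NumberField K] (w : HeightOneSpectrum (𝓞 K)) :
    WeierstrassCurve (w.adicCompletion K) :=
  ((Ed d).baseChange K).baseChange (w.adicCompletion K)

/-- A minimal Weierstrass equation of E_d over the completion of K at w (the one of Mathlib). -/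
noncomputable def Wd (d : ℤ) (K : Type) [Field K] [NumberField K] (w : HeightOneSpectrum (𝓞 K)) :
    WeierstrassCurve (w.adicCompletion K) :=
  (Ew d K w).minimal (w.adicCompletionIntegers K)

/-- The points with nonsingular reduction of a Weierstrass equation with integral coefficients: zero, the points
which reduce to zero (1 < v x), and the points at which the two partial derivatives do not both reduce to 0. -/
def NonsRed {K : Type} [Field K] [NumberField K] (w : HeightOneSpectrum (𝓞 K))
    (W : WeierstrassCurve (w.adicCompletion K)) : Set W.toAffine.Point :=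
  {P | P = 0 ∨ ∃ (x y : w.adicCompletion K) (h : W.toAffine.Nonsingular x y),
    P = WeierstrassCurve.Affine.Point.some x y h ∧
      (1 < Valued.v x ∨ 1 ≤ Valued.v (3 * x ^ 2 + 2 * W.a₂ * x + W.a₄ - W.a₁ * y) ∨
        1 ≤ Valued.v (2 * y + W.a₁ * x + W.a₃))}

open Classical in
/-- The Tamagawa number: the index of the subgroup of points with nonsingular reduction of the minimal
model. -/
noncomputable def cw (d : ℤ) (K : Type) [Field K] [NumberField K] (w : HeightOneSpectrum (𝓞 K)) : ℕ :=
  (AddSubgroup.closure (NonsRed w (Wd d K w))).index

/-- The product of the Tamagawa numbers and the numbers |Δmin/Δ|^(1/12) (normalised absolute values;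
Δ is the discriminant of the equation of E_d). -/
noncomputable def CEK (d : ℤ) (K : Type) [Field K] [NumberField K] : ℝ :=
  ∏ᶠ w : HeightOneSpectrum (𝓞 K), (cw d K w : ℝ) * ‖(Wd d K w).Δ / (Ew d K w).Δ‖ ^ (1 / 12 : ℝ)

end H19Z
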