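import Mathlib
import Pool.Agent.Lib.H19Z.L0

/-! Chunk ZL2 (M): the subgroup of points with nonsingular reduction has finite index, if 2y + a1 x + a3 is bounded below on
the points. M = W.Point, M0 = closure of NonsRed. Suppose P = (x1, y1), Q = (x2, y2) are not in NonsRed; then v(xi) <= 1 and
v(yi) <= 1 (y^2 + (a1 x + a3) y is integral). CLAIM: if v(x1 - x2) < c and v(y1 - y2) < c for small c
(c <= gamma, c^2 < gamma^2 ... enough: c <= gamma) then P - Q is in NonsRed: -Q = (x2, y2'), y2' = negY = -y2 - a1 x2 - a3.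
If x1 = x2 then y1 = y2 or y1 = negY x1 y2 (Affine.Y_eq_of_X_eq); in the second case y1 - y2 = -(2 y2 + a1 x2 + a3) has
valuation >= gamma, contradiction to v(y1 - y2) < gamma; so P = Q and P - Q = 0. If x1 <> x2: slope(P, -Q) =
(y1 - y2')/(x1 - x2), y1 - y2' = (2 y1 + a1 x1 + a3) - (y1 - y2) - a1 (x1 - x2), valuation >= gamma (the first term has valuation
>= gamma, the others < c <= gamma; a1 integral), v(x1 - x2) < c <= gamma, so v(slope) > 1 and
x(P - Q) = slope^2 + a1 slope - a2 - x1 - x2 has valuation v(slope)^2 > 1 (the other terms have valuation <= v(slope)).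
Affine.Point.add_some, addX. gamma <= 1 may be assumed (gamma <= v(..) for all points; if there is a point outside NonsRed then
gamma <= 1).
FINITENESS: for every x in the completion with v(x) <= 1 and every c > 0 there is a in 𝓞 K with v(x - a) < c (density of
K, and 𝓞 K is dense in the integers: see H55E.ET1_approx in H55E/T1.lean for c = 1, H16A.C1_dense; iterate with a power
of a uniformizer, or use: (adicCompletionIntegers / ideal power) = 𝓞 K / w^n), and 𝓞 K / w^n is finite. Or use the compactness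
of the integers of the completion (search Mathlib / our H16A.C1, H55B for CompactSpace) : finitely many balls.
The quotient M / M0 is finite: map the class of P (chosen representative) to none if it is 0, else to the classes of x1, y1
modulo w^n: injective by the claim. So the index is not 0 (AddSubgroup.index_ne_zero_of_finite or
AddSubgroup.finiteIndex). -/

open NumberField IsDedekindDomain

namespace H19Z

open H55B H55C H55E

theorem zl2_small (γ : WithZero (Multiplicative ℤ)) (hγ : γ ≠ 0) :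
    ∃ n : ℕ, WithZero.exp (-(n : ℤ)) < γ := by
  refine ⟨(WithZero.log γ).natAbs + 1, ?_⟩
  rw [← WithZero.exp_log hγ, WithZero.exp_lt_exp, WithZero.log_exp]
  push_cast
  have := neg_abs_le (WithZero.log γ)
  omega

theorem zl2_near {K : Type} [Field K] [NumberField K] (w : HeightOneSpectrum (𝓞 K))
    (n : ℕ) (x : w.adicCompletion K) :
    ∃ k : K, Valued.v (algebraMap K (w.adicCompletion K) k - x) ≤ WithZero.exp (-(n : ℤ)) := by
  obtain ⟨p, hp⟩ := w.valuation_exists_uniformizer K
  obtain ⟨z, hz⟩ : ∃ z, z = algebraMap K (w.adicCompletion K) (p ^ n) := ⟨_, rfl⟩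
  have hvz : Valued.v z = WithZero.exp (-(n : ℤ)) := by
    rw [hz]
    have h1 := HeightOneSpectrum.valuedAdicCompletion_eq_valuation' w (p ^ n)
    have h2 : Valued.v (algebraMap K (w.adicCompletion K) (p ^ n)) = w.valuation K (p ^ n) := h1
    rw [h2, map_pow, hp, ← WithZero.exp_nsmul]
    congr 1
    simp
  have h0 : Valued.v z ≠ 0 := by
    rw [hvz]
    exact WithZero.exp_ne_zero
  have h1 := Valued.locally_const h0
  have h2 : {y : w.adicCompletion K | Valued.v (y - x + z) = Valued.v z} ∈ nhds x := by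
    have hc : Continuous fun y : w.adicCompletion K => y - x + z := by fun_prop
    have h3 : Filter.Tendsto (fun y : w.adicCompletion K => y - x + z) (nhds x) (nhds z) := by
      have h4 := hc.tendsto x
      rwa [sub_self, zero_add] at h4
    exact h3 h1
  obtain ⟨k, hk⟩ := (HeightOneSpectrum.denseRange_algebraMap K w).mem_nhds h2
  refine ⟨k, ?_⟩
  rw [← hvz]
  have h3 : algebraMap K (w.adicCompletion K) k - x =
      (algebraMap K (w.adicCompletion K) k - x + z) - z := by ring
  rw [h3]
  refine (Valuation.map_sub _ _ _).trans ?_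
  exact max_le (le_of_eq hk) le_rfl

theorem zl2_int {K : Type} [Field K] [NumberField K] (w : HeightOneSpectrum (𝓞 K))
    (n : ℕ) (x : w.adicCompletion K) (hx : Valued.v x ≤ 1) :
    ∃ a : 𝓞 K, Valued.v (algebraMap K (w.adicCompletion K) (algebraMap (𝓞 K) K a) - x) ≤
      WithZero.exp (-(n : ℤ)) := by
  obtain ⟨k, hk⟩ := zl2_near w n x
  have hn : WithZero.exp (-(n : ℤ)) ≤ (1 : WithZero (Multiplicative ℤ)) := by
    rw [← WithZero.exp_zero, WithZero.exp_le_exp]
    omega
  have hk1 : Valued.v (algebraMap K (w.adicCompletion K) k) ≤ 1 := by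
    have h3 : algebraMap K (w.adicCompletion K) k =
      (algebraMap K (w.adicCompletion K) k - x) + x := by ring
    rw [h3]
    exact (Valuation.map_add _ _ _).trans (max_le (hk.trans hn) hx)
  have hk2 : w.valuation K k ≤ 1 := by
    rw [← HeightOneSpectrum.valuedAdicCompletion_eq_valuation' w k]
    exact hk1
  obtain ⟨a, ha⟩ := HeightOneSpectrum.exists_valuation_sub_lt_of_integer w hk2
    (Units.mk0 (WithZero.exp (-(n : ℤ))) WithZero.exp_ne_zero)
  refine ⟨a, ?_⟩
  have h3 : algebraMap K (w.adicCompletion K) (algebraMap (𝓞 K) K a) - x =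
      algebraMap K (w.adicCompletion K) (algebraMap (𝓞 K) K a - k) +
        (algebraMap K (w.adicCompletion K) k - x) := by
    rw [map_sub]
    ring
  rw [h3]
  refine (Valuation.map_add _ _ _).trans (max_le ?_ hk)
  have h4 := HeightOneSpectrum.valuedAdicCompletion_eq_valuation' w (algebraMap (𝓞 K) K a - k)
  have h5 : Valued.v (algebraMap K (w.adicCompletion K) (algebraMap (𝓞 K) K a - k)) =
    w.valuation K (algebraMap (𝓞 K) K a - k) := h4
  rw [h5]
  exact ha.le

/-- finitely many balls -/
theorem zl2_cls {K : Type} [Field K] [NumberField K] (w : HeightOneSpectrum (𝓞 K))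
    (γ : WithZero (Multiplicative ℤ)) (hγ : γ ≠ 0) :
    ∃ (S : Type) (_ : Finite S) (f : w.adicCompletion K → S), ∀ x y, Valued.v x ≤ 1 → Valued.v y ≤ 1 →
      f x = f y → Valued.v (x - y) < γ := by
  obtain ⟨n, hn⟩ := zl2_small γ hγ
  have hfin : Finite (𝓞 K ⧸ w.asIdeal ^ n) :=
    Ideal.finiteQuotientOfFreeOfNeBot _ (pow_ne_zero n w.ne_bot)
  have h1 : ∀ x : w.adicCompletion K, ∃ a : 𝓞 K, Valued.v x ≤ 1 →
      Valued.v (algebraMap K (w.adicCompletion K) (algebraMap (𝓞 K) K a) - x) ≤
      WithZero.exp (-(n : ℤ)) := by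
    intro x
    by_cases hx : Valued.v x ≤ 1
    · obtain ⟨a, ha⟩ := zl2_int w n x hx
      exact ⟨a, fun _ => ha⟩
    · exact ⟨0, fun h => absurd h hx⟩
  choose a ha using h1
  refine ⟨𝓞 K ⧸ w.asIdeal ^ n, hfin, fun x => Ideal.Quotient.mk _ (a x), ?_⟩
  intro x y hx hy hxy
  refine lt_of_le_of_lt ?_ hn
  have h2 := ha x hx
  have h3 := ha y hy
  have h4 : a x - a y ∈ w.asIdeal ^ n := Ideal.Quotient.eq.1 hxy
  have h5 : w.valuation K (algebraMap (𝓞 K) K (a x - a y)) ≤ WithZero.exp (-(n : ℤ)) := by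
    rw [HeightOneSpectrum.valuation_of_algebraMap]
    exact (HeightOneSpectrum.intValuation_le_pow_iff_mem w _ n).2 h4
  have h6 : Valued.v (algebraMap K (w.adicCompletion K) (algebraMap (𝓞 K) K (a x - a y))) ≤
      WithZero.exp (-(n : ℤ)) := by
    have h7 := HeightOneSpectrum.valuedAdicCompletion_eq_valuation' w (algebraMap (𝓞 K) K (a x - a y))
    rw [← h7] at h5
    exact h5
  have h8 : x - y = algebraMap K (w.adicCompletion K) (algebraMap (𝓞 K) K (a x - a y)) -
      (algebraMap K (w.adicCompletion K) (algebraMap (𝓞 K) K (a x)) - x) +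
      (algebraMap K (w.adicCompletion K) (algebraMap (𝓞 K) K (a y)) - y) := by
    rw [map_sub, map_sub]
    ring
  rw [h8]
  exact (Valuation.map_add _ _ _).trans (max_le ((Valuation.map_sub _ _ _).trans (max_le h6 h2)) h3)

theorem zl2_bound {L : Type} [Field L] (v : Valuation L (WithZero (Multiplicative ℤ))) (s b c : L)
    (hb : v b ≤ 1) (hc : v c ≤ 1) (h : s ^ 2 = b * s + c) : v s ≤ 1 := by
  by_contra h1
  rw [not_le] at h1
  have h2 : v s * v s ≤ v s := by
    rw [← map_mul, ← pow_two, h]
    refine (Valuation.map_add _ _ _).trans (max_le ?_ (hc.trans h1.le))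
    rw [map_mul]
    exact mul_le_of_le_one_left' hb
  have h3 : v s ≠ 0 := fun h => by
    rw [h] at h1
    exact absurd h1 (not_lt.2 zero_le)
  have h4 : v s ≤ 1 := by
    have := mul_le_mul_right h2 ((v s)⁻¹)
    rw [inv_mul_cancel_left₀ h3, inv_mul_cancel₀ h3] at this
    exact this
  exact absurd h4 (not_le.2 h1)

open Classical in
theorem zl2_diff {K : Type} [Field K] [NumberField K] (w : HeightOneSpectrum (𝓞 K))
    (W : WeierstrassCurve (w.adicCompletion K))
    (h1 : Valued.v W.a₁ ≤ 1) (h2 : Valued.v W.a₂ ≤ 1)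
    (γ : WithZero (Multiplicative ℤ))
    (hgap : ∀ x y : w.adicCompletion K, W.toAffine.Equation x y →
      γ ≤ Valued.v (2 * y + W.a₁ * x + W.a₃))
    (x₁ y₁ x₂ y₂ : w.adicCompletion K) (hn1 : W.toAffine.Nonsingular x₁ y₁)
    (hn2 : W.toAffine.Nonsingular x₂ y₂) (hx1 : Valued.v x₁ ≤ 1) (hx2 : Valued.v x₂ ≤ 1)
    (hx : Valued.v (x₁ - x₂) < γ) (hy : Valued.v (y₁ - y₂) < γ) :
    WeierstrassCurve.Affine.Point.some x₁ y₁ hn1 - WeierstrassCurve.Affine.Point.some x₂ y₂ hn2 ∈
      NonsRed w W := by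
  have hg1 := hgap x₁ y₁ hn1.1
  have hg2 := hgap x₂ y₂ hn2.1
  by_cases hxx : x₁ = x₂
  · rcases WeierstrassCurve.Affine.Y_eq_of_X_eq hn1.1 hn2.1 hxx with h | h
    · left
      subst hxx h
      exact sub_self _
    · exfalso
      have h3 : y₁ - y₂ = -(2 * y₂ + W.a₁ * x₂ + W.a₃) := by
        rw [h, WeierstrassCurve.Affine.negY]
        ring
      rw [h3, Valuation.map_neg] at hy
      exact absurd hg2 (not_le.2 hy)
  · right
    have hne : ¬ (x₁ = x₂ ∧ y₁ = W.toAffine.negY x₂ (W.toAffine.negY x₂ y₂)) := fun h => hxx h.1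
    have hn2' : W.toAffine.Nonsingular x₂ (W.toAffine.negY x₂ y₂) :=
      (WeierstrassCurve.Affine.nonsingular_neg ..).mpr hn2
    have hsub : WeierstrassCurve.Affine.Point.some x₁ y₁ hn1 -
        WeierstrassCurve.Affine.Point.some x₂ y₂ hn2 =
        WeierstrassCurve.Affine.Point.some _ _ (WeierstrassCurve.Affine.nonsingular_add hn1 hn2' hne) := by
      rw [sub_eq_add_neg, WeierstrassCurve.Affine.Point.neg_some,
        WeierstrassCurve.Affine.Point.add_some hne]
    refine ⟨_, _, _, hsub, Or.inl ?_⟩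
    obtain ⟨l, hl⟩ : ∃ l, l = W.toAffine.slope x₁ x₂ y₁ (W.toAffine.negY x₂ y₂) := ⟨_, rfl⟩
    rw [← hl]
    have hd : x₁ - x₂ ≠ 0 := sub_ne_zero.2 hxx
    have hl1 : l * (x₁ - x₂) = (2 * y₁ + W.a₁ * x₁ + W.a₃) - ((y₁ - y₂) + W.a₁ * (x₁ - x₂)) := by
      rw [hl, WeierstrassCurve.Affine.slope_of_X_ne hxx, div_mul_cancel₀ _ hd,
        WeierstrassCurve.Affine.negY]
      ring
    have hsmall : Valued.v ((y₁ - y₂) + W.a₁ * (x₁ - x₂)) < γ := by
      refine lt_of_le_of_lt (Valuation.map_add _ _ _) (max_lt hy ?_)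
      rw [map_mul]
      exact lt_of_le_of_lt (mul_le_of_le_one_left' h1) hx
    have hvl : 1 < Valued.v l := by
      by_contra hcon
      rw [not_lt] at hcon
      have h3 : Valued.v (l * (x₁ - x₂)) < γ := by
        rw [map_mul]
        exact lt_of_le_of_lt (mul_le_of_le_one_left' hcon) hx
      have h4 : 2 * y₁ + W.a₁ * x₁ + W.a₃ = l * (x₁ - x₂) + ((y₁ - y₂) + W.a₁ * (x₁ - x₂)) := by
        rw [hl1]
        ring
      have h5 : Valued.v (2 * y₁ + W.a₁ * x₁ + W.a₃) < γ := by
        rw [h4]
        exact lt_of_le_of_lt (Valuation.map_add _ _ _) (max_lt h3 hsmall)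
      exact absurd hg1 (not_le.2 h5)
    by_contra hcon
    rw [not_lt] at hcon
    refine absurd (zl2_bound Valued.v l (-W.a₁) (W.toAffine.addX x₁ x₂ l + W.a₂ + x₁ + x₂) ?_ ?_ ?_)
      (not_le.2 hvl)
    · rw [Valuation.map_neg]
      exact h1
    · refine (Valuation.map_add _ _ _).trans (max_le ?_ hx2)
      refine (Valuation.map_add _ _ _).trans (max_le ?_ hx1)
      exact (Valuation.map_add _ _ _).trans (max_le hcon h2)
    · rw [WeierstrassCurve.Affine.addX]
      ring

open Classical in
theorem index_ne_zero {K : Type} [Field K] [NumberField K] (w : HeightOneSpectrum (𝓞 K))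
    (W : WeierstrassCurve (w.adicCompletion K))
    (hW : WeierstrassCurve.IsIntegral (w.adicCompletionIntegers K) W)
    (γ : WithZero (Multiplicative ℤ)) (hγ : γ ≠ 0)
    (hgap : ∀ x y : w.adicCompletion K, W.toAffine.Equation x y →
      γ ≤ Valued.v (2 * y + W.a₁ * x + W.a₃)) :
    (AddSubgroup.closure (NonsRed w W)).index ≠ 0 := by
  obtain ⟨W', hW'⟩ := hW.integral
  have hint : ∀ z : w.adicCompletionIntegers K, Valued.v (z : w.adicCompletion K) ≤ 1 := fun z => z.2
  have h1 : Valued.v W.a₁ ≤ 1 := by rw [hW']; exact hint _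
  have h2 : Valued.v W.a₂ ≤ 1 := by rw [hW']; exact hint _
  have h3 : Valued.v W.a₃ ≤ 1 := by rw [hW']; exact hint _
  have h4 : Valued.v W.a₄ ≤ 1 := by rw [hW']; exact hint _
  have h6 : Valued.v W.a₆ ≤ 1 := by rw [hW']; exact hint _
  obtain ⟨S, hS, f, hf⟩ := zl2_cls w γ hγ
  -- coordinates
  have hco : ∀ P : W.toAffine.Point, P ∉ NonsRed w W →
      ∃ (x y : w.adicCompletion K) (h : W.toAffine.Nonsingular x y),
        P = WeierstrassCurve.Affine.Point.some x y h ∧ Valued.v x ≤ 1 ∧ Valued.v y ≤ 1 := by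
    intro P hP
    rcases P with _ | ⟨x, y, h⟩
    · exact absurd (Or.inl rfl) hP
    · refine ⟨x, y, h, rfl, ?_⟩
      have hx : Valued.v x ≤ 1 := by
        by_contra hcon
        exact hP (Or.inr ⟨x, y, h, rfl, Or.inl (not_le.1 hcon)⟩)
      refine ⟨hx, ?_⟩
      have he := h.1
      rw [WeierstrassCurve.Affine.equation_iff] at he
      refine zl2_bound Valued.v y (-(W.a₁ * x + W.a₃)) (x ^ 3 + W.a₂ * x ^ 2 + W.a₄ * x + W.a₆) ?_ ?_ ?_
      · rw [Valuation.map_neg]
        refine (Valuation.map_add _ _ _).trans (max_le ?_ h3)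
        rw [map_mul]
        exact mul_le_one' h1 hx
      · refine (Valuation.map_add _ _ _).trans (max_le ?_ h6)
        refine (Valuation.map_add _ _ _).trans (max_le ?_ ?_)
        · refine (Valuation.map_add _ _ _).trans (max_le ?_ ?_)
          · rw [map_pow]
            exact pow_le_one' hx 3
          · rw [map_mul, map_pow]
            exact mul_le_one' h2 (pow_le_one' hx 2)
        · rw [map_mul]
          exact mul_le_one' h4 hx
      · linear_combination he
  have hcls : ∃ g : W.toAffine.Point → Option (S × S), ∀ P Q, g P = g Q →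
      P - Q ∈ AddSubgroup.closure (NonsRed w W) := by
    choose! X Y hN hP hX hY using hco
    refine ⟨fun P => if P ∈ NonsRed w W then none else some (f (X P), f (Y P)), ?_⟩
    intro P Q hPQ
    by_cases hp : P ∈ NonsRed w W
    · by_cases hq : Q ∈ NonsRed w W
      · exact sub_mem (AddSubgroup.subset_closure hp) (AddSubgroup.subset_closure hq)
      · simp only [if_pos hp, if_neg hq] at hPQ
        exact absurd hPQ (by simp)
    · by_cases hq : Q ∈ NonsRed w W
      · simp only [if_neg hp, if_pos hq] at hPQ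
        exact absurd hPQ (by simp)
      · simp only [if_neg hp, if_neg hq, Option.some.injEq, Prod.mk.injEq] at hPQ
        apply AddSubgroup.subset_closure
        have h := zl2_diff w W h1 h2 γ hgap _ _ _ _ (hN P hp) (hN Q hq) (hX P hp) (hX Q hq)
          (hf _ _ (hX P hp) (hX Q hq) hPQ.1) (hf _ _ (hY P hp) (hY Q hq) hPQ.2)
        rwa [← hP P hp, ← hP Q hq] at h
  obtain ⟨g, hg⟩ := hcls
  have hfin : Finite (W.toAffine.Point ⧸ AddSubgroup.closure (NonsRed w W)) := by
    refine Finite.of_injective (fun q => g q.out) ?_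
    intro q q' hqq
    have h := hg _ _ hqq
    have h' : (q.out : W.toAffine.Point ⧸ AddSubgroup.closure (NonsRed w W)) = (q'.out : _) := by
      rw [QuotientAddGroup.eq]
      have := neg_mem h
      rwa [neg_sub, sub_eq_add_neg, add_comm] at this
    rwa [QuotientAddGroup.out_eq', QuotientAddGroup.out_eq'] at h'
  exact AddSubgroup.index_ne_zero_of_finite

end H19Z
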