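import Mathlib
import Pool.Agent.Lib.H19X.S4

open NumberField IsDedekindDomain

namespace H19Z

open H55B H55C H55E H19X

section W

variable {k : Type} {A : Type*} [Field k] [CommRing A] (v : Valuation k (WithZero (Multiplicative ℤ)))
  (i : k →+* A) (t : A)

/-- weighted size at most g in the basis 1, t, t^2 -/
def ZL3W (q g : WithZero (Multiplicative ℤ)) (z : A) : Prop :=
  ∃ a b c : k, z = i a + i b * t + i c * t ^ 2 ∧
    v a ^ 3 * 1 ≤ g ∧ v b ^ 3 * q ≤ g ∧ v c ^ 3 * q ^ 2 ≤ g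

variable {v i t} {q : WithZero (Multiplicative ℤ)}

theorem ZL3_mono {g g' : WithZero (Multiplicative ℤ)} (h : g ≤ g') {z : A} (hz : ZL3W v i t q g z) :
    ZL3W v i t q g' z := by
  obtain ⟨a, b, c, h1, h2, h3, h4⟩ := hz
  exact ⟨a, b, c, h1, h2.trans h, h3.trans h, h4.trans h⟩

theorem ZL3_vadd {g : WithZero (Multiplicative ℤ)} {s : WithZero (Multiplicative ℤ)} {x y : k}
    (hx : v x ^ 3 * s ≤ g) (hy : v y ^ 3 * s ≤ g) : v (x + y) ^ 3 * s ≤ g := by
  rcases le_total (v x) (v y) with h | h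
  · exact le_trans (mul_le_mul_left (pow_le_pow_left₀ zero_le ((v.map_add x y).trans
      (max_le h le_rfl)) 3) s) hy
  · exact le_trans (mul_le_mul_left (pow_le_pow_left₀ zero_le ((v.map_add x y).trans
      (max_le le_rfl h)) 3) s) hx

theorem ZL3_vneg {g : WithZero (Multiplicative ℤ)} {s : WithZero (Multiplicative ℤ)} {x : k}
    (hx : v x ^ 3 * s ≤ g) : v (-x) ^ 3 * s ≤ g := by
  rwa [Valuation.map_neg]

theorem ZL3_add {g : WithZero (Multiplicative ℤ)} {z z' : A} (hz : ZL3W v i t q g z)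
    (hz' : ZL3W v i t q g z') : ZL3W v i t q g (z + z') := by
  obtain ⟨a, b, c, h1, h2, h3, h4⟩ := hz
  obtain ⟨a', b', c', h1', h2', h3', h4'⟩ := hz'
  refine ⟨a + a', b + b', c + c', ?_, ZL3_vadd h2 h2', ZL3_vadd h3 h3', ZL3_vadd h4 h4'⟩
  rw [h1, h1', map_add, map_add, map_add]
  ring

theorem ZL3_t {x x' g g' r : WithZero (Multiplicative ℤ)} (h : x ≤ g) (h' : x' ≤ g') (hr : r ≤ 1) :
    x * x' * r ≤ g * g' :=
  (mul_le_mul' (mul_le_mul' h h') hr).trans_eq (mul_one _)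

theorem ZL3_two : v 2 ≤ 1 := by
  have h : (2 : k) = 1 + 1 := by norm_num
  rw [h]
  refine (v.map_add _ _).trans ?_
  rw [map_one, max_self]

theorem ZL3_mul (h3 : v 3 = q) (hq : q ≤ 1) (ht : t ^ 3 = 3 * t ^ 2 - 3 * t + 3)
    {g g' : WithZero (Multiplicative ℤ)} {z z' : A} (hz : ZL3W v i t q g z)
    (hz' : ZL3W v i t q g' z') : ZL3W v i t q (g * g') (z * z') := by
  obtain ⟨a, b, c, h1, ha, hb, hc⟩ := hz
  obtain ⟨a', b', c', h1', ha', hb', hc'⟩ := hz'
  have h2 : v (2 : k) ≤ 1 := ZL3_two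
  have h23 : v (2 : k) ^ 3 ≤ 1 := pow_le_one₀ zero_le h2
  have h33 : q ^ 2 ≤ 1 := pow_le_one₀ zero_le hq
  refine ⟨a * a' + 3 * b * c' + 3 * c * b' + 3 * 3 * c * c',
    a * b' + b * a' + -(3 * b * c') + -(3 * c * b') + -(2 * 3 * c * c'),
    a * c' + b * b' + c * a' + 3 * b * c' + 3 * c * b' + 2 * 3 * c * c', ?_, ?_, ?_, ?_⟩
  · rw [h1, h1']
    simp only [map_add, map_neg, map_mul, map_ofNat]
    linear_combination (i b * i c' + i c * i b' + i c * i c' * t + 3 * i c * i c') * ht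
  · refine ZL3_vadd (ZL3_vadd (ZL3_vadd ?_ ?_) ?_) ?_
    · refine le_trans (le_of_eq ?_) (ZL3_t ha ha' (le_refl 1))
      simp only [map_mul, h3, pow_succ, pow_zero, one_mul, mul_one]
      ac_rfl
    · refine le_trans (le_of_eq ?_) (ZL3_t hb hc' (le_refl 1))
      simp only [map_mul, h3, pow_succ, pow_zero, one_mul, mul_one]
      ac_rfl
    · refine le_trans (le_of_eq ?_) (ZL3_t hc hb' (le_refl 1))
      simp only [map_mul, h3, pow_succ, pow_zero, one_mul, mul_one]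
      ac_rfl
    · refine le_trans (le_of_eq ?_) (ZL3_t hc hc' h33)
      simp only [map_mul, h3, pow_succ, pow_zero, one_mul, mul_one]
      ac_rfl
  · refine ZL3_vadd (ZL3_vadd (ZL3_vadd (ZL3_vadd ?_ ?_) (ZL3_vneg ?_)) (ZL3_vneg ?_)) (ZL3_vneg ?_)
    · refine le_trans (le_of_eq ?_) (ZL3_t ha hb' (le_refl 1))
      simp only [map_mul, h3, pow_succ, pow_zero, one_mul, mul_one]
      ac_rfl
    · refine le_trans (le_of_eq ?_) (ZL3_t hb ha' (le_refl 1))
      simp only [map_mul, h3, pow_succ, pow_zero, one_mul, mul_one]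
      ac_rfl
    · refine le_trans (le_of_eq ?_) (ZL3_t hb hc' hq)
      simp only [map_mul, h3, pow_succ, pow_zero, one_mul, mul_one]
      ac_rfl
    · refine le_trans (le_of_eq ?_) (ZL3_t hc hb' hq)
      simp only [map_mul, h3, pow_succ, pow_zero, one_mul, mul_one]
      ac_rfl
    · refine le_trans (le_of_eq ?_) (ZL3_t hc hc' h23)
      simp only [map_mul, h3, pow_succ, pow_zero, one_mul, mul_one]
      ac_rfl
  · refine ZL3_vadd (ZL3_vadd (ZL3_vadd (ZL3_vadd (ZL3_vadd ?_ ?_) ?_) ?_) ?_) ?_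
    · refine le_trans (le_of_eq ?_) (ZL3_t ha hc' (le_refl 1))
      simp only [map_mul, h3, pow_succ, pow_zero, one_mul, mul_one]
      ac_rfl
    · refine le_trans (le_of_eq ?_) (ZL3_t hb hb' (le_refl 1))
      simp only [map_mul, h3, pow_succ, pow_zero, one_mul, mul_one]
      ac_rfl
    · refine le_trans (le_of_eq ?_) (ZL3_t hc ha' (le_refl 1))
      simp only [map_mul, h3, pow_succ, pow_zero, one_mul, mul_one]
      ac_rfl
    · refine le_trans (le_of_eq ?_) (ZL3_t hb hc' h33)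
      simp only [map_mul, h3, pow_succ, pow_zero, one_mul, mul_one]
      ac_rfl
    · refine le_trans (le_of_eq ?_) (ZL3_t hc hb' h33)
      simp only [map_mul, h3, pow_succ, pow_zero, one_mul, mul_one]
      ac_rfl
    · refine le_trans (le_of_eq ?_) (ZL3_t hc hc' (mul_le_one' h23 hq))
      simp only [map_mul, h3, pow_succ, pow_zero, one_mul, mul_one]
      ac_rfl

theorem ZL3_smul3 (h3 : v 3 = q) {g : WithZero (Multiplicative ℤ)} {z : A} (hz : ZL3W v i t q g z) :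
    ZL3W v i t q (q ^ 3 * g) (3 * z) := by
  obtain ⟨a, b, c, h1, ha, hb, hc⟩ := hz
  refine ⟨3 * a, 3 * b, 3 * c, ?_, ?_, ?_, ?_⟩
  · rw [h1]
    simp only [map_mul, map_ofNat]
    ring
  · rw [map_mul, h3, mul_pow, mul_assoc]
    exact mul_le_mul' le_rfl ha
  · rw [map_mul, h3, mul_pow, mul_assoc]
    exact mul_le_mul' le_rfl hb
  · rw [map_mul, h3, mul_pow, mul_assoc]
    exact mul_le_mul' le_rfl hc

/-- iterated cubes -/
theorem ZL3_cube (h3 : v 3 = q) (hq : q ≤ WithZero.exp (-1 : ℤ)) (ht : t ^ 3 = 3 * t ^ 2 - 3 * t + 3) {x : A}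
    (hx : ZL3W v i t q (WithZero.exp (-1 : ℤ)) x) (n : ℕ) :
    ∃ y, (1 + x) ^ (3 ^ n) = 1 + y ∧ ZL3W v i t q (WithZero.exp (-(n + 1 : ℕ) : ℤ)) y := by
  have h31 : q ≤ 1 := hq.trans (by
    rw [← WithZero.exp_zero, WithZero.exp_le_exp]
    norm_num)
  induction n with
  | zero => exact ⟨x, by simp, by simpa using hx⟩
  | succ n ih =>
    obtain ⟨y, hy, hW⟩ := ih
    refine ⟨3 * y + 3 * (y * y) + y * y * y, ?_, ?_⟩
    · rw [pow_succ, pow_mul, hy]
      ring
    · have h33 : q ^ 3 ≤ WithZero.exp (-3 : ℤ) := by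
        refine (pow_le_pow_left₀ zero_le hq 3).trans_eq ?_
        rw [← WithZero.exp_nsmul]
        norm_num
      refine ZL3_add (ZL3_add ?_ ?_) ?_
      · refine ZL3_mono ?_ (ZL3_smul3 h3 hW)
        refine (mul_le_mul' h33 le_rfl).trans ?_
        rw [← WithZero.exp_add, WithZero.exp_le_exp]
        push_cast
        omega
      · refine ZL3_mono ?_ (ZL3_smul3 h3 (ZL3_mul h3 h31 ht hW hW))
        refine (mul_le_mul' h33 le_rfl).trans ?_
        rw [← WithZero.exp_add, ← WithZero.exp_add, WithZero.exp_le_exp]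
        push_cast
        omega
      · refine ZL3_mono ?_ (ZL3_mul h3 h31 ht (ZL3_mul h3 h31 ht hW hW) hW)
        rw [← WithZero.exp_add, ← WithZero.exp_add, WithZero.exp_le_exp]
        push_cast
        omega


theorem ZL3_ne {e : ℕ} (he : ¬ 3 ∣ e) (hq : q = WithZero.exp (-(e : ℤ))) {x y : k} {m n : ℕ}
    (hmn : m < n) (hn : n ≤ 2) (h : v x ^ 3 * q ^ m = v y ^ 3 * q ^ n) : x = 0 ∧ y = 0 := by
  have hq0 : q ≠ 0 := by
    rw [hq]
    exact WithZero.exp_ne_zero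
  rcases eq_or_ne x 0 with hx | hx
  · refine ⟨hx, ?_⟩
    rw [hx, map_zero, zero_pow three_ne_zero, zero_mul] at h
    by_contra hy
    exact mul_ne_zero (pow_ne_zero 3 ((Valuation.ne_zero_iff v).2 hy)) (pow_ne_zero n hq0) h.symm
  rcases eq_or_ne y 0 with hy | hy
  · refine ⟨?_, hy⟩
    rw [hy, map_zero, zero_pow three_ne_zero, zero_mul] at h
    exact absurd h (mul_ne_zero (pow_ne_zero 3 ((Valuation.ne_zero_iff v).2 hx)) (pow_ne_zero m hq0))
  exfalso
  obtain ⟨r, hr⟩ := A18_exp v hx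
  obtain ⟨s, hs⟩ := A18_exp v hy
  rw [hr, hs, hq, ← WithZero.exp_nsmul, ← WithZero.exp_nsmul, ← WithZero.exp_nsmul,
    ← WithZero.exp_nsmul, ← WithZero.exp_add, ← WithZero.exp_add, WithZero.exp_inj] at h
  simp only [nsmul_eq_mul] at h
  push_cast at h
  have hm : m = 0 ∨ m = 1 := by omega
  have hn' : n = 1 ∨ n = 2 := by omega
  rcases hm with rfl | rfl <;> rcases hn' with rfl | rfl <;> push_cast at h <;> omega

theorem ZL3_div {x y : WithZero (Multiplicative ℤ)} (h : x < y) : x / y ≤ WithZero.exp (-1 : ℤ) := by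
  apply A18_lt_one
  exact (div_lt_one₀ (lt_of_le_of_lt zero_le h)).2 h

theorem ZL3_dom {e : ℕ} (he : ¬ 3 ∣ e) (hq : q = WithZero.exp (-(e : ℤ))) {a b c : k}
    (h : ¬ (a = 0 ∧ b = 0 ∧ c = 0)) :
    (a ≠ 0 ∧ v b ^ 3 * q ^ 1 < v a ^ 3 * q ^ 0 ∧ v c ^ 3 * q ^ 2 < v a ^ 3 * q ^ 0) ∨
    (b ≠ 0 ∧ v a ^ 3 * q ^ 0 < v b ^ 3 * q ^ 1 ∧ v c ^ 3 * q ^ 2 < v b ^ 3 * q ^ 1) ∨
    (c ≠ 0 ∧ v a ^ 3 * q ^ 0 < v c ^ 3 * q ^ 2 ∧ v b ^ 3 * q ^ 1 < v c ^ 3 * q ^ 2) := by
  have h0 : ∀ {x y : WithZero (Multiplicative ℤ)}, x < y → y ≠ 0 := by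
    rintro x y hxy rfl
    exact absurd hxy (not_lt.2 zero_le)
  have hv : ∀ {x : k} {m : ℕ}, v x ^ 3 * q ^ m ≠ 0 → x ≠ 0 := by
    rintro x m hx rfl
    apply hx
    rw [map_zero, zero_pow three_ne_zero, zero_mul]
  have hz : ∀ {x y : k} {m n : ℕ}, v x ^ 3 * q ^ m < v y ^ 3 * q ^ n → y ≠ 0 := fun hxy => hv (h0 hxy)
  have hz0 : ∀ {m : ℕ}, v (0 : k) ^ 3 * q ^ m = 0 := by
    intro m
    rw [map_zero, zero_pow three_ne_zero, zero_mul]
  rcases lt_trichotomy (v b ^ 3 * q ^ 1) (v a ^ 3 * q ^ 0) with hab | hab | hab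
  · rcases lt_trichotomy (v c ^ 3 * q ^ 2) (v a ^ 3 * q ^ 0) with hac | hac | hac
    · exact Or.inl ⟨hz hab, hab, hac⟩
    · exact absurd (ZL3_ne he hq (by norm_num) (by norm_num) hac.symm).1 (hz hab)
    · exact Or.inr (Or.inr ⟨hz hac, hac, hab.trans hac⟩)
  · obtain ⟨ha, hb⟩ := ZL3_ne he hq (by norm_num) (by norm_num) hab.symm
    have hc : c ≠ 0 := fun hc => h ⟨ha, hb, hc⟩
    have hq0 : q ≠ 0 := by
      rw [hq]
      exact WithZero.exp_ne_zero
    have hc0 : 0 < v c ^ 3 * q ^ 2 := zero_lt_iff.2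
      (mul_ne_zero (pow_ne_zero 3 ((Valuation.ne_zero_iff v).2 hc)) (pow_ne_zero 2 hq0))
    refine Or.inr (Or.inr ⟨hc, ?_, ?_⟩)
    · rw [ha, hz0]
      exact hc0
    · rw [hb, hz0]
      exact hc0
  · rcases lt_trichotomy (v c ^ 3 * q ^ 2) (v b ^ 3 * q ^ 1) with hac | hac | hac
    · exact Or.inr (Or.inl ⟨hz hab, hab, hac⟩)
    · exact absurd (ZL3_ne he hq (by norm_num) (by norm_num) hac.symm).1 (hz hab)
    · exact Or.inr (Or.inr ⟨hz hac, hab.trans hac, hac⟩)

/-- the leading term -/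
theorem ZL3_lead (h3 : v 3 = q) (h30 : (3 : k) ≠ 0) {e : ℕ} (he : ¬ 3 ∣ e)
    (hq : q = WithZero.exp (-(e : ℤ)))
    (ht : t ^ 3 = 3 * t ^ 2 - 3 * t + 3) {a b c : k}
    (h : ¬ (a = 0 ∧ b = 0 ∧ c = 0)) :
    ∃ (a' : k) (j : ℕ) (x : A), a' ≠ 0 ∧ ZL3W v i t q (WithZero.exp (-1 : ℤ)) x ∧
      i a + i b * t + i c * t ^ 2 = i a' * t ^ j * (1 + x) := by
  have hq0 : q ≠ 0 := by
    rw [hq]
    exact WithZero.exp_ne_zero
  have hq1 : q ≤ 1 := by
    rw [hq, ← WithZero.exp_zero, WithZero.exp_le_exp]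
    omega
  have hq2 : q ^ 2 ≤ 1 := pow_le_one₀ zero_le hq1
  have h2 : v (2 : k) ≤ 1 := ZL3_two
  have h23 : v (2 : k) ^ 3 ≤ 1 := pow_le_one₀ zero_le h2
  have hi3 : i 3 = 3 := map_ofNat _ 3
  have hi2 : i 2 = 2 := map_ofNat _ 2
  have key : ∀ {x y r s : WithZero (Multiplicative ℤ)}, x < y → r ≤ 1 → s = x / y * r →
      s ≤ WithZero.exp (-1 : ℤ) := by
    intro x y r s hxy hr hs
    rw [hs]
    exact (mul_le_mul' (ZL3_div hxy) hr).trans_eq (mul_one _)
  rcases ZL3_dom (v := v) he hq h with ⟨ha, h1, h2'⟩ | ⟨hb, h1, h2'⟩ | ⟨hc, h1, h2'⟩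
  · have hva : v a ≠ 0 := (Valuation.ne_zero_iff v).2 ha
    refine ⟨a, 0, i 0 + i (b / a) * t + i (c / a) * t ^ 2, ha,
      ⟨0, b / a, c / a, rfl, ?_, ?_, ?_⟩, ?_⟩
    · rw [map_zero, zero_pow three_ne_zero, zero_mul]
      exact zero_le
    · refine key h1 (le_refl 1) ?_
      rw [map_div₀]
      field_simp
    · refine key h2' (le_refl 1) ?_
      rw [map_div₀]
      field_simp
    · have e1 : i (b / a) * i a = i b := by
        rw [← map_mul, div_mul_cancel₀ b ha]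
      have e2 : i (c / a) * i a = i c := by
        rw [← map_mul, div_mul_cancel₀ c ha]
      rw [map_zero]
      linear_combination -t * e1 - t ^ 2 * e2
  · have hvb : v b ≠ 0 := (Valuation.ne_zero_iff v).2 hb
    refine ⟨b, 1, i (a / b) + i (c / b + -(a / b)) * t + i (a / b / 3) * t ^ 2, hb,
      ⟨a / b, c / b + -(a / b), a / b / 3, rfl, ?_, ?_, ?_⟩, ?_⟩
    · refine key h1 hq1 ?_
      rw [map_div₀]
      field_simp
    · refine ZL3_vadd ?_ (ZL3_vneg ?_)
      · refine key h2' (le_refl 1) ?_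
        rw [map_div₀]
        field_simp
      · refine key h1 hq2 ?_
        rw [map_div₀]
        field_simp
    · refine key h1 (le_refl 1) ?_
      rw [map_div₀, map_div₀, h3]
      field_simp
    · have e1 : i (a / b) * i b = i a := by
        rw [← map_mul, div_mul_cancel₀ a hb]
      have e2 : i (c / b) * i b = i c := by
        rw [← map_mul, div_mul_cancel₀ c hb]
      have e3 : i (a / b / 3) * 3 = i (a / b) := by
        rw [← hi3, ← map_mul, div_mul_cancel₀ _ h30]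
      rw [map_add, map_neg]
      linear_combination -e1 - t ^ 2 * e2 - i b * (1 - t + t ^ 2) * e3 - i b * i (a / b / 3) * ht
  · have hvc : v c ≠ 0 := (Valuation.ne_zero_iff v).2 hc
    refine ⟨c, 2, i (b / c) + i (-(2 * (a / c / 3)) + -(b / c)) * t + i (a / c / 3 + b / c / 3) * t ^ 2, hc,
      ⟨b / c, -(2 * (a / c / 3)) + -(b / c), a / c / 3 + b / c / 3, rfl, ?_, ?_, ?_⟩, ?_⟩
    · refine key h2' hq1 ?_
      rw [map_div₀]
      field_simp
    · refine ZL3_vadd (ZL3_vneg ?_) (ZL3_vneg ?_)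
      · refine key h1 h23 ?_
        rw [map_mul, map_div₀, map_div₀, h3]
        field_simp
      · refine key h2' hq2 ?_
        rw [map_div₀]
        field_simp
    · refine ZL3_vadd ?_ ?_
      · refine key h1 hq1 ?_
        rw [map_div₀, map_div₀, h3]
        field_simp
      · refine key h2' (le_refl 1) ?_
        rw [map_div₀, map_div₀, h3]
        field_simp
    · have e1 : i (a / c) * i c = i a := by
        rw [← map_mul, div_mul_cancel₀ a hc]
      have e2 : i (b / c) * i c = i b := by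
        rw [← map_mul, div_mul_cancel₀ b hc]
      have e3 : i (a / c / 3) * 3 = i (a / c) := by
        rw [← hi3, ← map_mul, div_mul_cancel₀ _ h30]
      have e4 : i (b / c / 3) * 3 = i (b / c) := by
        rw [← hi3, ← map_mul, div_mul_cancel₀ _ h30]
      have ht4 : t ^ 4 = 9 - 6 * t + 6 * t ^ 2 := by
        linear_combination (t + 3) * ht
      rw [map_add, map_add, map_neg, map_neg, map_mul, hi2]
      linear_combination -e1 - t * e2 - i c * e3 - i c * (t - t ^ 2 + t ^ 3) * e4 -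
        i c * (i (a / c / 3) + i (b / c / 3)) * ht4 + i c * (2 * i (a / c / 3) + 3 * i (b / c / 3)) * ht

/-- t is (-2/3) times a square -/
theorem ZL3_tsq (h3 : v 3 = q) (h30 : (3 : k) ≠ 0) (hq : q ≤ WithZero.exp (-1 : ℤ))
    (ht : t ^ 3 = 3 * t ^ 2 - 3 * t + 3)
    (hsq : ∀ x : A, ZL3W v i t q (WithZero.exp (-1 : ℤ)) x → IsUnit (1 + x) ∧ ∃ s, 1 + x = s ^ 2) :
    IsUnit t ∧ ∃ s, t = i (-2 / 3) * s ^ 2 := by
  have hi3 : i 3 = 3 := map_ofNat _ 3
  have hi2 : i 2 = 2 := map_ofNat _ 2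
  have hlt : v (3 : k) < v 1 := by
    rw [h3, map_one]
    refine lt_of_le_of_lt hq ?_
    rw [← WithZero.exp_zero, WithZero.exp_lt_exp]
    norm_num
  have hv2 : v (2 : k) = 1 := by
    have h1 : v (1 - 3 : k) = v 1 := Valuation.map_sub_eq_of_lt_left v hlt
    have h4 : (1 - 3 : k) = -2 := by norm_num
    rw [map_one, h4, Valuation.map_neg] at h1
    exact h1
  have h20 : (2 : k) ≠ 0 := by
    intro h
    rw [h, map_zero] at hv2
    exact zero_ne_one hv2
  have h33 : t ^ 3 * (t - 2) = 3 := by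
    linear_combination (t + 1) * ht
  have e3 : i 3 * i (1 / 3) = 1 := by
    rw [← map_mul, mul_one_div_cancel h30, map_one]
  refine ⟨IsUnit.of_mul_eq_one (t ^ 2 * (t - 2) * i (1 / 3)) ?_, ?_⟩
  · rw [hi3] at e3
    linear_combination i (1 / 3) * h33 + e3
  · obtain ⟨-, s, hs⟩ := hsq (i 0 + i (-(1 / 2)) * t + i 0 * t ^ 2) ⟨0, -(1 / 2), 0, rfl, by
      rw [map_zero, zero_pow three_ne_zero, zero_mul]; exact zero_le, by
      rw [Valuation.map_neg, map_div₀, map_one, hv2, div_one, one_pow, one_mul]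
      exact hq, by
      rw [map_zero, zero_pow three_ne_zero, zero_mul]; exact zero_le⟩
    refine ⟨t ^ 2 * s, ?_⟩
    have e4 : i (-2 / 3) * 3 = -2 := by
      rw [← hi3, ← map_mul, div_mul_cancel₀ _ h30, map_neg, hi2]
    have e5 : i (-(1 / 2)) * 2 = -1 := by
      rw [← hi2, ← map_mul]
      have : (-(1 / 2) * 2 : k) = -1 := by
        field_simp
      rw [this, map_neg, map_one]
    rw [mul_pow, ← hs, map_zero]
    have e6 : i (-2 / 3) * (3 * t) = -2 * t := by linear_combination t * e4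
    have e7 : t ^ 4 * (2 + i (-(1 / 2)) * 2 * t) = -(3 * t) := by
      rw [e5]
      linear_combination -t * h33
    have e8 : (2 : A) * i (1 / 2) = 1 := by
      rw [← hi2, ← map_mul, mul_one_div_cancel h20, map_one]
    linear_combination (-i (-2 / 3) * i (1 / 2)) * e7 + (-i (1 / 2)) * e6 + (t - i (-2 / 3) * t ^ 4 * (1 + i (-(1 / 2)) * t)) * (-e8) +
      2 * t * i (1 / 2) * e4

/-- all together, with a multiplicative norm -/
theorem ZL3_main (h3 : v 3 = q) (h30 : (3 : k) ≠ 0) {e : ℕ} (he : ¬ 3 ∣ e)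
    (hq : q = WithZero.exp (-(e : ℤ)))
    (ht : t ^ 3 = 3 * t ^ 2 - 3 * t + 3)
    (hsq : ∀ x : A, ZL3W v i t q (WithZero.exp (-1 : ℤ)) x → IsUnit (1 + x) ∧ ∃ s, 1 + x = s ^ 2)
    (N : A →* k) (hN : ∀ a : k, N (i a) = a ^ 3) {z : A} (hz : z ≠ 0)
    (hz' : ∃ a b c : k, z = i a + i b * t + i c * t ^ 2) {n : k} (hn : N z = n ^ 2) :
    ∃ s, z = s ^ 2 := by
  obtain ⟨a, b, c, habc⟩ := hz'
  have he0 : e ≠ 0 := by
    rintro rfl
    exact he (dvd_zero 3)
  have hqe : q ≤ WithZero.exp (-1 : ℤ) := by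
    rw [hq, WithZero.exp_le_exp]
    omega
  have h20 : (-2 / 3 : k) ≠ 0 := by
    have h2 : (2 : k) ≠ 0 := by
      intro h
      have hlt : v (3 : k) < v 1 := by
        rw [h3, map_one]
        refine lt_of_le_of_lt hqe ?_
        rw [← WithZero.exp_zero, WithZero.exp_lt_exp]
        norm_num
      have h1 : v (1 - 3 : k) = v 1 := Valuation.map_sub_eq_of_lt_left v hlt
      have h4 : (1 - 3 : k) = 0 := by
        linear_combination -h
      rw [h4, map_one, map_zero] at h1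
      exact zero_ne_one h1
    exact div_ne_zero (neg_ne_zero.2 h2) h30
  obtain ⟨htu, s, hs⟩ := ZL3_tsq h3 h30 hqe ht hsq
  have hne : ¬ (a = 0 ∧ b = 0 ∧ c = 0) := by
    rintro ⟨rfl, rfl, rfl⟩
    apply hz
    rw [habc, map_zero]
    ring
  obtain ⟨a', j, x, ha', hx, hzx⟩ := ZL3_lead h3 h30 he hq ht hne
  obtain ⟨hxu, y, hy⟩ := hsq x hx
  have e1 : z = i (a' * (-2 / 3) ^ j) * (s ^ j * y) ^ 2 := by
    rw [habc, hzx, hy]
    conv_lhs => rw [hs]
    rw [map_mul, map_pow]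
    ring
  have hzu : IsUnit z := by
    rw [habc, hzx]
    exact (((isUnit_iff_ne_zero.2 ha').map i).mul (htu.pow j)).mul hxu
  have hNz : N z ≠ 0 := (hzu.map N).ne_zero
  have ha'' : a' * (-2 / 3) ^ j ≠ 0 := mul_ne_zero ha' (pow_ne_zero j h20)
  generalize a' * (-2 / 3) ^ j = d at e1 ha''
  generalize s ^ j * y = u at e1
  have e2 : N z = d ^ 3 * N u ^ 2 := by
    rw [e1, map_mul, hN, map_pow]
  have hNu : N u ≠ 0 := by
    intro h
    rw [h, zero_pow two_ne_zero, mul_zero] at e2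
    exact hNz e2
  refine ⟨i (n / (d * N u)) * u, ?_⟩
  have e3 : d = (n / (d * N u)) ^ 2 := by
    rw [e2] at hn
    rw [div_pow, ← hn]
    field_simp
  rw [mul_pow, ← map_pow, ← e3, e1]

end W

section loc

variable {K : Type} [Field K] [NumberField K] (w : HeightOneSpectrum (𝓞 K))

/-- 1 + (small) is a unit and a square -/
theorem ZL3_small {e : ℕ} (he : e ≠ 0)
    (h3 : (Valued.v (3 : w.adicCompletion K) : WithZero (Multiplicative ℤ)) = WithZero.exp (-(e : ℤ)))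
    (x : Cub (w.adicCompletion K)) (hx : ZL3W Valued.v (AdjoinRoot.of _) (AdjoinRoot.root _ + 1)
      (WithZero.exp (-(e : ℤ))) (WithZero.exp (-1 : ℤ)) x) :
    IsUnit (1 + x) ∧ ∃ s, 1 + x = s ^ 2 := by
  have hac : IsAdicComplete (IsLocalRing.maximalIdeal (w.adicCompletionIntegers K))
      (w.adicCompletionIntegers K) := H16A.isAdicComplete_integers w
  have hmem : ∀ y : w.adicCompletionIntegers K,
      y ∈ IsLocalRing.maximalIdeal (w.adicCompletionIntegers K) ↔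
        Valued.v (y : w.adicCompletion K) < 1 := by
    intro y
    rw [H16A.C1_mem_maximalIdeal, H16A.C1_norm_lt_one_iff]
  have h31 : (Valued.v (3 : w.adicCompletion K) : WithZero (Multiplicative ℤ)) < 1 := by
    rw [h3, ← WithZero.exp_zero, WithZero.exp_lt_exp]
    omega
  have hroot := A18_root (w.adicCompletion K)
  have ht : (AdjoinRoot.root (Polynomial.X ^ 3 - Polynomial.C 2 : Polynomial (w.adicCompletion K)) + 1) ^ 3 =
      3 * (AdjoinRoot.root _ + 1) ^ 2 - 3 * (AdjoinRoot.root _ + 1) + 3 := by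
    linear_combination hroot
  obtain ⟨y, hy, a, b, c, habc, ha, hb, hc⟩ := ZL3_cube (v := Valued.v) h3
    (by rw [WithZero.exp_le_exp]; omega) ht hx (2 * e + 1)
  have lt1 : ∀ {u : w.adicCompletion K} {m : ℕ}, m ≤ 2 →
      (Valued.v u : WithZero (Multiplicative ℤ)) ^ 3 * WithZero.exp (-(e : ℤ)) ^ m ≤
        WithZero.exp (-((2 * e + 1) + 1 : ℕ) : ℤ) → Valued.v u < (1 : WithZero (Multiplicative ℤ)) := by
    intro u m hm hu
    rcases eq_or_ne u 0 with hu0 | hu0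
    · rw [hu0, map_zero]
      exact zero_lt_one
    · obtain ⟨r, hr⟩ := A18_exp (Valued.v (R := w.adicCompletion K)) hu0
      rw [hr, ← WithZero.exp_nsmul, ← WithZero.exp_nsmul, ← WithZero.exp_add, WithZero.exp_le_exp] at hu
      rw [hr, ← WithZero.exp_zero, WithZero.exp_lt_exp]
      simp only [nsmul_eq_mul] at hu
      push_cast at hu
      have : (m : ℤ) * -(e : ℤ) ≥ -(2 * e) := by
        have h1 : (m : ℤ) ≤ 2 := by exact_mod_cast hm
        nlinarith [Int.natCast_nonneg e]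
      omega
  have va := lt1 (u := a) (m := 0) (by norm_num) (by rw [pow_zero]; exact ha)
  have vb := lt1 (u := b) (m := 1) (by norm_num) (by rw [pow_one]; exact hb)
  have vc := lt1 (u := c) (m := 2) (by norm_num) hc
  obtain ⟨a0, ha0⟩ : ∃ a0 : w.adicCompletionIntegers K, (a0 : w.adicCompletion K) = a :=
    ⟨⟨a, va.le⟩, rfl⟩
  obtain ⟨b0, hb0⟩ : ∃ b0 : w.adicCompletionIntegers K, (b0 : w.adicCompletion K) = b :=
    ⟨⟨b, vb.le⟩, rfl⟩
  obtain ⟨c0, hc0⟩ : ∃ c0 : w.adicCompletionIntegers K, (c0 : w.adicCompletion K) = c :=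
    ⟨⟨c, vc.le⟩, rfl⟩
  have ra : IsLocalRing.residue (w.adicCompletionIntegers K) a0 = 0 := by
    rw [IsLocalRing.residue_eq_zero_iff, hmem, ha0]
    exact va
  have rb : IsLocalRing.residue (w.adicCompletionIntegers K) b0 = 0 := by
    rw [IsLocalRing.residue_eq_zero_iff, hmem, hb0]
    exact vb
  have rc : IsLocalRing.residue (w.adicCompletionIntegers K) c0 = 0 := by
    rw [IsLocalRing.residue_eq_zero_iff, hmem, hc0]
    exact vc
  have h2 : IsUnit (2 : w.adicCompletionIntegers K) := by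
    by_contra h
    have h1 : (2 : w.adicCompletionIntegers K) ∈ IsLocalRing.maximalIdeal (w.adicCompletionIntegers K) :=
      (IsLocalRing.mem_maximalIdeal _).2 h
    have h4 : (3 : w.adicCompletionIntegers K) ∈ IsLocalRing.maximalIdeal (w.adicCompletionIntegers K) := by
      rw [hmem]
      exact h31
    have h5 := Ideal.sub_mem _ h4 h1
    have h6 : (3 - 2 : w.adicCompletionIntegers K) = 1 := by norm_num
    rw [h6] at h5
    exact (IsLocalRing.maximalIdeal.isMaximal _).ne_top ((Ideal.eq_top_iff_one _).2 h5)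
  obtain ⟨ψ, hψ, hψr⟩ := s4_psi w
  obtain ⟨U, hU⟩ : ∃ U : s4E.Alg (w.adicCompletionIntegers K), U =
      1 + (algebraMap _ (s4E.Alg (w.adicCompletionIntegers K)) a0 +
        algebraMap _ (s4E.Alg (w.adicCompletionIntegers K)) b0 * (s4E.th _ + 1) +
        algebraMap _ (s4E.Alg (w.adicCompletionIntegers K)) c0 * (s4E.th _ + 1) ^ 2) := ⟨_, rfl⟩
  have hUr : s4E.algMap (IsLocalRing.residue (w.adicCompletionIntegers K)) U = 1 := by
    rw [hU]
    simp only [map_add, map_mul, map_pow, map_one, s4E.c3_algMap_al, ra, rb, rc, map_zero]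
    ring
  have hUψ : ψ U = (1 + x) ^ (3 ^ (2 * e + 1)) := by
    rw [hU, hy, habc]
    simp only [map_add, map_mul, map_pow, map_one, hψ, hψr, ha0, hb0, hc0]
  obtain ⟨Z, hZ⟩ := s4E.c3_isUnit (z := U) (by rw [hUr]; exact isUnit_one)
  obtain ⟨s, hs⟩ := s4E.c3_isSquare h2 Z (by rw [hZ, hUr]; exact IsSquare.one)
  have hu : IsUnit (1 + x) := by
    have h1 : IsUnit (ψ U) := by
      rw [← hZ]
      exact Z.isUnit.map ψ
    rw [hUψ] at h1
    exact (isUnit_pow_iff (by positivity)).1 h1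
  refine ⟨hu, ?_⟩
  obtain ⟨V, hV⟩ := hu
  obtain ⟨j, hj⟩ : Odd (3 ^ (2 * e + 1)) := Odd.pow (by decide)
  refine ⟨ψ s * ((V⁻¹ ^ j : (Cub (w.adicCompletion K))ˣ) : Cub (w.adicCompletion K)), ?_⟩
  have e1 : ψ s ^ 2 = (V : Cub (w.adicCompletion K)) ^ (2 * j + 1) := by
    rw [← hj, hV, ← hUψ, ← hZ, hs, map_mul, pow_two]
  have e2 : (V : Cub (w.adicCompletion K)) ^ j *
      ((V⁻¹ ^ j : (Cub (w.adicCompletion K))ˣ) : Cub (w.adicCompletion K)) = 1 := by
    rw [← Units.val_pow_eq_pow_val, ← Units.val_mul, ← mul_pow, mul_inv_cancel, one_pow, Units.val_one]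
  rw [← hV, mul_pow, e1]
  have e3 : (V : Cub (w.adicCompletion K)) ^ (2 * j + 1) = (V : Cub (w.adicCompletion K)) *
      ((V : Cub (w.adicCompletion K)) ^ j) ^ 2 := by ring
  rw [e3, mul_assoc, ← mul_pow, e2, one_pow, mul_one]

end loc

theorem sq_three {K : Type} [Field K] [NumberField K] (w : HeightOneSpectrum (𝓞 K))
    (hv : ∃ e : ℕ, ¬ 3 ∣ e ∧ w.valuation K (3 : K) = WithZero.exp (-(e : ℤ)))
    (m : Cub (w.adicCompletion K)) (hm : m ≠ 0) (n : w.adicCompletion K)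
    (hn : Algebra.norm (w.adicCompletion K) m = n ^ 2) : ∃ b : Cub (w.adicCompletion K), m = b ^ 2 := by
  obtain ⟨e, he, hve⟩ := hv
  have he0 : e ≠ 0 := by
    rintro rfl
    exact he (dvd_zero 3)
  have h3 : (Valued.v (3 : w.adicCompletion K) : WithZero (Multiplicative ℤ)) = WithZero.exp (-(e : ℤ)) := by
    rw [← hve]
    exact A18_valued_ofNat w 3
  have hroot := A18_root (w.adicCompletion K)
  have ht : (AdjoinRoot.root (Polynomial.X ^ 3 - Polynomial.C 2 : Polynomial (w.adicCompletion K)) + 1) ^ 3 =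
      3 * (AdjoinRoot.root _ + 1) ^ 2 - 3 * (AdjoinRoot.root _ + 1) + 3 := by
    linear_combination hroot
  have h30 : (3 : w.adicCompletion K) ≠ 0 := by
    intro h
    rw [h, map_zero] at h3
    exact WithZero.exp_ne_zero h3.symm
  have hsp : ∃ a b c : w.adicCompletion K, m = AdjoinRoot.of _ a + AdjoinRoot.of _ b * AdjoinRoot.root _ +
      AdjoinRoot.of _ c * AdjoinRoot.root _ ^ 2 := H55B.J0_span (w.adicCompletion K) m
  obtain ⟨a, b, c, habc⟩ := hsp
  refine ZL3_main (v := Valued.v) h3 h30 he rfl ht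
    (fun x hx => ZL3_small w he0 h3 x hx) (Algebra.norm (w.adicCompletion K)) ?_ hm
    ⟨a - b + c, b - 2 * c, c, ?_⟩ hn
  · intro a
    have h := A18_norm (w.adicCompletion K) a 0 0
    simpa using h
  · rw [habc]
    have e2 : AdjoinRoot.of (Polynomial.X ^ 3 - Polynomial.C 2 : Polynomial (w.adicCompletion K)) 2 = 2 :=
      map_ofNat _ 2
    rw [map_add, map_sub, map_sub, map_mul, e2]
    ring

end H19Z
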