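import Mathlib
import Pool.Agent.Lib.H19X.S4

/-! Chunk ZL4 (S/M): the same at a place not above 6 modulo which 2 is not a cube. This is the proof of loc_d in H19X/S4.lean
(s4_pick, s4_loc, s4_psi) for an arbitrary element of Cub (K_w) instead of the image of an element of Cub K: write
m = a + b T + c T^2 (power basis: compare span_co in H19X/N1 or N2, H55C.A18), norm m = a^3 + 2 b^3 + 4 c^3 - 6 a b c
(norm_co, c3_norm). No field F is needed. -/

open NumberField IsDedekindDomain

namespace H19Z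

open H55B H55C H55E H19X

theorem zl4_span (k : Type) [Field k] (z : Cub k) : ∃ a b c : k,
    z = (AdjoinRoot.of (Polynomial.X ^ 3 - Polynomial.C 2 : Polynomial k) a : Cub k) +
      AdjoinRoot.of (Polynomial.X ^ 3 - Polynomial.C 2 : Polynomial k) b *
        AdjoinRoot.root (Polynomial.X ^ 3 - Polynomial.C 2 : Polynomial k) +
      AdjoinRoot.of (Polynomial.X ^ 3 - Polynomial.C 2 : Polynomial k) c *
        AdjoinRoot.root (Polynomial.X ^ 3 - Polynomial.C 2 : Polynomial k) ^ 2 :=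
  H55B.J0_span k z

theorem sq_d {K : Type} [Field K] [NumberField K] (w : HeightOneSpectrum (𝓞 K))
    (h6 : (6 : 𝓞 K) ∉ w.asIdeal) (hno : ¬ ∃ u : 𝓞 K, u ^ 3 - 2 ∈ w.asIdeal)
    (m : Cub (w.adicCompletion K)) (hm : m ≠ 0) (n : w.adicCompletion K)
    (hn : Algebra.norm (w.adicCompletion K) m = n ^ 2) : ∃ b : Cub (w.adicCompletion K), m = b ^ 2 := by
  obtain ⟨a, b, c, habc⟩ := zl4_span (w.adicCompletion K) m
  have hnorm : n ^ 2 = a ^ 3 + 2 * b ^ 3 + 4 * c ^ 3 - 6 * a * b * c := by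
    rw [← hn, habc]
    exact A18_norm (w.adicCompletion K) a b c
  have hac : IsAdicComplete (IsLocalRing.maximalIdeal (w.adicCompletionIntegers K))
      (w.adicCompletionIntegers K) := H16A.isAdicComplete_integers w
  have hfin : Finite (IsLocalRing.ResidueField (w.adicCompletionIntegers K)) := H16A.finite_residueField w
  have hne : ¬ (a = 0 ∧ b = 0 ∧ c = 0) := by
    rintro ⟨h1, h2, h3⟩
    apply hm
    rw [habc, h1, h2, h3, map_zero, zero_mul, zero_mul, add_zero, add_zero]
  obtain ⟨t, α, β, γ, ht, hα, hβ, hγ, h1⟩ := s4_pick w hne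
  obtain ⟨hu, s, hs⟩ := s4_loc (s4_two w h6) (s4_nocube w hno) α β γ h1
  obtain ⟨ψ, hψ, hψr⟩ := s4_psi w
  have hs' := congrArg ψ hs
  rw [map_add, map_add, map_mul, map_mul, map_mul, map_pow, map_pow, hψ, hψ, hψ, hψ, hψr] at hs'
  have hNF : t * ((s4E.c3NF α β γ : w.adicCompletionIntegers K) : w.adicCompletion K) =
      (n / t) ^ 2 := by
    rw [hα, hβ, hγ] at hnorm
    rw [div_pow, eq_div_iff (pow_ne_zero 2 ht), hnorm, s4_coe_NF]
    unfold H16A.Cub.c3NF s4E
    push_cast
    ring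
  refine ⟨AdjoinRoot.of _ (n / t) * ψ s, ?_⟩
  rw [habc, hα, hβ, hγ, mul_pow, ← map_pow (AdjoinRoot.of _) (n / t) 2, ← hNF, map_mul, map_mul,
    map_mul, map_mul]
  linear_combination (AdjoinRoot.of _ t) * hs'

end H19Z
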