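import Mathlib
import Pool.Agent.Lib.H19X.LG1
import Pool.Agent.Lib.H19Z.L1

/-! Chunk ZL5 (M): the points are divisible by 2. E = the curve y^2 + y = x^3 + (d^3 - 1)/4 over k, C • E. For a point
(X, Y) of EC d : Y^2 = X^3 + 16 d^3 (H19X/LG1.lean), Y <> 0 (2 is not a cube in k: X^3 = -16 d^3 = 2 (-2d)^3; so X/(-2d) would be a
cube root), the element X - th of (EC d).Alg k goes under tau (exists_tau) to X + 2 d T in Cub k, of norm X^3 + 16 d^3 = Y^2
(Algebra.norm is invariant under AlgEquiv, or norm_co / the formula norm(a + bT) = a^3 + 2 b^3), nonzero; hsq: it is a square;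
transport back by tau.symm: X - th = z^2, H16A.Cub.two_div_of_sq: the point is Q + Q (disc of EC d = -27 * 256 d^6 <> 0).
So all points of (EC d).W over k are divisible by 2. Now (EC d).W⁄k = C0 • E with u = 1/2, r = 0, s = 0, t = -1/2 or the other way
E = C0 • ((EC d).W⁄k) with u = 2, r = 0, s = 0, t = 4 (X = 4x, Y = 8 y + 4; check by ext and variableChange_def), so vc_iso (L1)
twice: E ≃ EC, and C • E ≃ E. Divisibility by 2 is transported by group isomorphisms. -/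

open WeierstrassCurve

namespace H19Z

open H55B H55C H55E H19X

section ZL5

variable {k : Type} [Field k] [CharZero k]

omit [CharZero k] in
theorem zl5_a (d : ℤ) : (WeierstrassCurve.Affine.baseChange (EC d).W k) =
    (⟨0, 0, 0, 0, 16 * (d : k) ^ 3⟩ : WeierstrassCurve k) := by
  unfold WeierstrassCurve.Affine.baseChange WeierstrassCurve.baseChange WeierstrassCurve.map EC H16A.Cub.W
  simp

theorem zl5_ell (d : ℤ) (hd : d ≠ 0) :
    (⟨0, 0, 0, 0, 16 * (d : k) ^ 3⟩ : WeierstrassCurve k).IsElliptic := by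
  refine ⟨isUnit_iff_ne_zero.2 ?_⟩
  have hd' : (d : k) ≠ 0 := Int.cast_ne_zero.2 hd
  have e : (⟨0, 0, 0, 0, 16 * (d : k) ^ 3⟩ : WeierstrassCurve k).Δ = -(110592 * (d : k) ^ 6) := by
    unfold WeierstrassCurve.Δ WeierstrassCurve.b₂ WeierstrassCurve.b₄ WeierstrassCurve.b₆
      WeierstrassCurve.b₈
    ring
  rw [e]
  exact neg_ne_zero.2 (mul_ne_zero (by norm_num) (pow_ne_zero 6 hd'))

theorem zl5_disc (d : ℤ) (hd : d ≠ 0) : (((EC d).disc : ℤ) : k) ≠ 0 := by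
  rw [Int.cast_ne_zero]
  unfold H16A.Cub.disc EC
  have e : (0 : ℤ) ^ 2 * 0 ^ 2 - 4 * 0 ^ 3 - 4 * 0 ^ 3 * (16 * d ^ 3) - 27 * (16 * d ^ 3) ^ 2 +
      18 * 0 * 0 * (16 * d ^ 3) = -(6912 * d ^ 6) := by ring
  rw [e]
  exact neg_ne_zero.2 (mul_ne_zero (by norm_num) (pow_ne_zero 6 hd))

theorem zl5_EC [DecidableEq k] (hno : ∀ x : k, x ^ 3 ≠ 2)
    (hsq : ∀ m : Cub k, m ≠ 0 → ∀ n : k, Algebra.norm k m = n ^ 2 → ∃ b : Cub k, m = b ^ 2)
    (d : ℤ) (hd : d ≠ 0) (P : (EC d).Pt k) : ∃ Q : (EC d).Pt k, P = Q + Q := by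
  have hd' : (d : k) ≠ 0 := Int.cast_ne_zero.2 hd
  cases P with
  | zero => exact ⟨0, (add_zero (0 : (EC d).Pt k)).symm⟩
  | some x y h =>
    obtain ⟨τ, hτ, -⟩ := exists_tau k d hd
    have hE : y ^ 2 = x ^ 3 + 16 * (d : k) ^ 3 := by
      rw [← lg1_val]
      exact ((EC d).h4_eq_iff x y).1 h.1
    have hm : τ (algebraMap k ((EC d).Alg k) x - (EC d).th k) = AdjoinRoot.of _ x +
        AdjoinRoot.of _ (2 * (d : k)) * AdjoinRoot.root _ + AdjoinRoot.of _ 0 * AdjoinRoot.root _ ^ 2 := by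
      have e4 : AdjoinRoot.of (Polynomial.X ^ 3 - Polynomial.C 2 : Polynomial k) (2 : k) = 2 :=
        map_ofNat _ 2
      rw [map_sub, AlgEquiv.commutes, hτ, map_zero, zero_mul, add_zero, map_mul, map_intCast, e4,
        AdjoinRoot.algebraMap_eq]
      ring
    have hn : Algebra.norm k (τ (algebraMap k ((EC d).Alg k) x - (EC d).th k)) = y ^ 2 := by
      rw [hm, A18_norm, hE]
      ring
    have h0 : τ (algebraMap k ((EC d).Alg k) x - (EC d).th k) ≠ 0 := by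
      intro h0
      rw [hm] at h0
      have h1 := (H55B.J0_indep k _ _ _ h0).2.1
      exact mul_ne_zero two_ne_zero hd' h1
    obtain ⟨b, hb⟩ := hsq _ h0 y hn
    refine (EC d).two_div_of_sq two_ne_zero (zl5_disc d hd) h (τ.symm b) ?_
    rw [← map_pow, ← hb, AlgEquiv.symm_apply_apply]

end ZL5

theorem two_div {k : Type} [Field k] [CharZero k] [DecidableEq k]
    (hno : ∀ x : k, x ^ 3 ≠ 2)
    (hsq : ∀ m : Cub k, m ≠ 0 → ∀ n : k, Algebra.norm k m = n ^ 2 → ∃ b : Cub k, m = b ^ 2)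
    (d : ℤ) (hd : d ≠ 0) (C : VariableChange k)
    (P : (C • (⟨0, 0, 1, 0, ((d : k) ^ 3 - 1) / 4⟩ : WeierstrassCurve k)).toAffine.Point) :
    ∃ Q, P = Q + Q := by
  have hEC := zl5_EC hno hsq d hd
  have hell := zl5_ell (k := k) d hd
  have h2 : (2 : k) ≠ 0 := two_ne_zero
  let C0 : VariableChange k := ⟨Units.mk0 2 h2, 0, 0, 4⟩
  have hC0 : C0 • (⟨0, 0, 0, 0, 16 * (d : k) ^ 3⟩ : WeierstrassCurve k) =
      (⟨0, 0, 1, 0, ((d : k) ^ 3 - 1) / 4⟩ : WeierstrassCurve k) := by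
    rw [WeierstrassCurve.variableChange_def]
    have hu : ((C0.u⁻¹ : kˣ) : k) = 1 / 2 := by
      show (((Units.mk0 2 h2)⁻¹ : kˣ) : k) = 1 / 2
      rw [Units.val_inv_eq_inv_val, Units.val_mk0, one_div]
    rw [hu]
    ext
    · simp [C0]
    · simp [C0]
    · simp [C0]
      norm_num
    · simp [C0]
    · simp [C0]
      ring
  have key : ∀ W' : WeierstrassCurve k,
      W' = (C * C0) • (⟨0, 0, 0, 0, 16 * (d : k) ^ 3⟩ : WeierstrassCurve k) →
      ∀ P : W'.toAffine.Point, ∃ Q, P = Q + Q := by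
    rintro W' rfl P
    obtain ⟨φ, -⟩ := vc_iso (⟨0, 0, 0, 0, 16 * (d : k) ^ 3⟩ : WeierstrassCurve k) (C * C0)
    have hE : ∀ R : (⟨0, 0, 0, 0, 16 * (d : k) ^ 3⟩ : WeierstrassCurve k).toAffine.Point,
        ∃ Q, R = Q + Q := by
      rw [← zl5_a d]
      exact hEC
    obtain ⟨Q, hQ⟩ := hE (φ P)
    refine ⟨φ.symm Q, φ.injective ?_⟩
    rw [map_add, AddEquiv.apply_symm_apply]
    exact hQ
  exact key _ (by rw [mul_smul, hC0]) P

end H19Z
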