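import Mathlib
import Pool.Agent.Lib.H19Z.L0
import Pool.Agent.Lib.H55B.F3

/-! Chunk ZL6 (S/M): if the discriminant is a unit all points have nonsingular reduction. P = (x, y), v(x) <= 1 (else done). Then
v(y) <= 1: y (y + a1 x + a3) = x^3 + ... is integral, if v(y) > 1 then v(y + a1 x + a3) = v(y) and the product has valuation > 1. Let
W0 be the integral model over O = adicCompletionIntegers (hW), x0, y0 in O; the reduction of W0 in the residue field k0 of O
has discriminant <> 0 (v(Delta) = 1: the residue of the discriminant is not 0), so it is elliptic, (x0, y0) reduces to a solution of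
the equation, so Affine.equation_iff_nonsingular, nonsingular_iff': a1 y - (3x^2 + 2 a2 x + a4) <> 0 or 2y + a1 x + a3 <> 0 in
k0, which means that the lift is not in the maximal ideal, so it has valuation 1 (>= 1). -/

open NumberField IsDedekindDomain

namespace H19Z

open H55B H55C H55E

theorem nonsRed_of_unit {K : Type} [Field K] [NumberField K] (w : HeightOneSpectrum (𝓞 K))
    (W : WeierstrassCurve (w.adicCompletion K))
    (hW : WeierstrassCurve.IsIntegral (w.adicCompletionIntegers K) W)
    (hΔ : Valued.v W.Δ = 1) (P : W.toAffine.Point) : P ∈ NonsRed w W := by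
  rcases P with _ | ⟨x, y, hxy⟩
  · exact Or.inl rfl
  refine Or.inr ⟨x, y, hxy, rfl, ?_⟩
  by_cases hx : 1 < Valued.v x
  · exact Or.inl hx
  right
  rw [not_lt] at hx
  have heq := hxy.1
  rw [WeierstrassCurve.Affine.equation_iff] at heq
  obtain ⟨W0, rfl⟩ := hW.integral
  -- the coefficients
  have ha : ∀ z : w.adicCompletionIntegers K,
      Valued.v (algebraMap (w.adicCompletionIntegers K) (w.adicCompletion K) z) ≤ 1 := fun z => z.2
  simp only [WeierstrassCurve.baseChange, WeierstrassCurve.map_a₁, WeierstrassCurve.map_a₂,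
    WeierstrassCurve.map_a₃, WeierstrassCurve.map_a₄, WeierstrassCurve.map_a₆] at heq ⊢
  have hmul : ∀ {s t : w.adicCompletion K}, Valued.v s ≤ 1 → Valued.v t ≤ 1 → Valued.v (s * t) ≤ 1 := by
    intro s t hs ht
    rw [map_mul]
    exact mul_le_one' hs ht
  have hadd : ∀ {s t : w.adicCompletion K}, Valued.v s ≤ 1 → Valued.v t ≤ 1 → Valued.v (s + t) ≤ 1 :=
    fun hs ht => Valuation.map_add_le _ hs ht
  have hpow : ∀ {s : w.adicCompletion K} (n : ℕ), Valued.v s ≤ 1 → Valued.v (s ^ n) ≤ 1 := by
    intro s n hs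
    rw [map_pow]
    exact pow_le_one' hs n
  -- y is integral
  have hy : Valued.v y ≤ 1 := by
    by_contra hy
    rw [not_le] at hy
    obtain ⟨c, hc⟩ : ∃ c, c = algebraMap (w.adicCompletionIntegers K) (w.adicCompletion K) W0.a₁ * x +
      algebraMap (w.adicCompletionIntegers K) (w.adicCompletion K) W0.a₃ := ⟨_, rfl⟩
    have hc1 : Valued.v c ≤ 1 := by
      rw [hc]
      exact hadd (hmul (ha _) hx) (ha _)
    have h1 : y * (y + c) = x ^ 3 + algebraMap (w.adicCompletionIntegers K) (w.adicCompletion K) W0.a₂ * x ^ 2 +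
      algebraMap (w.adicCompletionIntegers K) (w.adicCompletion K) W0.a₄ * x +
      algebraMap (w.adicCompletionIntegers K) (w.adicCompletion K) W0.a₆ := by
      rw [hc, ← heq]
      ring
    have h2 : Valued.v (y * (y + c)) ≤ 1 := by
      rw [h1]
      exact hadd (hadd (hadd (hpow 3 hx) (hmul (ha _) (hpow 2 hx))) (hmul (ha _) hx)) (ha _)
    have h3 : Valued.v (y + c) = Valued.v y :=
      Valuation.map_add_eq_of_lt_left _ (lt_of_le_of_lt hc1 hy)
    rw [map_mul, h3] at h2
    have h4 : 1 < Valued.v y * Valued.v y := one_lt_mul'' hy hy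
    exact absurd h2 (not_le.2 h4)
  obtain ⟨x0, rfl⟩ : ∃ x0 : w.adicCompletionIntegers K,
    algebraMap (w.adicCompletionIntegers K) (w.adicCompletion K) x0 = x := ⟨⟨x, hx⟩, rfl⟩
  obtain ⟨y0, rfl⟩ : ∃ y0 : w.adicCompletionIntegers K,
    algebraMap (w.adicCompletionIntegers K) (w.adicCompletion K) y0 = y := ⟨⟨y, hy⟩, rfl⟩
  have hinj : Function.Injective (algebraMap (w.adicCompletionIntegers K) (w.adicCompletion K)) :=
    Subtype.coe_injective
  have heq0 : y0 ^ 2 + W0.a₁ * x0 * y0 + W0.a₃ * y0 = x0 ^ 3 + W0.a₂ * x0 ^ 2 + W0.a₄ * x0 + W0.a₆ := by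
    apply hinj
    simp only [map_add, map_mul, map_pow]
    exact heq
  obtain ⟨ρ, hρ⟩ : ∃ ρ, ρ = IsLocalRing.residue (w.adicCompletionIntegers K) := ⟨_, rfl⟩
  -- unit discriminant
  have hΔ0 : (W0.map ρ).Δ ≠ 0 := by
    rw [WeierstrassCurve.map_Δ, hρ]
    intro h
    rw [IsLocalRing.residue_eq_zero_iff, F3_mem_maximalIdeal] at h
    have h5 : ((W0.baseChange (w.adicCompletion K)).Δ) =
      algebraMap (w.adicCompletionIntegers K) (w.adicCompletion K) W0.Δ := by
      rw [WeierstrassCurve.baseChange, WeierstrassCurve.map_Δ]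
    rw [h5] at hΔ
    exact absurd hΔ (ne_of_lt h)
  have hell : (W0.map ρ).IsElliptic := ⟨isUnit_iff_ne_zero.2 hΔ0⟩
  have heq1 : (W0.map ρ).toAffine.Equation (ρ x0) (ρ y0) := by
    rw [WeierstrassCurve.Affine.equation_iff]
    have h6 := congrArg ρ heq0
    simp only [map_add, map_mul, map_pow] at h6
    simpa only [WeierstrassCurve.map_a₁, WeierstrassCurve.map_a₂, WeierstrassCurve.map_a₃,
      WeierstrassCurve.map_a₄, WeierstrassCurve.map_a₆] using h6
  rw [WeierstrassCurve.Affine.equation_iff_nonsingular, WeierstrassCurve.Affine.nonsingular_iff'] at heq1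
  simp only [WeierstrassCurve.map_a₁, WeierstrassCurve.map_a₂, WeierstrassCurve.map_a₃,
    WeierstrassCurve.map_a₄, WeierstrassCurve.map_a₆] at heq1
  have hunit : ∀ z : w.adicCompletionIntegers K, ρ z ≠ 0 →
      1 ≤ Valued.v (algebraMap (w.adicCompletionIntegers K) (w.adicCompletion K) z) := by
    intro z hz
    by_contra hlt
    rw [not_le] at hlt
    apply hz
    rw [hρ, IsLocalRing.residue_eq_zero_iff, F3_mem_maximalIdeal]
    exact hlt
  rcases heq1.2 with h7 | h7
  · left
    have h8 := hunit (3 * x0 ^ 2 + 2 * W0.a₂ * x0 + W0.a₄ - W0.a₁ * y0) (by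
      intro h9
      apply h7
      simp only [map_add, map_sub, map_mul, map_pow, map_ofNat] at h9
      linear_combination -h9)
    simpa only [map_add, map_sub, map_mul, map_pow, map_ofNat] using h8
  · right
    have h8 := hunit (2 * y0 + W0.a₁ * x0 + W0.a₃) (by
      intro h9
      apply h7
      simp only [map_add, map_sub, map_mul, map_pow, map_ofNat] at h9
      linear_combination h9)
    simpa only [map_add, map_sub, map_mul, map_pow, map_ofNat] using h8

end H19Z
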