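import Mathlib
import Pool.Agent.Lib.H55B.F3
import Pool.Agent.Lib.H55C.W8
import Pool.Agent.Lib.H55E.Defs

/-! Chunk ZL7 (M): the discriminant factor. W' = minimal model = C • W (Mathlib: WeierstrassCurve.minimal is
(exists_isMinimal).choose • W), W'.Δ = u^(-12) W.Δ (variableChange_Δ). Minimality (IsMinimal.val_Δ_maximal, valuation_Δ_aux_eq_of_isIntegral,
applied to the integral equation W = C^(-1) • W'; the valuation there is the valuation of the maximal ideal of
adicCompletionIntegers, = Valued.v: H55C.valuation_compl or bad3_local in H19Z/G.lean and H55E/L4, L5 show how to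
compare): v(W'.Δ) >= v(W.Δ), so v(u^(-1)) >= 1, v(u^(-1)) = exp(n), n a natural number. ‖x‖ = toNNReal (v x) (NumberField.FinitePlace.norm_def), so
‖u^(-1)‖ = (absNorm w)^n, and ‖W'.Δ/W.Δ‖^(1/12) = (‖u^(-1)‖^12)^(1/12) = ‖u^(-1)‖ (Real.rpow, Real.pow_rpow_inv_natCast). If
v(W.Δ) = 1 then 1 >= v(W'.Δ) >= 1 and n = 0. -/

open NumberField IsDedekindDomain

namespace H19Z

open H55B H55C H55E

/-- The valuation of the completed local ring is the valuation of the completion. -/
theorem zl7_val {K : Type} [Field K] [NumberField K] (w : HeightOneSpectrum (𝓞 K))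
    (y : w.adicCompletion K) :
    (IsDiscreteValuationRing.maximalIdeal (w.adicCompletionIntegers K)).valuation
      (w.adicCompletion K) y = Valued.v y := by
  by_cases hy : y = 0
  · rw [hy, map_zero, map_zero]
  obtain ⟨M, hM⟩ : ∃ M, M = IsDiscreteValuationRing.maximalIdeal (w.adicCompletionIntegers K) :=
    ⟨_, rfl⟩
  have hunit : ∀ u : w.adicCompletion K, Valued.v u = 1 → M.valuation (w.adicCompletion K) u = 1 := by
    intro u hu
    have hum : u ∈ w.adicCompletionIntegers K := by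
      rw [HeightOneSpectrum.mem_adicCompletionIntegers, hu]
    have h1 : u = algebraMap (w.adicCompletionIntegers K) (w.adicCompletion K) ⟨u, hum⟩ := rfl
    have h2 : IsUnit (⟨u, hum⟩ : w.adicCompletionIntegers K) := by
      rw [HeightOneSpectrum.adicCompletionIntegers.isUnit_iff_valued_eq_one]
      exact hu
    rw [h1, HeightOneSpectrum.valuation_of_algebraMap]
    rw [HeightOneSpectrum.intValuation_eq_one_iff]
    intro h3
    rw [hM] at h3
    have h4 : (⟨u, hum⟩ : w.adicCompletionIntegers K) ∈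
        IsLocalRing.maximalIdeal (w.adicCompletionIntegers K) := h3
    rw [F3_mem_maximalIdeal] at h4
    exact absurd hu (ne_of_lt h4)
  rw [← hM]
  obtain ⟨π, hπ⟩ := w.valuation_exists_uniformizer K
  have hπ0 : π ≠ 0 := by
    intro h
    rw [h, map_zero] at hπ
    exact WithZero.exp_ne_zero hπ.symm
  have hy0 : Valued.v y ≠ 0 := (Valuation.ne_zero_iff _).2 hy
  obtain ⟨n, hn⟩ : ∃ n : ℤ, Valued.v y = WithZero.exp n := ⟨_, (WithZero.exp_log hy0).symm⟩
  have hk : w.valuation K (π ^ n) = WithZero.exp (-n) := by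
    rw [map_zpow₀, hπ, ← WithZero.exp_zsmul]
    congr 1
    simp
  have hkv : Valued.v (algebraMap K (w.adicCompletion K) (π ^ n)) = w.valuation K (π ^ n) :=
    HeightOneSpectrum.valuedAdicCompletion_eq_valuation' w _
  have hkM : M.valuation (w.adicCompletion K) (algebraMap K (w.adicCompletion K) (π ^ n)) =
      w.valuation K (π ^ n) := by
    rw [hM]
    exact valuation_compl K w _
  have hu : Valued.v (y * algebraMap K (w.adicCompletion K) (π ^ n)) = 1 := by
    rw [map_mul, hkv, hk, hn, ← WithZero.exp_add, add_neg_cancel, WithZero.exp_zero]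
  have h5 := hunit _ hu
  rw [map_mul, hkM, hk] at h5
  rw [map_mul, hkv, hk] at hu
  have h6 : (WithZero.exp (-n) : WithZero (Multiplicative ℤ)) ≠ 0 := WithZero.exp_ne_zero
  exact mul_right_cancel₀ h6 (h5.trans hu.symm)

/-- The norm of an element of valuation exp n. -/
theorem zl7_norm {K : Type} [Field K] [NumberField K] (w : HeightOneSpectrum (𝓞 K))
    (y : w.adicCompletion K) (n : ℕ) (hy : Valued.v y = WithZero.exp (n : ℤ)) :
    ‖y‖ = (Ideal.absNorm w.asIdeal : ℝ) ^ n := by
  have h := FinitePlace.norm_def (v := w) y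
  rw [hy, WithZeroMulInt.toNNReal_neg_apply _ WithZero.exp_ne_zero] at h
  rw [h]
  have e : (WithZero.unzero (WithZero.exp_ne_zero (a := (n : ℤ)))).toAdd = (n : ℤ) := by
    have h1 : ((WithZero.unzero (WithZero.exp_ne_zero (a := (n : ℤ))) : Multiplicative ℤ) :
      WithZero (Multiplicative ℤ)) = WithZero.exp (n : ℤ) := WithZero.coe_unzero _
    have h2 : WithZero.unzero (WithZero.exp_ne_zero (a := (n : ℤ))) = Multiplicative.ofAdd (n : ℤ) := by
      exact WithZero.coe_inj.1 h1
    rw [h2]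
    rfl
  rw [e, zpow_natCast]
  push_cast
  rfl

theorem disc_factor {K : Type} [Field K] [NumberField K] (w : HeightOneSpectrum (𝓞 K))
    (W : WeierstrassCurve (w.adicCompletion K))
    (hW : WeierstrassCurve.IsIntegral (w.adicCompletionIntegers K) W) (hΔ : W.Δ ≠ 0) :
    ∃ n : ℕ, ‖(W.minimal (w.adicCompletionIntegers K)).Δ / W.Δ‖ ^ (1 / 12 : ℝ) =
        (Ideal.absNorm w.asIdeal : ℝ) ^ n ∧
      (Valued.v W.Δ = 1 → n = 0 ∧ Valued.v (W.minimal (w.adicCompletionIntegers K)).Δ = 1) := by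
  obtain ⟨C, hC⟩ : ∃ C : WeierstrassCurve.VariableChange (w.adicCompletion K),
    W.minimal (w.adicCompletionIntegers K) = C • W := ⟨_, rfl⟩
  have hmin : WeierstrassCurve.IsMinimal (w.adicCompletionIntegers K)
    (W.minimal (w.adicCompletionIntegers K)) := inferInstance
  have hint : WeierstrassCurve.IsIntegral (w.adicCompletionIntegers K)
    (W.minimal (w.adicCompletionIntegers K)) := inferInstance
  obtain ⟨W', hW'⟩ : ∃ W', W' = W.minimal (w.adicCompletionIntegers K) := ⟨_, rfl⟩
  rw [← hW'] at hC hmin hint ⊢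
  have hCi : C⁻¹ • W' = W := by rw [hC, inv_smul_smul]
  have hmax := hmin.val_Δ_maximal
  have h1 : WeierstrassCurve.valuation_Δ_aux (w.adicCompletionIntegers K) (C⁻¹ • W') ≤
      WeierstrassCurve.valuation_Δ_aux (w.adicCompletionIntegers K)
        ((1 : WeierstrassCurve.VariableChange (w.adicCompletion K)) • W') := by
    rcases le_total (WeierstrassCurve.valuation_Δ_aux (w.adicCompletionIntegers K)
      ((1 : WeierstrassCurve.VariableChange (w.adicCompletion K)) • W'))
      (WeierstrassCurve.valuation_Δ_aux (w.adicCompletionIntegers K) (C⁻¹ • W')) with h | h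
    · exact hmax.2 (by show WeierstrassCurve.IsIntegral _ (C⁻¹ • W'); rw [hCi]; exact hW) h
    · exact h
  rw [hCi, one_smul] at h1
  have h2 : Valued.v W.Δ ≤ Valued.v W'.Δ := by
    have h3 := Subtype.coe_le_coe.2 h1
    rw [WeierstrassCurve.valuation_Δ_aux_eq_of_isIntegral,
      WeierstrassCurve.valuation_Δ_aux_eq_of_isIntegral, zl7_val, zl7_val] at h3
    exact h3
  have hΔ' : W'.Δ = ((C.u⁻¹ : (w.adicCompletion K)ˣ) : w.adicCompletion K) ^ 12 * W.Δ := by
    rw [hC, WeierstrassCurve.variableChange_Δ]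
  obtain ⟨t, ht⟩ : ∃ t : w.adicCompletion K, t = ((C.u⁻¹ : (w.adicCompletion K)ˣ) : w.adicCompletion K) :=
    ⟨_, rfl⟩
  have ht0 : t ≠ 0 := by
    rw [ht]
    exact Units.ne_zero _
  rw [← ht] at hΔ'
  have hv0 : Valued.v W.Δ ≠ 0 := (Valuation.ne_zero_iff _).2 hΔ
  have hvt0 : Valued.v t ≠ 0 := (Valuation.ne_zero_iff _).2 ht0
  obtain ⟨n, hn⟩ : ∃ n : ℤ, Valued.v t = WithZero.exp n := ⟨_, (WithZero.exp_log hvt0).symm⟩
  have hn0 : 0 ≤ n := by
    by_contra hneg
    rw [hΔ', map_mul, map_pow, hn, ← WithZero.exp_nsmul] at h2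
    have h4 : (WithZero.exp ((12 : ℕ) • n) : WithZero (Multiplicative ℤ)) < 1 := by
      rw [← WithZero.exp_zero, WithZero.exp_lt_exp]
      simp only [nsmul_eq_mul]
      push_cast
      omega
    have h5 : WithZero.exp ((12 : ℕ) • n) * Valued.v W.Δ < 1 * Valued.v W.Δ :=
      (mul_lt_mul_iff_left₀ (zero_lt_iff.2 hv0)).2 h4
    rw [one_mul] at h5
    exact absurd h2 (not_le.2 h5)
  obtain ⟨m, rfl⟩ := Int.eq_ofNat_of_zero_le hn0
  refine ⟨m, ?_, ?_⟩
  · have h6 : W'.Δ / W.Δ = t ^ 12 := by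
      rw [hΔ']
      field_simp
    rw [h6, norm_pow, ← zl7_norm w t m hn]
    have h7 := Real.pow_rpow_inv_natCast (norm_nonneg t) (n := 12) (by norm_num)
    rw [show (1 / 12 : ℝ) = (((12 : ℕ) : ℝ))⁻¹ by norm_num]
    exact h7
  · intro h1
    have h8 : Valued.v W'.Δ ≤ 1 := by
      obtain ⟨r, hr⟩ := WeierstrassCurve.Δ_integral_of_isIntegral (w.adicCompletionIntegers K) W'
      rw [← hr]
      exact r.2
    have h9 : Valued.v W'.Δ = 1 := le_antisymm h8 (by rw [← h1]; exact h2)
    refine ⟨?_, h9⟩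
    rw [hΔ', map_mul, map_pow, h1, mul_one, hn, ← WithZero.exp_nsmul, ← WithZero.exp_zero,
      WithZero.exp_inj] at h9
    simp only [nsmul_eq_mul] at h9
    push_cast at h9
    omega

end H19Z
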