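import Mathlib
import Pool.Agent.Lib.H19Y.Y0
import Pool.Agent.Lib.H19Z.T1

open NumberField IsDedekindDomain

namespace H19Z

open H55B H55C H55E H55N H19X H19Y

variable {K : Type} [Field K] [NumberField K] [Algebra F K]

theorem val_two (hU : UnrT K) (w : HeightOneSpectrum (𝓞 K)) (h2 : (2 : 𝓞 K) ∈ w.asIdeal) :
    w.valuation K (2 : K) = WithZero.exp (-1 : ℤ) := by
  have h := Z1_val w 2 two_prime (by rw [map_ofNat]; exact h2)
  rw [hU w h2, pow_one, map_ofNat] at h
  exact h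

theorem SubT.inertia (h : SubT K) (w : HeightOneSpectrum (𝓞 K)) :
    ∃ j : ℕ, w.asIdeal.inertiaDeg O = 2 ^ j := Z1_inertia h w

theorem odd_discr (K : Type) [Field K] [NumberField K] [Algebra F K] (hK : UnrT K) :
    Odd (NumberField.discr K) := by
  rw [← Int.not_even_iff_odd, even_iff_two_dvd,
    NumberField.not_dvd_discr_iff_forall_mem K (𝓞 K) Int.prime_two]
  intro P hP h2
  have hPne : P ≠ ⊥ := by
    rintro rfl
    rw [Ideal.mem_bot] at h2
    norm_num at h2
  let w : HeightOneSpectrum (𝓞 K) := ⟨P, hP, hPne⟩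
  have hv : (P.under O).IsPrime := inferInstance
  have h2v : (2 : O) ∈ P.under O := by
    rw [Ideal.under_def, Ideal.mem_comap, map_ofNat]
    exact_mod_cast h2
  have h2w : (2 : 𝓞 K) ∈ w.asIdeal := by exact_mod_cast h2
  have he : P.ramificationIdx O = 1 := hK w h2w
  have hF := (NumberField.not_dvd_discr_iff_forall_mem F O Int.prime_two).1 W7_discrF
    (P.under O) hv (by exact_mod_cast h2v)
  have he2 : (P.under O).ramificationIdx ℤ = 1 := Ideal.ramificationIdx_eq_one_iff.2 hF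
  have ht := Ideal.ramificationIdx_tower (R := ℤ) (P.under O) P
  rw [he, he2, mul_one] at ht
  exact Ideal.ramificationIdx_eq_one_iff.1 ht

variable {K₀ : Type} [Field K₀] [NumberField K₀]

theorem odd_discr0 (K : Type) [Field K] [NumberField K] [Algebra F K] [Algebra K₀ K] (hU : UnrT K) :
    Odd (NumberField.discr K₀) := by
  obtain ⟨z, hz⟩ := NumberField.discr_dvd_discr K₀ K
  have h := odd_discr K hU
  rw [hz, Int.odd_mul] at h
  exact h.1

/-- The valuation of 3 at a prime of a subfield of K. -/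
theorem val0_three (K : Type) [Field K] [NumberField K] [Algebra F K] [Algebra K₀ K] (hS : SubT K)
    (w' : HeightOneSpectrum (𝓞 K₀)) (h3 : (3 : 𝓞 K₀) ∈ w'.asIdeal) :
    ∃ e : ℕ, ¬ 3 ∣ e ∧ w'.valuation K₀ (3 : K₀) = WithZero.exp (-(e : ℤ)) := by
  obtain ⟨w, e, hw, he, hv⟩ := H13E.q5_above K w'
  obtain ⟨e1, he1, h1⟩ := Z1_nine hS w ((H13E.q5_mem w' w hw 3).1 h3)
  have h4 := hv 3
  rw [map_ofNat, h1] at h4
  obtain ⟨k, hk, hk2⟩ := H13E.q5_val w' three_ne_zero h4
  have h5 : k ≤ 0 := by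
    by_contra h
    push Not at h
    have : 0 < (e : ℤ) := by exact_mod_cast Nat.pos_of_ne_zero he
    nlinarith
  refine ⟨k.natAbs, ?_, ?_⟩
  · intro h6
    apply he1
    have h7 : (3 : ℤ) ∣ k := Int.natCast_dvd.2 h6
    have h8 : (3 : ℤ) ∣ -(e1 : ℤ) := by
      rw [hk2]
      exact Dvd.dvd.mul_left h7 _
    rw [dvd_neg] at h8
    exact_mod_cast h8
  · rw [hk]
    congr 1
    omega

end H19Z
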