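import Mathlib
import Pool.Agent.Lib.H19Z.Y0

/-! Cubes modulo primes. -/

open NumberField IsDedekindDomain

namespace H19Z

open H55B H55C H55E H55N H19X H19Y

variable {K₀ : Type} [Field K₀] [NumberField K₀]

/-- 2 is not a cube modulo primes of K above primes modulo which it is not a cube -/
theorem nocubeT (K : Type) [Field K] [NumberField K] [Algebra F K] (hS : SubT K)
    (W : HeightOneSpectrum (𝓞 K)) (hno : ¬ ∃ x : O, x ^ 3 - 2 ∈ W.asIdeal.under O) (u : 𝓞 K)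
    (hu : u ^ 3 - 2 ∈ W.asIdeal) : False := by
  obtain ⟨j, hj⟩ := SubT.inertia hS W
  have hp : (W.asIdeal.under O).IsPrime := inferInstance
  have hl : W.asIdeal.LiesOver (W.asIdeal.under O) := ⟨rfl⟩
  have hne : W.asIdeal.under O ≠ ⊥ := by
    intro h
    have h1 := Ideal.eq_bot_of_comap_eq_bot (R := O) (I := W.asIdeal) h
    exact W.ne_bot h1
  have hmax : (W.asIdeal.under O).IsMaximal := hp.isMaximal hne
  have hWm := W.isMaximal
  rw [Ideal.inertiaDeg_eq_of_isMaximal (W.asIdeal.under O) W.asIdeal] at hj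
  let : Field (O ⧸ W.asIdeal.under O) := Ideal.Quotient.field _
  let : Field (𝓞 K ⧸ W.asIdeal) := Ideal.Quotient.field _
  have hirr : Irreducible (Polynomial.X ^ 3 - Polynomial.C (2 : O ⧸ W.asIdeal.under O)) := by
    refine X_pow_sub_C_irreducible_of_prime Nat.prime_three ?_
    intro b hb
    obtain ⟨x, rfl⟩ := Ideal.Quotient.mk_surjective b
    apply hno
    refine ⟨x, ?_⟩
    rw [← Ideal.Quotient.eq_zero_iff_mem, map_sub, map_pow, hb, map_ofNat, sub_self]
  have hroot : Polynomial.aeval (Ideal.Quotient.mk W.asIdeal u)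
      (Polynomial.X ^ 3 - Polynomial.C (2 : O ⧸ W.asIdeal.under O)) = 0 := by
    rw [map_sub, map_pow, Polynomial.aeval_X, Polynomial.aeval_C, map_ofNat]
    have h1 := Ideal.Quotient.eq_zero_iff_mem.2 hu
    rw [map_sub, map_pow, map_ofNat] at h1
    exact h1
  have hmin := minpoly.eq_of_irreducible_of_monic hirr hroot
    (Polynomial.monic_X_pow_sub_C _ three_ne_zero)
  have hfin : FiniteDimensional (O ⧸ W.asIdeal.under O) (𝓞 K ⧸ W.asIdeal) := by
    apply FiniteDimensional.of_finrank_pos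
    rw [hj]
    positivity
  have hdvd : (minpoly (O ⧸ W.asIdeal.under O) (Ideal.Quotient.mk W.asIdeal u)).natDegree ∣
      Module.finrank (O ⧸ W.asIdeal.under O) (𝓞 K ⧸ W.asIdeal) :=
    minpoly.degree_dvd (IsIntegral.of_finite _ _)
  rw [← hmin, Polynomial.natDegree_X_pow_sub_C, hj] at hdvd
  have h3 := Nat.prime_three.dvd_of_dvd_pow hdvd
  omega

theorem cubeT (K : Type) [Field K] [NumberField K] [Algebra F K] [Algebra K₀ K] (hS : SubT K)
    (d : ℤ) (hd : AdmD d) (w : HeightOneSpectrum (𝓞 K₀)) (hdw : (d : 𝓞 K₀) ∈ w.asIdeal)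
    (u : 𝓞 K₀) (hu : u ^ 3 - 2 ∈ w.asIdeal) : False := by
  obtain ⟨Q, hQ, hQl⟩ := Ideal.exists_maximal_ideal_liesOver_of_isIntegral (S := 𝓞 K) w.asIdeal
  have hunder : w.asIdeal = Q.under (𝓞 K₀) := hQl.over
  have hQ0 : Q ≠ ⊥ := by
    rintro rfl
    apply w.ne_bot
    rw [hunder]
    exact Ideal.under_bot (𝓞 K₀) (𝓞 K)
  obtain ⟨W, hW⟩ : ∃ W : HeightOneSpectrum (𝓞 K), W.asIdeal = Q := ⟨⟨Q, hQ.isPrime, hQ0⟩, rfl⟩
  rw [← hW] at hunder
  have hwp := w.isPrime
  have hn : (d.natAbs : 𝓞 K₀) ∈ w.asIdeal := by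
    rw [← Int.cast_natCast]
    rcases Int.natAbs_eq d with h | h
    · have h' : ((d.natAbs : ℤ) : 𝓞 K₀) = (d : 𝓞 K₀) := congrArg (Int.cast) h.symm
      rw [h']
      exact hdw
    · have h' : ((d.natAbs : ℤ) : 𝓞 K₀) = -(d : 𝓞 K₀) := by
        rw [← Int.cast_neg]
        exact congrArg (Int.cast) (by omega)
      rw [h']
      exact w.asIdeal.neg_mem hdw
  obtain ⟨l, hl, hld, hlw⟩ := ET1_prime w.asIdeal d.natAbs (Int.natAbs_ne_zero.2 hd.ne_zero) hn
  have hlW : (l : 𝓞 K) ∈ W.asIdeal := by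
    have h1 : (l : 𝓞 K₀) ∈ W.asIdeal.under (𝓞 K₀) := hunder ▸ hlw
    rw [Ideal.mem_under] at h1
    rwa [map_natCast] at h1
  have hlv : (l : O) ∈ W.asIdeal.under O := by
    rw [Ideal.mem_under, map_natCast]
    exact hlW
  have hp : (W.asIdeal.under O).IsPrime := inferInstance
  have hne : W.asIdeal.under O ≠ ⊥ := by
    intro h
    have h1 := Ideal.eq_bot_of_comap_eq_bot (R := O) (I := W.asIdeal) h
    exact W.ne_bot h1
  obtain ⟨hg1, hg2⟩ := hd.good l hl (Int.natCast_dvd.2 hld)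
  have hgood := H55D.X3_good ⟨W.asIdeal.under O, hp, hne⟩ l hl hlv hg1 hg2
  refine nocubeT K hS W hgood.2.2 (algebraMap (𝓞 K₀) (𝓞 K) u) ?_
  have h1 : u ^ 3 - 2 ∈ W.asIdeal.under (𝓞 K₀) := hunder ▸ hu
  rw [Ideal.mem_under, map_sub, map_pow, map_ofNat] at h1
  exact h1

/-- If 2 is a cube modulo a prime of K then it is a cube modulo the prime of F below it. -/
theorem cube_baseT {K : Type} [Field K] [NumberField K] [Algebra F K] (hS : SubT K)
    (w : HeightOneSpectrum (𝓞 K)) (y : 𝓞 K) (hy : y ^ 3 - 2 ∈ w.asIdeal) :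
    ∃ z : O, z ^ 3 - 2 ∈ w.asIdeal.under O := by
  by_contra h
  exact nocubeT K hS w h y hy

end H19Z
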