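import Mathlib
import Pool.Agent.Lib.H19Z.G
import Pool.Agent.Lib.H19Z.L2
import Pool.Agent.Lib.H19Z.L3
import Pool.Agent.Lib.H19Z.L4
import Pool.Agent.Lib.H19Z.L5
import Pool.Agent.Lib.H19Z.L6
import Pool.Agent.Lib.H19Z.L7
import Pool.Agent.Lib.H19Z.Y6
import Pool.Agent.Lib.H55C.W13
import Pool.Agent.Lib.H55N.E9

/-! The local terms are odd natural numbers. -/

open NumberField IsDedekindDomain WeierstrassCurve

namespace H19Z

open H55B H55C H55E H55N H19X H19Y

/-- A subgroup of finite index of a group divisible by 2 has odd index. -/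
theorem odd_index {G : Type*} [AddCommGroup G] (H : AddSubgroup G) (h0 : H.index ≠ 0)
    (h2 : ∀ P : G, ∃ Q : G, P = Q + Q) : Odd H.index := by
  classical
  haveI : H.FiniteIndex := ⟨h0⟩
  haveI : Finite (G ⧸ H) := H.finite_quotient_of_finiteIndex
  by_contra hodd
  rw [Nat.not_odd_iff_even] at hodd
  have hcard : H.index = Nat.card (G ⧸ H) := rfl
  rw [hcard] at hodd
  haveI : Fact (Nat.Prime 2) := ⟨Nat.prime_two⟩
  obtain ⟨x, hx⟩ := exists_prime_addOrderOf_dvd_card' (G := G ⧸ H) 2 hodd.two_dvd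
  -- multiplication by 2 is surjective, so injective
  have hsurj : Function.Surjective (fun y : G ⧸ H => y + y) := by
    intro y
    obtain ⟨P, rfl⟩ := QuotientAddGroup.mk_surjective y
    obtain ⟨Q, hQ⟩ := h2 P
    exact ⟨QuotientAddGroup.mk Q, by rw [hQ]; rfl⟩
  have hinj : Function.Injective (fun y : G ⧸ H => y + y) := Finite.injective_iff_surjective.2 hsurj
  have h1 : x + x = 0 := by
    have h3 := addOrderOf_nsmul_eq_zero x
    rw [hx, two_nsmul] at h3
    exact h3
  have h4 : x = 0 := hinj (by simpa using h1)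
  rw [h4, addOrderOf_zero] at hx
  omega

theorem compl_charZero (K : Type) [Field K] [NumberField K] (w : HeightOneSpectrum (𝓞 K)) :
    CharZero (w.adicCompletion K) :=
  charZero_of_injective_algebraMap (algebraMap K (w.adicCompletion K)).injective

theorem Ew_eq (d : ℤ) (K : Type) [Field K] [NumberField K] (w : HeightOneSpectrum (𝓞 K)) :
    Ew d K w = ⟨0, 0, 1, 0, ((d : w.adicCompletion K) ^ 3 - 1) / 4⟩ := by
  have e4 : algebraMap K (w.adicCompletion K) 4 = 4 := map_ofNat _ 4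
  unfold Ew
  ext <;> simp [Ed, WeierstrassCurve.baseChange, e4]

theorem Ew_Δ (d : ℤ) (K : Type) [Field K] [NumberField K] (w : HeightOneSpectrum (𝓞 K)) :
    (Ew d K w).Δ = -(27 * (d : w.adicCompletion K) ^ 6) := by
  have := compl_charZero K w
  rw [Ew_eq, L4_Δ]
  have e : 1 + 4 * (((d : w.adicCompletion K) ^ 3 - 1) / 4) = (d : w.adicCompletion K) ^ 3 := by
    field_simp
    ring
  rw [e]
  ring

theorem Ew_integral (d : ℤ) (hd : d % 4 = 1) (K : Type) [Field K] [NumberField K]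
    (w : HeightOneSpectrum (𝓞 K)) :
    WeierstrassCurve.IsIntegral (w.adicCompletionIntegers K) (Ew d K w) := by
  have := compl_charZero K w
  rw [Ew_eq]
  apply isIntegral_of_exists_lift
  · exact ⟨0, map_zero _⟩
  · exact ⟨0, map_zero _⟩
  · exact ⟨1, map_one _⟩
  · exact ⟨0, map_zero _⟩
  · obtain ⟨c, hc⟩ : ∃ c : ℤ, d ^ 3 - 1 = 4 * c := by
      obtain ⟨e, he⟩ : ∃ e : ℤ, d = 1 + 4 * e := ⟨d / 4, by omega⟩
      exact ⟨3 * e + 12 * e ^ 2 + 16 * e ^ 3, by rw [he]; ring⟩
    refine ⟨(c : w.adicCompletionIntegers K), ?_⟩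
    rw [map_intCast]
    have h := congrArg (fun z : ℤ => (z : w.adicCompletion K)) hc
    push_cast at h
    show (c : w.adicCompletion K) = ((d : w.adicCompletion K) ^ 3 - 1) / 4
    rw [h]
    field_simp

/-- An odd prime has odd norm. -/
theorem norm_odd {K : Type} [Field K] [NumberField K] (w : HeightOneSpectrum (𝓞 K))
    (h2 : (2 : 𝓞 K) ∉ w.asIdeal) : Odd (Ideal.absNorm w.asIdeal) := by
  have hwm := w.isMaximal
  apply E9_odd
  rw [Ideal.isCoprime_iff_sup_eq]
  by_contra h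
  have h3 : w.asIdeal ⊔ Ideal.span {2} = w.asIdeal :=
    (hwm.eq_of_le h le_sup_left).symm
  apply h2
  rw [← h3]
  exact Ideal.mem_sup_right (Ideal.mem_span_singleton_self 2)

/-- The minimal model and the change of variables. -/
theorem Wd_eq (d : ℤ) (K : Type) [Field K] [NumberField K] (w : HeightOneSpectrum (𝓞 K)) :
    ∃ C : VariableChange (w.adicCompletion K), Wd d K w = C • Ew d K w :=
  ⟨_, rfl⟩

theorem Wd_integral (d : ℤ) (K : Type) [Field K] [NumberField K] (w : HeightOneSpectrum (𝓞 K)) :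
    WeierstrassCurve.IsIntegral (w.adicCompletionIntegers K) (Wd d K w) := by
  unfold Wd
  infer_instance

theorem Ew_Δ_ne (d : ℤ) (hd : d ≠ 0) (K : Type) [Field K] [NumberField K]
    (w : HeightOneSpectrum (𝓞 K)) : (Ew d K w).Δ ≠ 0 := by
  have := compl_charZero K w
  rw [Ew_Δ]
  have h : (d : w.adicCompletion K) ≠ 0 := Int.cast_ne_zero.2 hd
  exact neg_ne_zero.2 (mul_ne_zero (by norm_num) (pow_ne_zero _ h))

theorem Ew_elliptic (d : ℤ) (hd : d ≠ 0) (K : Type) [Field K] [NumberField K]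
    (w : HeightOneSpectrum (𝓞 K)) : (Ew d K w).IsElliptic :=
  ⟨isUnit_iff_ne_zero.2 (Ew_Δ_ne d hd K w)⟩

/-- The gap for the points of E_d gives a gap for the points of the minimal model. -/
theorem gap_Wd (d : ℤ) (hd : d ≠ 0) (K : Type) [Field K] [NumberField K]
    (w : HeightOneSpectrum (𝓞 K)) (δ : WithZero (Multiplicative ℤ)) (hδ : δ ≠ 0)
    (hgap : ∀ x : w.adicCompletion K, δ ≤ Valued.v (4 * x ^ 3 + (d : w.adicCompletion K) ^ 3)) :
    ∃ γ : WithZero (Multiplicative ℤ), γ ≠ 0 ∧ ∀ x y : w.adicCompletion K,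
      (Wd d K w).toAffine.Equation x y →
        γ ≤ Valued.v (2 * y + (Wd d K w).a₁ * x + (Wd d K w).a₃) := by
  classical
  have := compl_charZero K w
  have hell := Ew_elliptic d hd K w
  obtain ⟨C, hC⟩ := Wd_eq d K w
  obtain ⟨φ, hφ⟩ := vc_iso (Ew d K w) C
  have hu : (C.u : w.adicCompletion K) ≠ 0 := C.u.ne_zero
  have hvu : Valued.v (C.u : w.adicCompletion K) ≠ 0 := (Valuation.ne_zero_iff _).2 hu
  refine ⟨(Valued.v (C.u : w.adicCompletion K))⁻¹ ^ 3 * min δ 1, ?_, fun x y h => ?_⟩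
  · refine mul_ne_zero (pow_ne_zero _ (inv_ne_zero hvu)) ?_
    rcases min_choice δ 1 with h | h <;> rw [h]
    · exact hδ
    · exact one_ne_zero
  · rw [hC] at h ⊢
    have hns : (C • Ew d K w).toAffine.Nonsingular x y :=
      (Affine.equation_iff_nonsingular (W := (C • Ew d K w).toAffine)).1 h
    obtain ⟨h', -⟩ := hφ x y hns
    obtain ⟨X, hX⟩ : ∃ X, X = (C.u : w.adicCompletion K) ^ 2 * x + C.r := ⟨_, rfl⟩
    obtain ⟨Y, hY⟩ : ∃ Y, Y = (C.u : w.adicCompletion K) ^ 3 * y +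
      (C.u : w.adicCompletion K) ^ 2 * C.s * x + C.t := ⟨_, rfl⟩
    rw [← hX, ← hY] at h'
    have h1 : (2 * Y + 1) ^ 2 = 4 * X ^ 3 + (d : w.adicCompletion K) ^ 3 := by
      have h2 := h'.1
      rw [Ew_eq, Affine.equation_iff] at h2
      simp only at h2
      have h3 : 4 * (((d : w.adicCompletion K) ^ 3 - 1) / 4) = (d : w.adicCompletion K) ^ 3 - 1 := by
        field_simp
      linear_combination 4 * h2 + h3
    have h2 : 2 * y + (C • Ew d K w).a₁ * x + (C • Ew d K w).a₃ =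
        ((C.u : w.adicCompletion K))⁻¹ ^ 3 * (2 * Y + 1) := by
      rw [variableChange_a₁, variableChange_a₃, Ew_eq, hY, Units.val_inv_eq_inv_val]
      simp only
      field_simp
      ring
    rw [h2, map_mul, map_pow, map_inv₀]
    refine mul_le_mul' le_rfl ?_
    by_contra hlt
    push Not at hlt
    have h4 : Valued.v (2 * Y + 1) ^ 2 < δ := by
      have h5 : Valued.v (2 * Y + 1) < 1 := lt_of_lt_of_le hlt (min_le_right _ _)
      calc Valued.v (2 * Y + 1) ^ 2 = Valued.v (2 * Y + 1) * Valued.v (2 * Y + 1) := pow_two _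
        _ ≤ Valued.v (2 * Y + 1) * 1 := mul_le_mul' le_rfl h5.le
        _ = Valued.v (2 * Y + 1) := mul_one _
        _ < δ := lt_of_lt_of_le hlt (min_le_left _ _)
    rw [← map_pow, h1] at h4
    exact absurd (hgap X) (not_le.2 h4)

/-- The index is odd if the points are divisible by 2 and the points are far from the points of order 2. -/
theorem cw_odd (d : ℤ) (hd : d ≠ 0) (K : Type) [Field K] [NumberField K]
    (w : HeightOneSpectrum (𝓞 K)) (δ : WithZero (Multiplicative ℤ)) (hδ : δ ≠ 0)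
    (hgap : ∀ x : w.adicCompletion K, δ ≤ Valued.v (4 * x ^ 3 + (d : w.adicCompletion K) ^ 3))
    (hsq : ∀ m : Cub (w.adicCompletion K), m ≠ 0 → ∀ n : w.adicCompletion K,
      Algebra.norm (w.adicCompletion K) m = n ^ 2 → ∃ b : Cub (w.adicCompletion K), m = b ^ 2) :
    Odd (cw d K w) := by
  classical
  have := compl_charZero K w
  obtain ⟨C, hC⟩ := Wd_eq d K w
  obtain ⟨γ, hγ, hg⟩ := gap_Wd d hd K w δ hδ hgap
  have hno : ∀ x : w.adicCompletion K, x ^ 3 ≠ 2 := by
    intro x hx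
    have h1 := hgap (-(d : w.adicCompletion K) / x ^ 2)
    have h3 : (x ^ 2) ^ 3 = 4 := by
      rw [← pow_mul, mul_comm 2 3, pow_mul, hx]
      norm_num
    have h2 : 4 * (-(d : w.adicCompletion K) / x ^ 2) ^ 3 + (d : w.adicCompletion K) ^ 3 = 0 := by
      rw [div_pow, h3]
      ring
    rw [h2, map_zero] at h1
    exact hδ (le_zero_iff.1 h1)
  refine odd_index _ (index_ne_zero w _ (Wd_integral d K w) γ hγ hg) ?_
  rw [hC, Ew_eq]
  exact two_div hno hsq d hd C

theorem val_compl_nat {K : Type} [Field K] [NumberField K] (w : HeightOneSpectrum (𝓞 K)) (x : K) :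
    Valued.v (algebraMap K (w.adicCompletion K) x) = w.valuation K x := valued_alg K w x

theorem two_not_of_three {K : Type} [Field K] [NumberField K] (w : HeightOneSpectrum (𝓞 K))
    (h3 : (3 : 𝓞 K) ∈ w.asIdeal) : (2 : 𝓞 K) ∉ w.asIdeal := by
  intro hc
  apply w.isPrime.ne_top
  rw [Ideal.eq_top_iff_one]
  have h1 : (1 : 𝓞 K) = 3 - 2 := by norm_num
  rw [h1]
  exact w.asIdeal.sub_mem h3 hc

theorem two_not_of_d {K : Type} [Field K] [NumberField K] (w : HeightOneSpectrum (𝓞 K)) (d : ℤ)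
    (hd : d % 4 = 1) (h : (d : 𝓞 K) ∈ w.asIdeal) : (2 : 𝓞 K) ∉ w.asIdeal := by
  intro hc
  apply w.isPrime.ne_top
  rw [Ideal.eq_top_iff_one]
  have h8 := congrArg (fun z : ℤ => (z : 𝓞 K)) (show d = 1 + 2 * (2 * (d / 4)) by omega)
  push_cast at h8
  have h9 : (1 : 𝓞 K) = (d : 𝓞 K) - (2 * ((d / 4 : ℤ) : 𝓞 K)) * 2 := by
    linear_combination -h8
  rw [h9]
  exact w.asIdeal.sub_mem h (w.asIdeal.mul_mem_left _ hc)

/-- The local terms are odd natural numbers. -/
theorem local_odd {K₀ : Type} [Field K₀] [NumberField K₀] (K : Type) [Field K] [NumberField K]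
    [Algebra F K] [Algebra K₀ K] (hS : SubT K) (d : ℤ) (hd : AdmD d) (w : HeightOneSpectrum (𝓞 K₀)) :
    ∃ m : ℕ, Odd m ∧
      (cw d K₀ w : ℝ) * ‖(Wd d K₀ w).Δ / (Ew d K₀ w).Δ‖ ^ (1 / 12 : ℝ) = m := by
  classical
  have hch := compl_charZero K₀ w
  obtain ⟨n, hn, hn1⟩ := disc_factor w (Ew d K₀ w) (Ew_integral d hd.four K₀ w)
    (Ew_Δ_ne d hd.ne_zero K₀ w)
  have hint : algebraMap K₀ (w.adicCompletion K₀) ((d : 𝓞 K₀) : K₀) = (d : w.adicCompletion K₀) := by
    have e1 : ((d : 𝓞 K₀) : K₀) = (d : K₀) := map_intCast (algebraMap (𝓞 K₀) K₀) d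
    rw [e1, map_intCast]
  have h30 : algebraMap K₀ (w.adicCompletion K₀) ((3 : 𝓞 K₀) : K₀) = (3 : w.adicCompletion K₀) := by
    have e1 : ((3 : 𝓞 K₀) : K₀) = (3 : K₀) := map_ofNat (algebraMap (𝓞 K₀) K₀) 3
    rw [e1, map_ofNat]
  have h20 : algebraMap K₀ (w.adicCompletion K₀) ((2 : 𝓞 K₀) : K₀) = (2 : w.adicCompletion K₀) := by
    have e1 : ((2 : 𝓞 K₀) : K₀) = (2 : K₀) := map_ofNat (algebraMap (𝓞 K₀) K₀) 2
    rw [e1, map_ofNat]
  by_cases h3 : (3 : 𝓞 K₀) ∈ w.asIdeal
  · -- w above 3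
    have h2 := two_not_of_three w h3
    have hdm := L5_not w d hd h3
    obtain ⟨e, he, hv⟩ := val0_three K hS w h3
    have hv2 : Valued.v (2 : w.adicCompletion K₀) = 1 := by
      rw [← h20, valued_alg]
      exact L5_val w 2 h2
    have hvd : Valued.v (d : w.adicCompletion K₀) = 1 := by
      rw [← hint, valued_alg]
      exact L5_val w d hdm
    have hv3 : Valued.v (3 : w.adicCompletion K₀) = WithZero.exp (-(e : ℤ)) := by
      rw [← map_ofNat (algebraMap K₀ (w.adicCompletion K₀)) 3, valued_alg]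
      exact hv
    have hodd : Odd (cw d K₀ w) := by
      refine cw_odd d hd.ne_zero K₀ w (Valued.v (3 : w.adicCompletion K₀)) ?_ (fun x => ?_)
        (fun m hm n hn => sq_three w ⟨e, he, hv⟩ m hm n hn)
      · rw [hv3]
        exact WithZero.exp_ne_zero
      · have h9 := gap3 Valued.v e he hv3 (-(2 * x) / (d : w.adicCompletion K₀))
        have hd0 : (d : w.adicCompletion K₀) ≠ 0 := Int.cast_ne_zero.2 hd.ne_zero
        have h10 : Valued.v ((-(2 * x) / (d : w.adicCompletion K₀)) ^ 3 - 2) =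
            Valued.v (4 * x ^ 3 + (d : w.adicCompletion K₀) ^ 3) := by
          have e1 : (-(2 * x) / (d : w.adicCompletion K₀)) ^ 3 - 2 =
              -(2 * (4 * x ^ 3 + (d : w.adicCompletion K₀) ^ 3) / (d : w.adicCompletion K₀) ^ 3) := by
            field_simp
            ring
          rw [e1, Valuation.map_neg, map_div₀, map_mul, map_pow, hv2, hvd, one_pow, div_one, one_mul]
        rwa [h10] at h9
    refine ⟨cw d K₀ w * Ideal.absNorm w.asIdeal ^ n, hodd.mul ((norm_odd w h2).pow), ?_⟩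
    rw [Nat.cast_mul, Nat.cast_pow]
    congr 1
  · by_cases hdw : (d : 𝓞 K₀) ∈ w.asIdeal
    · -- w divides d
      have h2 := two_not_of_d w d hd.four hdw
      have h6 : (6 : 𝓞 K₀) ∉ w.asIdeal := by
        intro h6
        rw [show (6 : 𝓞 K₀) = 2 * 3 by norm_num] at h6
        rcases w.isPrime.mem_or_mem h6 with h | h
        · exact h2 h
        · exact h3 h
      have hno : ¬ ∃ u : 𝓞 K₀, u ^ 3 - 2 ∈ w.asIdeal := by
        rintro ⟨u, hu⟩
        exact cubeT K hS d hd w hdw u hu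
      have hd0 : (d : w.adicCompletion K₀) ≠ 0 := Int.cast_ne_zero.2 hd.ne_zero
      have hvd0 : Valued.v (d : w.adicCompletion K₀) ≠ 0 := (Valuation.ne_zero_iff _).2 hd0
      have hv2 : Valued.v (2 : w.adicCompletion K₀) = 1 := by
        rw [← h20, valued_alg]
        exact L5_val w 2 h2
      have hodd : Odd (cw d K₀ w) := by
        refine cw_odd d hd.ne_zero K₀ w (Valued.v (d : w.adicCompletion K₀) ^ 3)
          (pow_ne_zero _ hvd0) (fun x => ?_) (fun m hm n hn => sq_d w h6 hno m hm n hn)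
        have h9 := gapd w hno (-(2 * x) / (d : w.adicCompletion K₀))
        have h10 : Valued.v ((-(2 * x) / (d : w.adicCompletion K₀)) ^ 3 - 2) *
            Valued.v (d : w.adicCompletion K₀) ^ 3 =
            Valued.v (4 * x ^ 3 + (d : w.adicCompletion K₀) ^ 3) := by
          have e1 : (-(2 * x) / (d : w.adicCompletion K₀)) ^ 3 - 2 =
              -(2 * (4 * x ^ 3 + (d : w.adicCompletion K₀) ^ 3) / (d : w.adicCompletion K₀) ^ 3) := by
            field_simp
            ring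
          rw [e1, Valuation.map_neg, map_div₀, map_mul, map_pow, hv2, one_mul]
          exact div_mul_cancel₀ _ (pow_ne_zero _ hvd0)
        rw [← h10]
        calc Valued.v (d : w.adicCompletion K₀) ^ 3 = 1 * Valued.v (d : w.adicCompletion K₀) ^ 3 :=
              (one_mul _).symm
          _ ≤ _ := mul_le_mul' h9 le_rfl
      refine ⟨cw d K₀ w * Ideal.absNorm w.asIdeal ^ n, hodd.mul ((norm_odd w h2).pow), ?_⟩
      rw [Nat.cast_mul, Nat.cast_pow]
      congr 1
    · -- the other places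
      have hv3 : Valued.v (3 : w.adicCompletion K₀) = 1 := by
        rw [← h30, valued_alg]
        exact L5_val w 3 h3
      have hvd : Valued.v (d : w.adicCompletion K₀) = 1 := by
        rw [← hint, valued_alg]
        exact L5_val w d hdw
      have hΔ : Valued.v (Ew d K₀ w).Δ = 1 := by
        rw [Ew_Δ, Valuation.map_neg, map_mul, map_pow, hvd, one_pow, mul_one,
          show (27 : w.adicCompletion K₀) = 3 ^ 3 by norm_num, map_pow, hv3, one_pow]
      obtain ⟨hn0, hW⟩ := hn1 hΔ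
      have hcw : cw d K₀ w = 1 := by
        unfold cw
        have huniv : NonsRed w (Wd d K₀ w) = Set.univ :=
          Set.eq_univ_iff_forall.2 (nonsRed_of_unit w _ (Wd_integral d K₀ w) hW)
        rw [huniv, AddSubgroup.closure_univ, AddSubgroup.index_top]
      refine ⟨1, odd_one, ?_⟩
      rw [hcw]
      have e : ‖(Wd d K₀ w).Δ / (Ew d K₀ w).Δ‖ ^ (1 / 12 : ℝ) = 1 := by
        refine hn.trans ?_
        rw [hn0, pow_zero]
      rw [e, Nat.cast_one, mul_one]

/-- The product of the local terms is a unit at 2. -/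
theorem CEK_unit {K₀ : Type} [Field K₀] [NumberField K₀] (K : Type) [Field K] [NumberField K]
    [Algebra F K] [Algebra K₀ K] (hS : SubT K) (d : ℤ) (hd : AdmD d) :
    Unit2 ((CEK d K₀ : ℝ) : ℂ) := by
  have h : ∃ m : ℕ, Odd m ∧ CEK d K₀ = (m : ℝ) := by
    unfold CEK
    refine finprod_induction (fun x : ℝ => ∃ m : ℕ, Odd m ∧ x = (m : ℝ)) ⟨1, odd_one, by simp⟩ ?_ ?_
    · rintro x y ⟨m, hm, rfl⟩ ⟨m', hm', rfl⟩
      exact ⟨m * m', hm.mul hm', by push_cast; rfl⟩
    · intro w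
      exact local_odd K hS d hd w
  obtain ⟨m, hm, h⟩ := h
  rw [h]
  have := W13_nat hm
  push_cast
  exact this

end H19Z
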