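import Mathlib
import Pool.Agent.Lib.H19Y.Y0
import Pool.Agent.Lib.H19Z.T3
import Pool.Agent.Lib.H55E.X1

/-! Adjoining the square root of d, for the classes SubT and SubG. -/

open NumberField IsDedekindDomain

namespace H19Z

open H55B H55C H55E H55N H19X H19Y

theorem X1_unrG (L E : Type) [Field L] [NumberField L] [Algebra F L] (hG : IsGalois F L)
    (hU : UnrG L) [Field E] [NumberField E] [Algebra F E] [Algebra L E] [IsScalarTower F L E]
    (hGE : IsGalois F E) (d : ℤ) (hd : AdmD d) (δ : E) (hδ : δ ^ 2 = (d : E))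
    (htop : IntermediateField.adjoin L {δ} = ⊤) : UnrG E := by
  intro w v hv hbad h3v
  rw [inertia_iff w]
  intro g hg
  let g₀ : L ≃ₐ[F] L := g.restrictNormal L
  have hg₀ : ∀ x : L, algebraMap L E (g₀ x) = g (algebraMap L E x) := fun x =>
    AlgEquiv.restrictNormal_commutes g L x
  have hwp := w.isPrime
  have hvp := v.isPrime
  have hp : (w.asIdeal.under (𝓞 L)).IsPrime := inferInstance
  have hne : w.asIdeal.under (𝓞 L) ≠ ⊥ := by
    intro h
    exact w.ne_bot (Ideal.eq_bot_of_comap_eq_bot (R := 𝓞 L) (I := w.asIdeal) h)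
  let w₀ : HeightOneSpectrum (𝓞 L) := ⟨w.asIdeal.under (𝓞 L), hp, hne⟩
  have h1 : ∀ y : 𝓞 L, g₀ • y - y ∈ w₀.asIdeal := by
    intro y
    show algebraMap (𝓞 L) (𝓞 E) (g₀ • y - y) ∈ w.asIdeal
    have h2 : algebraMap (𝓞 L) (𝓞 E) (g₀ • y) = g • algebraMap (𝓞 L) (𝓞 E) y := by
      apply NumberField.RingOfIntegers.ext
      exact hg₀ _
    rw [map_sub, h2]
    exact hg _
  have hv₀ : v.asIdeal = w₀.asIdeal.under O := by
    rw [hv]
    ext x
    show algebraMap O (𝓞 E) x ∈ w.asIdeal ↔ algebraMap (𝓞 L) (𝓞 E) (algebraMap O (𝓞 L) x) ∈ w.asIdeal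
    rw [← IsScalarTower.algebraMap_apply O (𝓞 L) (𝓞 E) x]
  have hg1 : g₀ = 1 := (inertia_iff w₀).1 (hU w₀ v hv₀ hbad h3v) g₀ h1
  have hfix : ∀ x : L, g (algebraMap L E x) = algebraMap L E x := by
    intro x
    rw [← hg₀, hg1]
    rfl
  -- the square root is fixed
  have hdv : (d : O) ∉ v.asIdeal := by
    intro hdv
    have hdv' : ((d.natAbs : ℕ) : O) ∈ v.asIdeal := by
      rcases Int.natAbs_eq d with h | h
      · have h1 : (d : O) = ((d.natAbs : ℕ) : O) := by
          conv_lhs => rw [h]
          rw [Int.cast_natCast]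
        rwa [← h1]
      · have h1 : (d : O) = -((d.natAbs : ℕ) : O) := by
          conv_lhs => rw [h]
          rw [Int.cast_neg, Int.cast_natCast]
        have h2 := v.asIdeal.neg_mem hdv
        rwa [h1, neg_neg] at h2
    have hd0 : d ≠ 0 := by
      rintro rfl
      have := hd.four
      omega
    obtain ⟨l, hl, hlv⟩ := H55D.X3_prime v.asIdeal d.natAbs (Int.natAbs_ne_zero.2 hd0) hdv'
    have hld : (l : ℤ) ∣ d := (H1_int_mem hl hlv d).1 hdv
    obtain ⟨h3, h4⟩ := hd.good l hl hld
    exact hbad (H55D.X3_good v l hl hlv h3 h4)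
  have hint : IsIntegral ℤ ((1 + δ) / 2) := by
    refine ⟨Polynomial.X ^ 2 - Polynomial.X - Polynomial.C ((d - 1) / 4), ?_, ?_⟩
    · monicity!
    · have h4 : (4 : E) * (((d - 1) / 4 : ℤ) : E) + 1 = (d : E) := by
        have h5 : 4 * ((d - 1) / 4) + 1 = d := by
          have := hd.four
          omega
        have h6 := congrArg (fun z : ℤ => (z : E)) h5
        push_cast at h6
        exact h6
      simp only [Polynomial.eval₂_sub, Polynomial.eval₂_pow, Polynomial.eval₂_X,
        Polynomial.eval₂_C]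
      rw [← h4] at hδ
      have h7 : algebraMap ℤ E ((d - 1) / 4) = (((d - 1) / 4 : ℤ) : E) := by simp
      rw [h7]
      linear_combination (1 / 4 : E) * hδ
  have hgδ : g δ = δ := by
    have h2 : (g δ) ^ 2 = (d : E) := by rw [← map_pow, hδ, map_intCast]
    have h3 : (g δ - δ) * (g δ + δ) = 0 := by linear_combination h2 - hδ
    rcases mul_eq_zero.1 h3 with h | h
    · exact sub_eq_zero.1 h
    · exfalso
      have h4 : g δ = -δ := by linear_combination h
      let η : 𝓞 E := ⟨(1 + δ) / 2, hint⟩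
      have h5 : g • η - η = 1 - 2 * η := by
        apply NumberField.RingOfIntegers.ext
        show g ((1 + δ) / 2) - (1 + δ) / 2 = 1 - 2 * ((1 + δ) / 2)
        rw [map_div₀, map_add, map_one, h4, map_ofNat]
        ring
      have h6 : 1 - 2 * η ∈ w.asIdeal := by
        rw [← h5]
        exact hg η
      have h7 : (d : 𝓞 E) = (1 - 2 * η) * (1 - 2 * η) := by
        apply NumberField.RingOfIntegers.ext
        show ((d : 𝓞 E) : E) = (1 - 2 * ((1 + δ) / 2)) * (1 - 2 * ((1 + δ) / 2))
        have h8 : ((d : 𝓞 E) : E) = (d : E) := by simp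
        rw [h8, ← hδ]
        ring
      have h9 : (d : 𝓞 E) ∈ w.asIdeal := by
        rw [h7]
        exact w.asIdeal.mul_mem_left _ h6
      apply hdv
      rw [hv]
      show algebraMap O (𝓞 E) (d : O) ∈ w.asIdeal
      rwa [map_intCast]
  ext x
  have hx : x ∈ IntermediateField.adjoin L {δ} := by
    rw [htop]
    exact IntermediateField.mem_top
  show g x = x
  refine IntermediateField.adjoin_induction L (p := fun x _ => g x = x) ?_ hfix ?_ ?_ ?_ hx
  · rintro x rfl
    exact hgδ
  · intro x y _ _ h1 h2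
    rw [map_add, h1, h2]
  · intro x _ h1
    rw [map_inv₀, h1]
  · intro x y _ _ h1 h2
    rw [map_mul, h1, h2]

theorem X1_topG (L : Type) [Field L] [NumberField L] [Algebra F L] (hT : TwoExt L) (hU : UnrG L)
    (d : ℤ) (hd : AdmD d) :
    ∃ (E : Type) (_ : Field E) (_ : NumberField E) (_ : Algebra F E) (_ : Algebra L E)
      (_ : IsScalarTower F L E) (δ : E), δ ^ 2 = (d : E) ∧ TwoExt E ∧ UnrG E := by
  classical
  obtain ⟨hG, k, hk⟩ := hT
  have hfd : FiniteDimensional F L := FiniteDimensional.of_finrank_pos (by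
    rw [hk]
    positivity)
  obtain ⟨δ, hδ⟩ := IsAlgClosed.exists_pow_nat_eq (d : AlgebraicClosure L) (n := 2) (by norm_num)
  let E : IntermediateField L (AlgebraicClosure L) := IntermediateField.adjoin L {δ}
  have hmem : δ ∈ E := IntermediateField.mem_adjoin_simple_self L δ
  have hint : ∀ x ∈ ({δ} : Set (AlgebraicClosure L)), IsIntegral L x := by
    intro x _
    exact (Algebra.IsAlgebraic.isAlgebraic x).isIntegral
  have hEfin : FiniteDimensional L E := IntermediateField.finiteDimensional_adjoin hint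
  have hnf : NumberField E := NumberField.of_module_finite L E
  have hN : Normal F E := X1_normal L hG d δ hδ
  have hGE : IsGalois F E := { to_normal := hN }
  have hδE : (⟨δ, hmem⟩ : E) ^ 2 = (d : E) := by
    apply Subtype.ext
    show δ ^ 2 = ((d : E) : AlgebraicClosure L)
    rw [hδ]
    simp
  have htop : IntermediateField.adjoin L {(⟨δ, hmem⟩ : E)} = ⊤ := by
    have h1 : IntermediateField.map E.val (IntermediateField.adjoin L {(⟨δ, hmem⟩ : E)}) =
        IntermediateField.map E.val ⊤ := by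
      rw [IntermediateField.adjoin_map, Set.image_singleton]
      show IntermediateField.adjoin L {δ} = _
      rw [← AlgHom.fieldRange_eq_map, IntermediateField.fieldRange_val]
    exact IntermediateField.map_injective E.val h1
  refine ⟨E, inferInstance, hnf, inferInstance, inferInstance, inferInstance, ⟨δ, hmem⟩, hδE,
    ⟨hGE, ?_⟩, X1_unrG L E hG hU hGE d hd _ hδE htop⟩
  have h2 := Module.finrank_mul_finrank F L E
  rw [hk] at h2
  rcases X1_rank L (AlgebraicClosure L) (d : L) δ (by rw [hδ, map_intCast]) with h | h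
  · have h' : Module.finrank L E = 1 := h
    refine ⟨k, ?_⟩
    rw [← h2, h', mul_one]
  · have h' : Module.finrank L E = 2 := h
    refine ⟨k + 1, ?_⟩
    rw [← h2, h', pow_succ]

theorem exists_sqrtG (K : Type) [Field K] [NumberField K] [Algebra F K] (hS : SubG K) (d : ℤ)
    (hd : AdmD d) (hns : ¬ IsSquare (d : K)) :
    ∃ (K' : Type) (_ : Field K') (_ : NumberField K') (_ : Algebra F K') (_ : Algebra K K')
      (_ : IsScalarTower F K K'), Module.finrank K K' = 2 ∧ (∃ δ : K', δ ^ 2 = (d : K')) ∧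
        SubG K' := by
  classical
  obtain ⟨L, hL1, hL2, hL3, hL4, hL5, hT, hU⟩ := hS
  obtain ⟨L', h1, h2, h3, h4, h5, δ, hδ, hT', hU'⟩ := X1_topG L hT hU d hd
  let hKL : Algebra K L' := ((algebraMap L L').comp (algebraMap K L)).toAlgebra
  let E : IntermediateField K L' := IntermediateField.adjoin K {δ}
  have hmem : δ ∈ E := IntermediateField.mem_adjoin_simple_self K δ
  have hδK : δ ^ 2 = algebraMap K L' (d : K) := by rw [hδ, map_intCast]
  have hrank : Module.finrank K E = 2 := X1_rank_two K L' (d : K) δ hδK hns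
  have hEfin : FiniteDimensional K E := FiniteDimensional.of_finrank_pos (by
    rw [hrank]
    norm_num)
  have hnf : NumberField E := NumberField.of_module_finite K E
  let hFE : Algebra F E := ((algebraMap K E).comp (algebraMap F K)).toAlgebra
  have htow : IsScalarTower F K E := IsScalarTower.of_algebraMap_eq (fun x => rfl)
  have htow' : IsScalarTower F E L' := IsScalarTower.of_algebraMap_eq (fun x => by
    have e1 : algebraMap F L' x = algebraMap L L' (algebraMap F L x) :=
      IsScalarTower.algebraMap_apply F L L' x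
    have e2 : algebraMap F L x = algebraMap K L (algebraMap F K x) :=
      IsScalarTower.algebraMap_apply F K L x
    rw [e1, e2]
    rfl)
  refine ⟨E, inferInstance, hnf, hFE, inferInstance, htow, hrank, ⟨⟨δ, hmem⟩, ?_⟩,
    L', h1, h2, h3, inferInstance, htow', hT', hU'⟩
  apply Subtype.ext
  show δ ^ 2 = ((d : E) : L')
  rw [hδ]
  simp

theorem X1_unrT (L E : Type) [Field L] [NumberField L] [Algebra F L] (hG : IsGalois F L)
    (hU : UnrT L) [Field E] [NumberField E] [Algebra F E] [Algebra L E] [IsScalarTower F L E]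
    (hGE : IsGalois F E) (d : ℤ) (hd4 : d % 4 = 1) (δ : E) (hδ : δ ^ 2 = (d : E))
    (htop : IntermediateField.adjoin L {δ} = ⊤) : UnrT E := by
  intro w h2
  let v : HeightOneSpectrum O := I2_under w
  have hv : v.asIdeal = w.asIdeal.under O := rfl
  rw [inertia_iff w]
  intro g hg
  let g₀ : L ≃ₐ[F] L := g.restrictNormal L
  have hg₀ : ∀ x : L, algebraMap L E (g₀ x) = g (algebraMap L E x) := fun x =>
    AlgEquiv.restrictNormal_commutes g L x
  have hwp := w.isPrime
  have hvp := v.isPrime
  have hp : (w.asIdeal.under (𝓞 L)).IsPrime := inferInstance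
  have hne : w.asIdeal.under (𝓞 L) ≠ ⊥ := by
    intro h
    exact w.ne_bot (Ideal.eq_bot_of_comap_eq_bot (R := 𝓞 L) (I := w.asIdeal) h)
  let w₀ : HeightOneSpectrum (𝓞 L) := ⟨w.asIdeal.under (𝓞 L), hp, hne⟩
  have h1 : ∀ y : 𝓞 L, g₀ • y - y ∈ w₀.asIdeal := by
    intro y
    show algebraMap (𝓞 L) (𝓞 E) (g₀ • y - y) ∈ w.asIdeal
    have h2 : algebraMap (𝓞 L) (𝓞 E) (g₀ • y) = g • algebraMap (𝓞 L) (𝓞 E) y := by
      apply NumberField.RingOfIntegers.ext
      exact hg₀ _
    rw [map_sub, h2]
    exact hg _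
  have hv₀ : v.asIdeal = w₀.asIdeal.under O := by
    rw [hv]
    ext x
    show algebraMap O (𝓞 E) x ∈ w.asIdeal ↔ algebraMap (𝓞 L) (𝓞 E) (algebraMap O (𝓞 L) x) ∈ w.asIdeal
    rw [← IsScalarTower.algebraMap_apply O (𝓞 L) (𝓞 E) x]
  have h60 : (2 : 𝓞 L) ∈ w₀.asIdeal := by
    show (2 : 𝓞 L) ∈ w.asIdeal.under (𝓞 L)
    rw [Ideal.mem_under, map_ofNat]
    exact h2
  have hg1 : g₀ = 1 := (inertia_iff w₀).1 (hU w₀ h60) g₀ h1
  have hfix : ∀ x : L, g (algebraMap L E x) = algebraMap L E x := by
    intro x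
    rw [← hg₀, hg1]
    rfl
  -- the square root is fixed
  have hdv : (d : O) ∉ v.asIdeal := by
    intro hdv
    have h6v : (2 : O) ∈ v.asIdeal := by
      show algebraMap O (𝓞 E) 2 ∈ w.asIdeal
      rw [map_ofNat]
      exact h2
    apply hvp.ne_top
    rw [Ideal.eq_top_iff_one]
    have h8 := congrArg (fun z : ℤ => (z : O)) (show d = 1 + 2 * (2 * (d / 4)) by omega)
    push_cast at h8
    have h9 : (1 : O) = (d : O) - (2 * ((d / 4 : ℤ) : O)) * 2 := by
      linear_combination -h8
    rw [h9]
    exact v.asIdeal.sub_mem hdv (v.asIdeal.mul_mem_left _ h6v)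
  have hint : IsIntegral ℤ ((1 + δ) / 2) := by
    refine ⟨Polynomial.X ^ 2 - Polynomial.X - Polynomial.C ((d - 1) / 4), ?_, ?_⟩
    · monicity!
    · have h4 : (4 : E) * (((d - 1) / 4 : ℤ) : E) + 1 = (d : E) := by
        have h5 : 4 * ((d - 1) / 4) + 1 = d := by
          have := hd4
          omega
        have h6 := congrArg (fun z : ℤ => (z : E)) h5
        push_cast at h6
        exact h6
      simp only [Polynomial.eval₂_sub, Polynomial.eval₂_pow, Polynomial.eval₂_X,
        Polynomial.eval₂_C]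
      rw [← h4] at hδ
      have h7 : algebraMap ℤ E ((d - 1) / 4) = (((d - 1) / 4 : ℤ) : E) := by simp
      rw [h7]
      linear_combination (1 / 4 : E) * hδ
  have hgδ : g δ = δ := by
    have h2 : (g δ) ^ 2 = (d : E) := by rw [← map_pow, hδ, map_intCast]
    have h3 : (g δ - δ) * (g δ + δ) = 0 := by linear_combination h2 - hδ
    rcases mul_eq_zero.1 h3 with h | h
    · exact sub_eq_zero.1 h
    · exfalso
      have h4 : g δ = -δ := by linear_combination h
      let η : 𝓞 E := ⟨(1 + δ) / 2, hint⟩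
      have h5 : g • η - η = 1 - 2 * η := by
        apply NumberField.RingOfIntegers.ext
        show g ((1 + δ) / 2) - (1 + δ) / 2 = 1 - 2 * ((1 + δ) / 2)
        rw [map_div₀, map_add, map_one, h4, map_ofNat]
        ring
      have h6 : 1 - 2 * η ∈ w.asIdeal := by
        rw [← h5]
        exact hg η
      have h7 : (d : 𝓞 E) = (1 - 2 * η) * (1 - 2 * η) := by
        apply NumberField.RingOfIntegers.ext
        show ((d : 𝓞 E) : E) = (1 - 2 * ((1 + δ) / 2)) * (1 - 2 * ((1 + δ) / 2))
        have h8 : ((d : 𝓞 E) : E) = (d : E) := by simp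
        rw [h8, ← hδ]
        ring
      have h9 : (d : 𝓞 E) ∈ w.asIdeal := by
        rw [h7]
        exact w.asIdeal.mul_mem_left _ h6
      apply hdv
      rw [hv]
      show algebraMap O (𝓞 E) (d : O) ∈ w.asIdeal
      rwa [map_intCast]
  ext x
  have hx : x ∈ IntermediateField.adjoin L {δ} := by
    rw [htop]
    exact IntermediateField.mem_top
  show g x = x
  refine IntermediateField.adjoin_induction L (p := fun x _ => g x = x) ?_ hfix ?_ ?_ ?_ hx
  · rintro x rfl
    exact hgδ
  · intro x y _ _ h1 h2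
    rw [map_add, h1, h2]
  · intro x _ h1
    rw [map_inv₀, h1]
  · intro x y _ _ h1 h2
    rw [map_mul, h1, h2]

theorem X1_topT (L : Type) [Field L] [NumberField L] [Algebra F L] (hT : TwoExt L) (hU : UnrT L)
    (d : ℤ) (hd4 : d % 4 = 1) :
    ∃ (E : Type) (_ : Field E) (_ : NumberField E) (_ : Algebra F E) (_ : Algebra L E)
      (_ : IsScalarTower F L E) (δ : E), δ ^ 2 = (d : E) ∧ TwoExt E ∧ UnrT E := by
  classical
  obtain ⟨hG, k, hk⟩ := hT
  have hfd : FiniteDimensional F L := FiniteDimensional.of_finrank_pos (by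
    rw [hk]
    positivity)
  obtain ⟨δ, hδ⟩ := IsAlgClosed.exists_pow_nat_eq (d : AlgebraicClosure L) (n := 2) (by norm_num)
  let E : IntermediateField L (AlgebraicClosure L) := IntermediateField.adjoin L {δ}
  have hmem : δ ∈ E := IntermediateField.mem_adjoin_simple_self L δ
  have hint : ∀ x ∈ ({δ} : Set (AlgebraicClosure L)), IsIntegral L x := by
    intro x _
    exact (Algebra.IsAlgebraic.isAlgebraic x).isIntegral
  have hEfin : FiniteDimensional L E := IntermediateField.finiteDimensional_adjoin hint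
  have hnf : NumberField E := NumberField.of_module_finite L E
  have hN : Normal F E := X1_normal L hG d δ hδ
  have hGE : IsGalois F E := { to_normal := hN }
  have hδE : (⟨δ, hmem⟩ : E) ^ 2 = (d : E) := by
    apply Subtype.ext
    show δ ^ 2 = ((d : E) : AlgebraicClosure L)
    rw [hδ]
    simp
  have htop : IntermediateField.adjoin L {(⟨δ, hmem⟩ : E)} = ⊤ := by
    have h1 : IntermediateField.map E.val (IntermediateField.adjoin L {(⟨δ, hmem⟩ : E)}) =
        IntermediateField.map E.val ⊤ := by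
      rw [IntermediateField.adjoin_map, Set.image_singleton]
      show IntermediateField.adjoin L {δ} = _
      rw [← AlgHom.fieldRange_eq_map, IntermediateField.fieldRange_val]
    exact IntermediateField.map_injective E.val h1
  refine ⟨E, inferInstance, hnf, inferInstance, inferInstance, inferInstance, ⟨δ, hmem⟩, hδE,
    ⟨hGE, ?_⟩, X1_unrT L E hG hU hGE d hd4 _ hδE htop⟩
  have h2 := Module.finrank_mul_finrank F L E
  rw [hk] at h2
  rcases X1_rank L (AlgebraicClosure L) (d : L) δ (by rw [hδ, map_intCast]) with h | h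
  · have h' : Module.finrank L E = 1 := h
    refine ⟨k, ?_⟩
    rw [← h2, h', mul_one]
  · have h' : Module.finrank L E = 2 := h
    refine ⟨k + 1, ?_⟩
    rw [← h2, h', pow_succ]

theorem exists_sqrtT (K : Type) [Field K] [NumberField K] [Algebra F K] (hS : SubT K) (d : ℤ)
    (hd : AdmD d) (hns : ¬ IsSquare (d : K)) :
    ∃ (K' : Type) (_ : Field K') (_ : NumberField K') (_ : Algebra F K') (_ : Algebra K K')
      (_ : IsScalarTower F K K'), Module.finrank K K' = 2 ∧ (∃ δ : K', δ ^ 2 = (d : K')) ∧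
        SubT K' := by
  classical
  obtain ⟨L, hL1, hL2, hL3, hL4, hL5, hT, hU⟩ := hS
  obtain ⟨L', h1, h2, h3, h4, h5, δ, hδ, hT', hU'⟩ := X1_topT L hT hU d hd.four
  let hKL : Algebra K L' := ((algebraMap L L').comp (algebraMap K L)).toAlgebra
  let E : IntermediateField K L' := IntermediateField.adjoin K {δ}
  have hmem : δ ∈ E := IntermediateField.mem_adjoin_simple_self K δ
  have hδK : δ ^ 2 = algebraMap K L' (d : K) := by rw [hδ, map_intCast]
  have hrank : Module.finrank K E = 2 := X1_rank_two K L' (d : K) δ hδK hns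
  have hEfin : FiniteDimensional K E := FiniteDimensional.of_finrank_pos (by
    rw [hrank]
    norm_num)
  have hnf : NumberField E := NumberField.of_module_finite K E
  let hFE : Algebra F E := ((algebraMap K E).comp (algebraMap F K)).toAlgebra
  have htow : IsScalarTower F K E := IsScalarTower.of_algebraMap_eq (fun x => rfl)
  have htow' : IsScalarTower F E L' := IsScalarTower.of_algebraMap_eq (fun x => by
    have e1 : algebraMap F L' x = algebraMap L L' (algebraMap F L x) :=
      IsScalarTower.algebraMap_apply F L L' x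
    have e2 : algebraMap F L x = algebraMap K L (algebraMap F K x) :=
      IsScalarTower.algebraMap_apply F K L x
    rw [e1, e2]
    rfl)
  refine ⟨E, inferInstance, hnf, hFE, inferInstance, htow, hrank, ⟨⟨δ, hmem⟩, ?_⟩,
    L', h1, h2, h3, inferInstance, htow', hT', hU'⟩
  apply Subtype.ext
  show δ ^ 2 = ((d : E) : L')
  rw [hδ]
  simp

theorem exists_sqrt_anyT (K : Type) [Field K] [NumberField K] [Algebra F K] (hS : SubT K) (d : ℤ)
    (hd : AdmD d) : ∃ (K' : Type) (_ : Field K') (_ : NumberField K') (_ : Algebra F K')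
      (_ : Algebra K K'), (∃ δ : K', δ ^ 2 = (d : K')) ∧ SubT K' := by
  by_cases hsq : IsSquare (d : K)
  · obtain ⟨δ, hδ'⟩ := hsq
    exact ⟨K, inferInstance, inferInstance, inferInstance, Algebra.id K, ⟨δ, by rw [hδ', sq]⟩, hS⟩
  · obtain ⟨K', i1, i2, i3, i4, i5, h2, hδ, hS'⟩ := exists_sqrtT K hS d hd hsq
    exact ⟨K', i1, i2, i3, i4, hδ, hS'⟩

end H19Z
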