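import Mathlib
import Pool.Agent.Lib.H19Z.A5
import Pool.Agent.Lib.H19Z.S1
import Pool.Agent.Lib.H55E.A2
import Pool.Agent.Lib.H55E.S3

/-! The Selmer groups in the good case. -/

open NumberField IsDedekindDomain

namespace H19Z

open H55B H55C H55E H55N H19X H19Y

/-- The Selmer group of E_d over K is trivial and E_d(K) is finite of odd order, K containing F. -/
theorem selTwodG (K : Type) [Field K] [NumberField K] [Algebra F K] (hS : SubG K) (d : ℤ)
    (hd : AdmD d) : SelTwod d K := by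
  by_cases hsq : IsSquare (d : K)
  · obtain ⟨δ, hδ'⟩ := hsq
    have hδ : δ ^ 2 = (d : K) := by rw [hδ', sq]
    obtain ⟨s1, s2, s3⟩ := selTwo_subT K hS
    refine ⟨fun m hm => s1 m (Seld_twist K d hd.ne_zero δ hδ m hm), ?_⟩
    exact points_d K K d hd.ne_zero δ hδ s2 s3
  · obtain ⟨K', i1, i2, i3, i4, i5, h2, ⟨δ, hδ⟩, hS'⟩ := exists_sqrtG K hS d hd hsq
    obtain ⟨s1, s2, s3⟩ := selTwo_subT K' hS'
    obtain ⟨k, hk⟩ := subT_rank hS'.subT
    refine ⟨fun m hm => ?_, points_d K K' d hd.ne_zero δ hδ s2 s3⟩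
    obtain ⟨b, hb⟩ := s1 _ (Seld_twist K' d hd.ne_zero δ hδ _ (Seld_up K K' d m hm))
    obtain ⟨n, hn⟩ := hm.2.1
    exact sq_descent K K' h2 (no_cube K' k hk) m hm.1 n hn b hb

/-- A field over K containing the square root of d. -/
theorem exists_sqrt_anyG (K : Type) [Field K] [NumberField K] [Algebra F K] (hS : SubG K) (d : ℤ)
    (hd : AdmD d) : ∃ (K' : Type) (_ : Field K') (_ : NumberField K') (_ : Algebra F K')
      (_ : Algebra K K'), (∃ δ : K', δ ^ 2 = (d : K')) ∧ SubG K' := by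
  by_cases hsq : IsSquare (d : K)
  · obtain ⟨δ, hδ'⟩ := hsq
    exact ⟨K, inferInstance, inferInstance, inferInstance, Algebra.id K, ⟨δ, by rw [hδ', sq]⟩, hS⟩
  · obtain ⟨K', i1, i2, i3, i4, i5, h2, hδ, hS'⟩ := exists_sqrtG K hS d hd hsq
    exact ⟨K', i1, i2, i3, i4, hδ, hS'⟩

/-- The same for fields not containing F. -/
theorem selTwod0G (K₀ K : Type) [Field K₀] [NumberField K₀] [Field K] [NumberField K] [Algebra F K]
    [Algebra K₀ K] (hQ : H13E.Quad K₀ K) (hS : SubG K) (d : ℤ) (hd : AdmD d) : SelTwod d K₀ := by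
  obtain ⟨K', i1, i2, i3, i4, ⟨δ, hδ⟩, hS'⟩ := exists_sqrt_anyG K hS d hd
  obtain ⟨s1, s2, s3⟩ := selTwo_subT K' hS'
  obtain ⟨k, hk⟩ := subT_rank hS.subT
  letI : Algebra K₀ K' := ((algebraMap K K').comp (algebraMap K₀ K)).toAlgebra
  have hpts := points_d K₀ K' d hd.ne_zero δ hδ s2 s3
  refine ⟨fun m hm => ?_, hpts⟩
  obtain ⟨b, hb⟩ := (selTwodG K hS d hd).1 _ (Seld_up K₀ K d m hm)
  obtain ⟨n, hn⟩ := hm.2.1
  exact sq_descent K₀ K hQ.rank (no_cube K k hk) m hm.1 n hn b hb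

end H19Z
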