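import Mathlib
import Pool.Agent.Lib.H19Y.Stat
import Pool.Agent.Lib.H19Z.L0

/-! Statement of the exact criterion at 2 for the twists E_d of y^2 + y = x^3 over fields unramified above 2. -/

open NumberField IsDedekindDomain

namespace H19Z

open H55B H55C H55E H55N H19X H19Y

/-- The analytic order of the Tate-Shafarevich group of E_d over K: the order predicted by the formula of
Birch and Swinnerton-Dyer in rank 0 (it is 0 if L1 = 0). L1 is the value of the L-function at 1, torsd the number
of torsion points of E_d(K), L the period lattice of dx/(2y+1), Omr its real period, Om twice the area of a period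
parallelogram, CEK the product of the Tamagawa numbers and the discriminant factors. -/
noncomputable def shaK (d : ℤ) (K : Type) [Field K] [NumberField K] (L : PeriodPair) (L1 : ℂ) : ℂ :=
  L1 * (Real.sqrt |(NumberField.discr K : ℝ)| : ℝ) * (torsd d K : ℂ) ^ 2 /
    ((H55D.Omr L : ℂ) ^ NumberField.InfinitePlace.nrRealPlaces K *
      (Om L : ℂ) ^ NumberField.InfinitePlace.nrComplexPlaces K * ((CEK d K : ℝ) : ℂ))

/-- The exact criterion. The period lattice L of dx/(2y+1) exists; the L-function of E_d over K continues
analytically to Re s > 1/2; the analytic order of the Tate-Shafarevich group is 2-integral; it is a 2-adic unit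
(and L(E_d/K, 1) is not 0) if and only if the 2-Selmer group is trivial, if and only if no prime of K not above
6 modulo which 2 is a cube is ramified over the rationals; if this is so then E_d(K) is finite of odd order, and
otherwise the analytic order of the Tate-Shafarevich group is divisible by every prime above 2. -/
def CritK (d : ℤ) (K : Type) [Field K] [NumberField K] : Prop :=
  (∃ L : PeriodPair, L.g₂ = 0 ∧ L.g₃ = -(d : ℂ) ^ 3) ∧
  ∃ Λ : ℂ → ℂ, AnalyticOnNhd ℂ Λ {s | 1 / 2 < s.re} ∧
    (∀ s : ℂ, 3 / 2 < s.re →
      LSeriesSummable (fun n => ((((Ed d).baseChange K).LFunction n : ℤ) : ℂ)) s ∧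
      Λ s = ((Ed d).baseChange K).LSeries s) ∧
    ∀ L : PeriodPair, L.g₂ = 0 → L.g₃ = -(d : ℂ) ^ 3 →
      Int2 (shaK d K L (Λ 1)) ∧
      (SelZ d K ↔ Λ 1 ≠ 0 ∧ Unit2 (shaK d K L (Λ 1))) ∧
      (SelZ d K ↔ GoodRam K) ∧
      (SelZ d K → Finite ((Ed d).baseChange K).toAffine.Point ∧
        Odd (Nat.card ((Ed d).baseChange K).toAffine.Point)) ∧
      (¬ SelZ d K → Non2 (shaK d K L (Λ 1)))

end H19Z
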