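import Mathlib
import Pool.Agent.Lib.H19Z.Y0
import Pool.Agent.Lib.H55N.Core

/-! The core of H55N for fields unramified above 2 (D3, L1, Z2, Core of H55N with UnrT). -/

open NumberField IsDedekindDomain

namespace H19Z

open H55B H55C H55N H19X H19Y

variable {K : Type} [Field K] [NumberField K] [Algebra F K] {m : ℕ}

lemma D3_radT (hK : UnrT K) (x : 𝓞 K) (h : x ^ 2 ∈ Ideal.span {(2 : 𝓞 K)}) :
    x ∈ Ideal.span {(2 : 𝓞 K)} := by
  obtain ⟨y, hy⟩ := Ideal.mem_span_singleton.1 h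
  have h20 : (2 : K) ≠ 0 := two_ne_zero
  have key : ∀ w : HeightOneSpectrum (𝓞 K), w.valuation K ((x : K) / 2) ≤ 1 := by
    intro w
    by_cases h2 : (2 : 𝓞 K) ∈ w.asIdeal
    · have hv := H19Z.val_two hK w h2
      have hx : x ∈ w.asIdeal := by
        apply w.isPrime.mem_of_pow_mem 2
        rw [hy]
        exact w.asIdeal.mul_mem_right _ h2
      have hx1 : w.valuation K (algebraMap (𝓞 K) K x) < 1 :=
        (HeightOneSpectrum.valuation_lt_one_iff_mem w x).2 hx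
      rw [map_div₀, hv]
      have hx2 : w.valuation K (x : K) ≤ WithZero.exp (-1 : ℤ) := by
        by_cases h0 : w.valuation K (x : K) = 0
        · rw [h0]
          exact zero_le'
        · rw [← WithZero.exp_log h0] at hx1 ⊢
          rw [← WithZero.exp_zero, WithZero.exp_lt_exp] at hx1
          rw [WithZero.exp_le_exp]
          omega
      exact div_le_one_of_le₀ hx2 zero_le'
    · have hv : w.valuation K (algebraMap (𝓞 K) K 2) = 1 := by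
        rw [HeightOneSpectrum.valuation_of_algebraMap]
        exact (HeightOneSpectrum.intValuation_eq_one_iff).2 h2
      rw [map_ofNat] at hv
      rw [map_div₀, hv, div_one]
      exact w.valuation_le_one x
  obtain ⟨z, hz⟩ := HeightOneSpectrum.mem_integers_of_valuation_le_one K _ key
  refine Ideal.mem_span_singleton.2 ⟨z, ?_⟩
  apply RingOfIntegers.ext
  show algebraMap (𝓞 K) K x = algebraMap (𝓞 K) K (2 * z)
  rw [map_mul, map_ofNat, hz]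
  field_simp

theorem odd_changeT (hK : UnrT K) (J J' : Ideal (𝓞 K)) (hJ : J ≠ ⊥)
    (hJ2 : IsCoprime J (Ideal.span {2})) (hJ' : J' = Ideal.span {2} * J) (X : Set (𝓞 K))
    (hX0 : (0 : 𝓞 K) ∉ X) (hX : ∀ u : (𝓞 K)ˣ, (u : 𝓞 K) - 1 ∈ J → ∀ x ∈ X, (u : 𝓞 K) * x ∈ X) :
    ∃ ν : ℕ, Odd ν ∧ ∀ T, Transv J X T → ∃ T', Transv J' X T' ∧
      ∀ (φ : 𝓞 K → ℂ) (S : ℂ), (∀ u : (𝓞 K)ˣ, (u : 𝓞 K) - 1 ∈ J → ∀ x ∈ X, φ ((u : 𝓞 K) * x) = φ x) →
        HasSum (fun x : T' => φ x) S → HasSum (fun x : T => φ x) (S / ν) := by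
  have hJ'0 : J' ≠ ⊥ := by
    rw [hJ']
    simp [hJ]
  have hle : J' ≤ J := hJ' ▸ Ideal.mul_le_right
  haveI := D3_fin J' hJ'0
  haveI hfi : ((D3_U J').subgroupOf (D3_U J)).FiniteIndex := inferInstance
  refine ⟨((D3_U J').subgroupOf (D3_U J)).index, ?_, D3_main J J' hle X hfi hX0 hX⟩
  rw [← Nat.not_even_iff_odd]
  intro hev
  haveI : Finite ((D3_U J) ⧸ ((D3_U J').subgroupOf (D3_U J))) :=
    Subgroup.finite_quotient_of_finiteIndex
  haveI : Fact (Nat.Prime 2) := ⟨Nat.prime_two⟩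
  obtain ⟨q, hq⟩ := exists_prime_orderOf_dvd_card' (G := (D3_U J) ⧸ ((D3_U J').subgroupOf (D3_U J)))
    2 hev.two_dvd
  obtain ⟨a, rfl⟩ := QuotientGroup.mk_surjective q
  have h1 := pow_orderOf_eq_one (QuotientGroup.mk a : (D3_U J) ⧸ ((D3_U J').subgroupOf (D3_U J)))
  rw [hq, ← QuotientGroup.mk_pow, QuotientGroup.eq_one_iff, Subgroup.mem_subgroupOf, D3_mem] at h1
  have h2 : (((a : (𝓞 K)ˣ) : 𝓞 K) - 1) ^ 2 ∈ Ideal.span {(2 : 𝓞 K)} := by
    have h3 : (((a : (𝓞 K)ˣ) : 𝓞 K) - 1) ^ 2 =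
        ((((a ^ 2 : D3_U J) : (𝓞 K)ˣ) : 𝓞 K) - 1) - 2 * (((a : (𝓞 K)ˣ) : 𝓞 K) - 1) := by
      rw [SubmonoidClass.coe_pow, Units.val_pow_eq_pow_val]
      ring
    rw [h3]
    refine Ideal.sub_mem _ ?_ (Ideal.mul_mem_right _ _ (Ideal.mem_span_singleton_self _))
    exact (hJ' ▸ Ideal.mul_le_left : J' ≤ Ideal.span {(2 : 𝓞 K)}) h1
  have h4 := D3_radT hK _ h2
  have h5 : ((a : (𝓞 K)ˣ) : 𝓞 K) - 1 ∈ J' := by
    have h6 : ((a : (𝓞 K)ˣ) : 𝓞 K) - 1 ∈ Ideal.span {(2 : 𝓞 K)} ⊓ J := ⟨h4, (D3_mem J _).1 a.2⟩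
    rw [hJ', Ideal.mul_eq_inf_of_coprime]
    · exact h6
    · exact (Ideal.isCoprime_iff_sup_eq.1 hJ2.symm)
  have h7 : (QuotientGroup.mk a : (D3_U J) ⧸ ((D3_U J').subgroupOf (D3_U J))) = 1 := by
    rw [QuotientGroup.eq_one_iff, Subgroup.mem_subgroupOf, D3_mem]
    exact h5
  rw [h7, orderOf_one] at hq
  omega

theorem label_intT (hK : UnrT K) (b : Ideal (𝓞 K)) (hb : IsCoprime b (Ideal.span {2})) (a : K)
    (ha : ∀ x ∈ b, ∃ y : O, Algebra.trace F K ((x : K) * a) = algebraMap O F y) (τ : K →+* ℂ) :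
    Int2 (τ a) := by
  obtain ⟨N, hN, hNb⟩ := L1_odd b hb
  obtain ⟨y, hy⟩ := L1_dual_int (K := K) ((N : K) * a) (by
    intro x
    obtain ⟨y, hy⟩ := ha (N * x) (b.mul_mem_right x hNb)
    obtain ⟨z, hz⟩ := L1_trace_O y
    refine ⟨z, ?_⟩
    have h1 : (x : K) * ((N : K) * a) = (((N : 𝓞 K) * x : 𝓞 K) : K) * a := by
      have h4 : (((N : 𝓞 K) * x : 𝓞 K) : K) = (N : K) * (x : K) := by
        rw [← map_natCast (algebraMap (𝓞 K) K) N]
        exact map_mul (algebraMap (𝓞 K) K) _ _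
      rw [h4]
      ring
    rw [h1, ← Algebra.trace_trace (S := F), hy]
    exact hz)
  intro V hV
  have hd := H19Z.odd_discr K hK
  have h1 : V.valuation (τ (y : K)) ≤ 1 := by
    have h2 : IsIntegral ℤ (τ (y : K)) := map_isIntegral_int τ y.2
    have h3 : IsIntegral V (τ (y : K)) := h2.tower_top
    obtain ⟨t, ht⟩ := IsIntegrallyClosed.isIntegral_iff.1 h3
    rw [← ht]
    exact V.valuation_le_one t
  have hodd : ∀ n : ℤ, Odd n → V.valuation (n : ℂ) = 1 := by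
    intro n hn
    have h1 := val_odd V hV n.natAbs (Int.natAbs_odd.2 hn)
    rw [← Int.cast_natCast] at h1
    rcases Int.natAbs_eq n with h2 | h2
    · rw [h2]
      exact h1
    · rw [h2, Int.cast_neg, Valuation.map_neg]
      exact h1
  rw [hy, map_mul, map_intCast, map_mul, hodd _ hd, one_mul, map_mul, map_natCast, map_mul] at h1
  have h3 : V.valuation ((N : ℕ) : ℂ) = 1 := by
    have := hodd (N : ℤ) (by
      rw [← Int.not_even_iff_odd, even_iff_two_dvd]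
      exact_mod_cast hN)
    exact_mod_cast this
  rw [h3, one_mul] at h1
  exact h1

theorem CN_intT (hK : UnrT K) (D : Ctx K m) (hD : D.Ok) (b f : Ideal (𝓞 K))
    (hb2 : IsCoprime b (Ideal.span {2})) (hf2 : IsCoprime f (Ideal.span {2}))
    (hI : D.I = Ideal.span {3} * f * b) (hp : ∀ i, D.p i ≠ 2) (u : Fin m → (𝓞 K)ˣ)
    (L : (Fin m → ℤ) → K) (hL : LabOk b D.c₀ u L)
    (hdirs : ∀ (a : Fin m → Fin (m + 1)) (π : Equiv.Perm (Fin m)),
      ∃ w', D.Dirs (fun k : Fin (m + 1) => L (kv (fun k => ((a k : ℕ) : ℤ)) π k)) w') :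
    Int2 (CN (m + 1) D.Jv (fun a => .A (L a)) / R0 ^ (m + 1)) := by
  unfold CN
  rw [Finset.sum_div]
  refine Int2.sum _ _ fun a _ => ?_
  rw [Finset.sum_div]
  refine Int2.sum _ _ fun π _ => ?_
  rw [mul_div_assoc]
  refine (Int2.intCast _).mul ?_
  obtain ⟨w', hw'⟩ := hdirs a π
  obtain ⟨S, hS, hlim⟩ := Jv_A D hD _ w' hw'
  rw [hS, mul_div_assoc]
  refine (Int2.det _ fun k i => ?_).mul ?_
  · exact label_intT hK b hb2 _ (hL.int _) (D.σ i)
  · obtain ⟨m₀, ho, h3, hm⟩ := m0_exists D hD b f hf2 hI hp u L hL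
      (fun k => ((a k : ℕ) : ℤ)) π
    exact rat_val D hD _ w' hw'
      (fun x hx k => (labels_low D hD.emb b f D.c₀ ⟨hI, rfl⟩ u L hL _ x hx).1) m₀ ho h3 hm S hlim

/-- CORE (analytic continuation and integrality of the smoothed partial L-values). -/
theorem coreT (K : Type) [Field K] [NumberField K] [Algebra F K] (m : ℕ)
    (hm : Module.finrank F K = m + 1) (hK : UnrT K) (b f : Ideal (𝓞 K)) (hb : b ≠ ⊥)
    (hb2 : IsCoprime b (Ideal.span {2})) (hf : f ≠ ⊥) (hf2 : IsCoprime f (Ideal.span {2}))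
    (c₀ : 𝓞 K) (hc : c₀ ∈ b) (hc' : c₀ ∉ Ideal.span {algebraMap O (𝓞 K) lam} * b) :
    ∃ Bad : Set (Ideal (𝓞 K)), Bad.Finite ∧
      ∀ (c : Fin (m + 1) × Fin 2 → Ideal (𝓞 K)) (p : Fin (m + 1) × Fin 2 → ℕ), Smooth c p →
        (∀ i, c i ∉ Bad) → ∃ Z : ℂ → ℂ, AnalyticOnNhd ℂ Z {s | 1 / 2 < s.re} ∧
          (∀ T : Set (𝓞 K), Transv (Ideal.span {3} * f) (XS (Ideal.span {3} * f * b) c₀) T →
            ∀ s : ℂ, 3 / 2 < s.re → HasSum (fun x : T => gw c p x * nf s (x : 𝓞 K)) (Z s)) ∧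
          Int2 (Z 1 / R0 ^ (m + 1)) := by
  classical
  obtain ⟨σ, hσ⟩ := emb_exists K m hm
  set J : Ideal (𝓞 K) := Ideal.span {3} * f with hJdef
  set J' : Ideal (𝓞 K) := Ideal.span {2} * J with hJ'def
  have hJ0 : J ≠ ⊥ := by
    rw [hJdef]
    exact mul_ne_zero (by simp) hf
  have hJ'0 : J' ≠ ⊥ := by
    rw [hJ'def]
    exact mul_ne_zero (by simp) hJ0
  have hJ'J : J' ≤ J := Ideal.mul_le_right
  have hJ3 : J ≤ Ideal.span {3} := Ideal.mul_le_left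
  have hJ6 : J' ≤ Ideal.span {6} := by
    rw [hJ'def, hJdef, ← mul_assoc, Ideal.span_singleton_mul_span_singleton]
    have : (2 : 𝓞 K) * 3 = 6 := by norm_num
    rw [this]
    exact Ideal.mul_le_left
  obtain ⟨u, hu1, hu2, hu3, hu4⟩ := units_basis hm J' hJ'0 hJ6
  obtain ⟨L, hL⟩ := labels_exist hm b f hb c₀ hc hc' u (fun z => hJ6 (hu2 z))
  have hI0 : Ideal.span {3} * f * b ≠ ⊥ := mul_ne_zero hJ0 hb
  have hdir := fun (q : (Fin m → Fin (m + 1)) × Equiv.Perm (Fin m)) =>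
    directions hm (fun k : Fin (m + 1) => L (kv (fun k => ((q.1 k : ℕ) : ℤ)) q.2 k))
      (labels_indep b c₀ u L hL _ _) (Ideal.span {3} * f * b) hI0
  choose d hd1 hd2 hd3 using hdir
  refine ⟨(⋃ q : ((Fin m → Fin (m + 1)) × Equiv.Perm (Fin m)) × Fin (m + 1),
    {c : Ideal (𝓞 K) | d q.1 q.2 ∈ c}) ∪ {c : Ideal (𝓞 K) | (2 : 𝓞 K) ∈ c}, ?_, ?_⟩
  · refine Set.Finite.union (Set.finite_iUnion fun q => finite_ideals _ (hd2 _ _)) ?_
    exact finite_ideals 2 two_ne_zero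
  intro c p hcp hbad
  let D : Ctx K m := ⟨σ, Ideal.span {3} * f * b, c₀, c, p⟩
  have hD : D.Ok := ⟨hσ, fun h => hc' (Z3_le f b h), hcp⟩
  have h0X : (0 : 𝓞 K) ∉ D.X := fun h => D.X_ne hD.ne h rfl
  have hp2 : ∀ i, D.p i ≠ 2 := by
    intro i hi
    apply hbad i
    right
    have h1 : ((Ideal.absNorm (c i) : ℕ) : 𝓞 K) ∈ c i := Ideal.absNorm_mem _
    rw [hcp.norm i] at h1
    have h2 : p i = 2 := hi
    rw [h2] at h1
    exact_mod_cast h1
  have hact : ∀ v : (𝓞 K)ˣ, (v : 𝓞 K) - 1 ∈ J → ((v : 𝓞 K) - 1) * D.c₀ ∈ D.I :=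
    fun v hv => Ideal.mul_mem_mul hv hc
  have hu : D.UOk u := ⟨fun j => hact _ (hJ'J (hu1 j)),
    fun j => norm_one D hσ (u j) (hJ3 (hJ'J (hu1 j))), delta_ne D hσ u hu4⟩
  have hlow := labels_low D hσ b f c₀ ⟨rfl, rfl⟩ u L hL
  have hdirs : ∀ (a : Fin m → Fin (m + 1)) (π : Equiv.Perm (Fin m)),
      ∃ w', D.Dirs (fun k : Fin (m + 1) => L (kv (fun k => ((a k : ℕ) : ℤ)) π k)) w' := by
    intro a π
    refine dirs_of D hD _ (d (a, π)) (hd1 (a, π)) ?_ (hd3 (a, π)) ?_ ?_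
      (labels_indep b c₀ u L hL _ _)
    · intro i j hj
      apply hbad i
      left
      exact Set.mem_iUnion.2 ⟨((a, π), j), hj⟩
    · intro x hx k
      obtain ⟨⟨y, hy⟩, -⟩ := hlow (kv (fun k => ((a k : ℕ) : ℤ)) π k) x hx
      exact ⟨_, hy⟩
    · intro x hx k
      exact (hlow (kv (fun k => ((a k : ℕ) : ℤ)) π k) x hx).2
  obtain ⟨w, hw⟩ := hdirs (fun _ => 0) 1
  obtain ⟨G, hG⟩ := gspec_exists D hD _ w hw
  obtain ⟨Z, hZ1, hZ2, hZ3⟩ := zfun D hD u hu _ w hw G hG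
  have hval := CN_value D hD u hu _ w hw G hG L hL.equi hdirs
  have hint := CN_intT hK D hD b f hb2 hf2 rfl hp2 u L hL hdirs
  have hZint : Int2 (Z 1 / R0 ^ (m + 1)) := by
    rcases le_total 0 (Delta (D.lm u)) with h | h
    · rw [hZ3, abs_of_nonneg h, ← hval]
      exact hint
    · rw [hZ3, abs_of_nonpos h]
      have : (m.factorial : ℂ) * ((-Delta (D.lm u) : ℝ) : ℂ) *
          (∫ z in Set.Icc (0 : Fin m → ℝ) 1, D.Bv w G (fun _ => tt (D.lm u) z)) / R0 ^ (m + 1) =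
          -(CN (m + 1) D.Jv (fun a => .A (L a)) / R0 ^ (m + 1)) := by
        rw [hval]
        push_cast
        ring
      rw [this]
      exact hint.neg
  have hJ2 : IsCoprime J (Ideal.span {2}) := by
    rw [hJdef]
    refine IsCoprime.mul_left ?_ hf2
    rw [Ideal.isCoprime_span_singleton_iff]
    exact ⟨1, -1, by norm_num⟩
  obtain ⟨ν, hν, hT⟩ := odd_changeT hK J J' hJ0 hJ2 rfl D.X h0X (by
    intro v hv x hx
    have h1 : (v : 𝓞 K) * x - D.c₀ = ((v : 𝓞 K) - 1) * D.c₀ + v * (x - D.c₀) := by ring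
    rw [D.mem_X, h1]
    exact D.I.add_mem (hact v hv) (D.I.mul_mem_left _ hx))
  refine ⟨fun s => Z s / ν, ?_, ?_, ?_⟩
  · exact fun s hs => (hZ1 s hs).div_const
  · intro T hTT s hs
    obtain ⟨T', hT', hφ⟩ := hT T hTT
    refine hφ (fun x => gw c p x * nf s x) (Z s) ?_ ?_
    · intro v hv x _
      rw [Z3_gw, Z3_nf hσ s v (norm_one D hσ v (hJ3 hv))]
    · exact hZ2 T' hT'.sub (Z3_bij h0X hT' u hu2 hu3) s hs
  · have : Z 1 / (ν : ℂ) / R0 ^ (m + 1) = Z 1 / R0 ^ (m + 1) / ν := by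
      rw [div_right_comm]
    show Int2 (Z 1 / (ν : ℂ) / R0 ^ (m + 1))
    rw [this]
    exact hZint.div_odd ν hν

end H19Z
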