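import Mathlib
import Pool.Agent.Lib.H19Y.Y2
import Pool.Agent.Lib.H19Z.Y1

/-! The twisted L-value: congruence form (TWF of H55N for fields unramified above 2 and arbitrary odd conductors). -/

open NumberField IsDedekindDomain

namespace H19Z

open H55B H55C H55N H19X H19Y

variable {K : Type} [Field K] [NumberField K] [Algebra F K]

/-- The congruence between the twisted L-value and the L-value with the Euler factors at f removed. -/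
theorem twist_congT (hS2 : SubT K) (f : Ideal (𝓞 K)) (χ : Ideal (𝓞 K) →*₀ ℂ)
    (hχ : QChr6 f χ) (ΛK : ℂ → ℂ) (hL : LC (Psi K) ΛK) :
    ∃ (Λ : ℂ → ℂ) (S : Finset (HeightOneSpectrum (𝓞 K))) (u r : ℂ), LC (Psi K * χ) Λ ∧
      (∀ w, w ∈ S ↔ f ≤ w.asIdeal) ∧ Unit2 u ∧ Int2 r ∧
      Λ 1 / R0 ^ Module.finrank F K = u * ((∏ w ∈ S, (1 - tm (Psi K) 1 w.asIdeal)) *
        (ΛK 1 / R0 ^ Module.finrank F K)) + 2 * r := by
  classical
  obtain ⟨k, hk⟩ := subT_rank hS2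
  have hU := subT_unrT hS2
  obtain ⟨m, hm2⟩ : ∃ m, 2 ^ k = m + 1 := ⟨2 ^ k - 1, by
    have := Nat.one_le_two_pow (n := k)
    omega⟩
  have hm : Module.finrank F K = m + 1 := hk.trans hm2
  have hm3 : ¬ 3 ∣ m + 1 := TWF_pow_cop k m hm2
  have hn3 : ¬ 3 ∣ Module.finrank F K := by rwa [hm]
  obtain ⟨ι, hι, b, c₀, T, hcd⟩ := exists_CD f hχ.ne
  have hf2 := hχ.two
  have h6 : ∀ i, IsCoprime (b i) (Ideal.span {(6 : 𝓞 K)}) := fun i => (hcd.cop i).of_mul_right_left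
  have h63 : (Ideal.span {(6 : 𝓞 K)} : Ideal (𝓞 K)) = Ideal.span {2} * Ideal.span {3} := by
    rw [Ideal.span_singleton_mul_span_singleton]
    norm_num
  have hb2 : ∀ i, IsCoprime (b i) (Ideal.span {(2 : 𝓞 K)}) := fun i => by
    have := h6 i
    rw [h63] at this
    exact this.of_mul_right_left
  have hlam : ∀ i, c₀ i ∉ Ideal.span {algebraMap O (𝓞 K) lam} * b i := fun i => TWF_lam (hcd.prim i)
  have hcore := fun i => coreT K m hm hU (b i) f (hcd.ne i) (hb2 i) hχ.ne hf2 (c₀ i) (hcd.mem i)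
    (hlam i)
  choose Bad hBad hcore using hcore
  have hnop := fun i => nopoles K m hm hm3 (b i) f (hcd.ne i) hχ.ne (c₀ i) (hcd.mem i) (hlam i)
  choose Z0 hZ0 hZ0s using hnop
  obtain ⟨c, p, hs, hcb, hun⟩ := exists_smooth K hn3 m
    ((⋃ i, Bad i) ∪ ⋃ i, {w : Ideal (𝓞 K) | b i ≤ w})
    ((Set.finite_iUnion hBad).union (Set.finite_iUnion fun i => TWF_finite (b i) (hcd.ne i)))
  have hcp : ∀ j, (c j).IsPrime := fun j => (hcb j).1
  have hbc : ∀ i j, IsCoprime (b i) (c j) := by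
    intro i j
    rw [Ideal.isCoprime_iff_sup_eq]
    by_contra h
    have hmax : (c j).IsMaximal := (hcp j).isMaximal (TW_ne hs j)
    have h1 : c j ≤ b i ⊔ c j := le_sup_right
    have h2 : b i ⊔ c j = c j := (hmax.eq_of_le h h1).symm
    apply (hcb j).2
    refine Or.inr (Set.mem_iUnion.2 ⟨i, ?_⟩)
    show b i ≤ c j
    rw [← h2]
    exact le_sup_left
  have hZex := fun i => hcore i c p hs (fun j hj => (hcb j).2 (Or.inl (Set.mem_iUnion.2 ⟨i, hj⟩)))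
  choose Z hZa hZs hZi using hZex
  have hkap := fun i => exists_kappa6 f χ hχ (b i) (hcd.ne i) (hcd.cop i) (c₀ i) (hcd.mem i)
    (hcd.prim i)
  choose κ κ' hκu hκκ hκ using hkap
  have hC : Coef f ι b c₀ (Psi K * χ) κ := coef_mul hχ.zero hχ.norm_le
    (fun i x hx a ha => ⟨(hκ i x hx a ha).1, (hκ i x hx a ha).2.1⟩)
  have hC' : Coef f ι b c₀ (Psi K * oneI f) κ' := coef_mul (oneI_zero f) (oneI_norm_le f)
    (fun i x hx a ha => ⟨(hκ i x hx a ha).1, (hκ i x hx a ha).2.2⟩)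
  have hNb : ∀ i, Ideal.absNorm (b i) ≠ 0 := fun i => by
    rw [Ne, Ideal.absNorm_eq_zero_iff]
    exact hcd.ne i
  -- the smoothed functions
  have hZsum : ∀ i s, 3 / 2 < s.re → HasSum (fun x : T i => gw c p x * nf s (x : 𝓞 K)) (Z i s) :=
    fun i s hs' => hZs i (T i) (hcd.trans i) s hs'
  have e1 : ∀ s : ℂ, 3 / 2 < s.re → (∏ j, (1 - (p j : ℂ) * tm (Psi K * χ : Ideal (𝓞 K) →*₀ ℂ) s (c j))) *
      ∑' a, tm (Psi K * χ : Ideal (𝓞 K) →*₀ ℂ) s a =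
        ∑ i, κ i * (Ideal.absNorm (b i) : ℂ) ^ s * Z i s :=
    fun s hs' => series_eq hcd hC hs hcp hbc Z s hs' fun i => hZsum i s hs'
  have e2 : ∀ s : ℂ, 3 / 2 < s.re → (∏ j, (1 - (p j : ℂ) * tm (Psi K * oneI f : Ideal (𝓞 K) →*₀ ℂ) s (c j))) *
      ∑' a, tm (Psi K * oneI f : Ideal (𝓞 K) →*₀ ℂ) s a =
        ∑ i, κ' i * (Ideal.absNorm (b i) : ℂ) ^ s * Z i s :=
    fun s hs' => series_eq hcd hC' hs hcp hbc Z s hs' fun i => hZsum i s hs'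
  have e3 : ∀ s : ℂ, 3 / 2 < s.re → HasSum (tm (Psi K * χ : Ideal (𝓞 K) →*₀ ℂ) s)
      (∑ i, κ i * (Ideal.absNorm (b i) : ℂ) ^ s * Z0 i s) :=
    fun s hs' => series_eq0 hcd hC Z0 s fun i => hZ0s i (T i) (hcd.trans i) s hs'
  have hGa : ∀ κ : ι → ℂ, AnalyticOnNhd ℂ
      (fun s : ℂ => ∑ i, κ i * (Ideal.absNorm (b i) : ℂ) ^ s * Z i s) {s | 1 / 2 < s.re} := by
    intro κ s hs'
    exact Finset.analyticAt_fun_sum _ fun i _ =>
      (analyticAt_const.mul (TW_pow_analytic _ (hNb i) Set.univ s trivial)).mul (hZa i s hs')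
  have hZ0a : AnalyticOnNhd ℂ
      (fun s : ℂ => ∑ i, κ i * (Ideal.absNorm (b i) : ℂ) ^ s * Z0 i s)
      {s | 3 / 2 - 1 / (2 * (m + 1 : ℝ)) < s.re} := by
    intro s hs'
    exact Finset.analyticAt_fun_sum _ fun i _ =>
      (analyticAt_const.mul (TW_pow_analytic _ (hNb i) Set.univ s trivial)).mul (hZ0 i s hs')
  have hPa : ∀ h : Ideal (𝓞 K) →*₀ ℂ, AnalyticOnNhd ℂ
      (fun s : ℂ => ∏ j, (1 - (p j : ℂ) * tm h s (c j))) {s | 1 / 2 < s.re} := by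
    intro h s hs'
    exact Finset.analyticAt_fun_prod _ fun j _ =>
      (analyticAt_const.sub (analyticAt_const.mul
        (TW_tm_analytic h (c j) (TW_ne hs j) Set.univ s trivial)))
  obtain ⟨Λ, hΛa, hΛ, hΛG⟩ := glue (1 / (2 * (m + 1 : ℝ))) (by positivity)
    (fun s : ℂ => ∑ i, κ i * (Ideal.absNorm (b i) : ℂ) ^ s * Z i s)
    (fun s : ℂ => ∑ i, κ i * (Ideal.absNorm (b i) : ℂ) ^ s * Z0 i s)
    (fun s : ℂ => ∏ j, (1 - (p j : ℂ) * tm (Psi K * χ : Ideal (𝓞 K) →*₀ ℂ) s (c j)))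
    (hGa κ) hZ0a (hPa _)
    (fun s hs' => Finset.prod_ne_zero_iff.2 fun j _ => P_ne6 f χ hχ (c j) (p j) (hs.prime j)
      (hs.norm j) s hs')
    (fun s hs' => by
      show _ = _ * _
      rw [← e1 s hs', (e3 s hs').tsum_eq])
  -- the value at 1
  obtain ⟨hKa, hKs⟩ := hL
  obtain ⟨S, hS, hSs⟩ := one_sum K f hχ.ne
  have e4 : ∀ s : ℂ, 1 / 2 < s.re →
      (∑ i, κ' i * (Ideal.absNorm (b i) : ℂ) ^ s * Z i s) =
      (∏ j, (1 - (p j : ℂ) * tm (Psi K * oneI f : Ideal (𝓞 K) →*₀ ℂ) s (c j))) *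
        ((∏ w ∈ S, (1 - tm (Psi K) s w.asIdeal)) * ΛK s) := by
    intro s hs'
    refine ident (fun s : ℂ => ∑ i, κ' i * (Ideal.absNorm (b i) : ℂ) ^ s * Z i s)
      (fun s : ℂ => (∏ j, (1 - (p j : ℂ) * tm (Psi K * oneI f : Ideal (𝓞 K) →*₀ ℂ) s (c j))) *
        ((∏ w ∈ S, (1 - tm (Psi K) s w.asIdeal)) * ΛK s)) (hGa κ') ?_ ?_ s hs'
    · refine (hPa _).mul (AnalyticOnNhd.mul ?_ hKa)
      intro z hz
      exact Finset.analyticAt_fun_prod _ fun w _ =>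
        (analyticAt_const.sub (TW_tm_analytic (Psi K) w.asIdeal w.ne_bot Set.univ z trivial))
    · intro z hz
      show _ = _ * (_ * _)
      rw [← e2 z hz, (hSs z hz).tsum_eq, (hKs z hz).tsum_eq]
  have h1re : (1 / 2 : ℝ) < (1 : ℂ).re := by norm_num
  have u1 : Unit2 (∏ j, (1 - (p j : ℂ) * tm (Psi K * χ : Ideal (𝓞 K) →*₀ ℂ) 1 (c j))) := by
    refine Unit2.prod _ _ fun j _ => TW_factor χ (c j) (p j) (hs.prime j) (hs.norm j)
      (hun j).1 (hun j).2 ?_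
    by_cases hj : IsCoprime (c j) f
    · rcases hχ.val _ (TW_ne hs j) hj with h | h
      · exact Or.inl h
      · exact Or.inr (Or.inl h)
    · exact Or.inr (Or.inr (hχ.zero _ hj))
  have u2 : Unit2 (∏ j, (1 - (p j : ℂ) * tm (Psi K * oneI f : Ideal (𝓞 K) →*₀ ℂ) 1 (c j))) := by
    refine Unit2.prod _ _ fun j _ => TW_factor (oneI f) (c j) (p j) (hs.prime j) (hs.norm j)
      (hun j).1 (hun j).2 ?_
    rcases oneI_eq f (c j) with h | h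
    · exact Or.inl h
    · exact Or.inr (Or.inr h)
  have hε : ∀ i, ∃ ε : ℂ, Int2 ε ∧ κ i = κ' i + 2 * ε := by
    intro i
    rcases hκκ i with h | h
    · exact ⟨0, Int2_zero, by rw [h]; ring⟩
    · exact ⟨-κ' i, Int2_neg (Int2_of_unit (hκu i)), by rw [h]; ring⟩
  choose ε hε hεκ using hε
  have e6 : (∑ i, κ i * (Ideal.absNorm (b i) : ℂ) ^ (1 : ℂ) * Z i 1) / R0 ^ Module.finrank F K =
      (∑ i, κ' i * (Ideal.absNorm (b i) : ℂ) ^ (1 : ℂ) * Z i 1) / R0 ^ Module.finrank F K +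
      2 * ∑ i, ε i * ((Ideal.absNorm (b i) : ℕ) : ℂ) * (Z i 1 / R0 ^ (m + 1)) := by
    rw [hm, Finset.mul_sum, Finset.sum_div, Finset.sum_div, ← Finset.sum_add_distrib]
    refine Finset.sum_congr rfl fun i _ => ?_
    rw [hεκ i, Complex.cpow_one]
    ring
  have e5 := hΛG 1 h1re
  have hne := u1.ne_zero
  have e7 : Λ 1 / R0 ^ Module.finrank F K =
      ((∑ i, κ i * (Ideal.absNorm (b i) : ℂ) ^ (1 : ℂ) * Z i 1) / R0 ^ Module.finrank F K) *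
      (∏ j, (1 - (p j : ℂ) * tm (Psi K * χ : Ideal (𝓞 K) →*₀ ℂ) 1 (c j)))⁻¹ := by
    rw [e5]
    field_simp
  refine ⟨Λ, S, (∏ j, (1 - (p j : ℂ) * tm (Psi K * oneI f : Ideal (𝓞 K) →*₀ ℂ) 1 (c j))) *
    (∏ j, (1 - (p j : ℂ) * tm (Psi K * χ : Ideal (𝓞 K) →*₀ ℂ) 1 (c j)))⁻¹,
    (∑ i, ε i * ((Ideal.absNorm (b i) : ℕ) : ℂ) * (Z i 1 / R0 ^ (m + 1))) *
    (∏ j, (1 - (p j : ℂ) * tm (Psi K * χ : Ideal (𝓞 K) →*₀ ℂ) 1 (c j)))⁻¹,
    ⟨hΛa, fun s hs' => ?_⟩, hS, u2.mul u1.inv, ?_, ?_⟩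
  · rw [hΛ s hs']
    exact e3 s hs'
  · exact Int2_mul (Int2_sum _ _ fun i _ => Int2_mul (Int2_mul (hε i) (Int2_nat _)) (hZi i))
      (Int2_of_unit u1.inv)
  · rw [e7, e6, e4 1 h1re]
    ring

end H19Z
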