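import Mathlib
import Pool.Agent.Lib.H19Z.Y2
import Pool.Agent.Lib.H19Z.Y4
import Pool.Agent.Lib.H19Z.Y6
import Pool.Agent.Lib.H19Y.Y5

/-! The Hecke L-values over the tower. -/

open NumberField IsDedekindDomain

namespace H19Z

open H55B H55C H55N H19X H19Y

theorem stepT (K K' : Type) [Field K] [NumberField K] [Algebra F K] [Field K'] [NumberField K']
    [Algebra F K'] [Algebra K K'] [IsScalarTower F K K'] (h2 : Module.finrank K K' = 2)
    (hS : SubT K) (hS' : SubT K') (ΛK : ℂ → ℂ) (h : Val (Psi K) ΛK) :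
    ∃ Λ : ℂ → ℂ, Val (Psi K') Λ := by
  obtain ⟨f, χ, hf, hχ, hram⟩ := exists_chrT K K' h2 (subT_unrT hS')
  obtain ⟨Λχ, S, u, r, hlc, hSf, hu, hr, hval⟩ := twist_congT hS f χ hf ΛK h.lc
  have h2S : ∀ w ∈ S, (2 : 𝓞 K) ∉ w.asIdeal := by
    intro w hw h2w
    have h1 := (hSf w).1 hw
    have h3 := Ideal.isCoprime_iff_sup_eq.1 hf.two
    apply w.isPrime.ne_top
    rw [← top_le_iff, ← h3]
    exact sup_le h1 ((Ideal.span_singleton_le_iff_mem _).2 h2w)
  have h6S : ∀ w ∈ S, (3 : 𝓞 K) ∉ w.asIdeal → (6 : 𝓞 K) ∉ w.asIdeal := by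
    intro w hw h3 h6
    have e : (6 : 𝓞 K) = 2 * 3 := by norm_num
    rw [e] at h6
    rcases w.isPrime.mem_or_mem h6 with h | h
    · exact h2S w hw h
    · exact h3 h
  have hE : Int2 (∏ w ∈ S, (1 - tm (Psi K) 1 w.asIdeal)) :=
    Int2.prod _ _ fun w hw => Efac_int w (h2S w hw)
  have hrank : Module.finrank F K' = Module.finrank F K + Module.finrank F K := by
    rw [← Module.finrank_mul_finrank F K K', h2]; ring
  have hval' : (ΛK 1 * Λχ 1) / R0 ^ Module.finrank F K' =
      (ΛK 1 / R0 ^ Module.finrank F K) * (Λχ 1 / R0 ^ Module.finrank F K) := by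
    rw [hrank, pow_add, mul_div_mul_comm]
  have hχint : Int2 (Λχ 1 / R0 ^ Module.finrank F K) := by
    rw [hval]
    exact ((Int2_of_unit hu).mul (hE.mul h.int)).add (Non2_two hr).int
  -- the continuation
  have hcont : LC (Psi K') (fun s => ΛK s * Λχ s) := by
    obtain ⟨ha1, hs1⟩ := h.lc
    obtain ⟨ha2, hs2⟩ := hlc
    refine ⟨fun s hs => (ha1 s hs).mul (ha2 s hs), fun s hs => ?_⟩
    have hsum := tm_summable (Psi K') (fun a => Psi_norm_le a) s hs
    have hL := AI_LSeries (Psi K') (Psi K').map_zero s hsum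
    have hsum1 := tm_summable (Psi K) (fun a => Psi_norm_le a) s hs
    have hL1 := AI_LSeries (Psi K) (Psi K).map_zero s hsum1
    have hb : ∀ a : Ideal (𝓞 K), ‖(Psi K * χ : Ideal (𝓞 K) →*₀ ℂ) a‖ ^ 2 ≤ Ideal.absNorm a := by
      intro a
      refine le_trans ?_ (Psi_norm_le a)
      have h4 : (Psi K * χ : Ideal (𝓞 K) →*₀ ℂ) a = Psi K a * χ a := rfl
      rw [h4, norm_mul, mul_pow]
      exact mul_le_of_le_one_right (by positivity) (pow_le_one₀ (norm_nonneg _) (hf.norm_le a))
    have hsum2 := tm_summable (Psi K * χ : Ideal (𝓞 K) →*₀ ℂ) hb s hs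
    have hL2 := AI_LSeries (Psi K * χ : Ideal (𝓞 K) →*₀ ℂ)
      (Psi K * χ : Ideal (𝓞 K) →*₀ ℂ).map_zero s hsum2
    have hL3 := ArithmeticFunction.LSeriesHasSum_mul hL1 hL2
    rw [← AI_step K K' χ hχ] at hL3
    have h5 : ∑' a, tm (Psi K') s a = ΛK s * Λχ s := by
      rw [hL.unique hL3, (hs1 s hs).tsum_eq, (hs2 s hs).tsum_eq]
    show HasSum (tm (Psi K') s) (ΛK s * Λχ s)
    rw [← h5]
    exact hsum.of_norm.hasSum
  refine ⟨fun s => ΛK s * Λχ s, hcont, ?_, ?_, ?_⟩
  · show Int2 ((ΛK 1 * Λχ 1) / R0 ^ Module.finrank F K')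
    rw [hval']
    exact h.int.mul hχint
  · intro hnb
    show Unit2 ((ΛK 1 * Λχ 1) / R0 ^ Module.finrank F K')
    rw [hval']
    have hnbK : ¬ Bad K := by
      rintro ⟨w, h6, ⟨x, hx⟩, he⟩
      obtain ⟨W, hW, -⟩ := T0_above K' w
      apply hnb
      refine Bad.up w h6 x hx W hW.over ?_
      rw [Ideal.ramificationIdx_tower (R := O) w.asIdeal W.asIdeal]
      intro h1
      exact he (Nat.eq_one_of_mul_eq_one_right h1)
    have hEu : Unit2 (∏ w ∈ S, (1 - tm (Psi K) 1 w.asIdeal)) := by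
      refine Unit2.prod _ _ fun w hw => ?_
      by_cases h3w : (3 : 𝓞 K) ∈ w.asIdeal
      · have h0 : tm (Psi K) 1 w.asIdeal = 0 := by
          unfold tm
          rw [H7_three w h3w, zero_mul]
        rw [h0, sub_zero]
        intro V hV
        rw [map_one]
      refine Efac_unit K w (I2_under w) rfl ⟨not_two_under w (h2S w hw),
        not_three_under w h3w, ?_⟩ (SubT.inertia hS w)
      rintro ⟨x, hx⟩
      have hr := (hram w).2 ((hSf w).1 hw)
      obtain ⟨W, hW, hWm⟩ := hr
      have hx' : (algebraMap O (𝓞 K) x) ^ 3 - 2 ∈ w.asIdeal := by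
        have : algebraMap O (𝓞 K) (x ^ 3 - 2) ∈ w.asIdeal := hx
        rwa [map_sub, map_pow, map_ofNat] at this
      have hmap0 : w.asIdeal.map (algebraMap (𝓞 K) (𝓞 K')) ≠ ⊥ := by
        intro h
        rw [Ideal.map_eq_bot_iff_of_injective
          (FaithfulSMul.algebraMap_injective (𝓞 K) (𝓞 K'))] at h
        exact w.ne_bot h
      have hW0 : W ≠ ⊥ := by
        rintro rfl
        apply hmap0
        rw [hWm]
        exact zero_pow two_ne_zero
      have hunder : W.under (𝓞 K) = w.asIdeal := by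
        symm
        apply w.isMaximal.eq_of_le
        · have := Ideal.IsPrime.under (𝓞 K) W
          exact this.ne_top
        · apply Ideal.map_le_iff_le_comap.1
          rw [hWm]
          exact Ideal.pow_le_self two_ne_zero
      have hlies : W.LiesOver w.asIdeal := ⟨hunder.symm⟩
      have h4 : w.asIdeal.ramificationIdx' W = 2 := by
        apply Ideal.ramificationIdx'_spec
        · rw [hWm]
        · rw [hWm]
          intro h5
          have h6 := Ideal.pow_right_strictAnti W hW0 hW.ne_top (Nat.lt_succ_self 2)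
          exact absurd h5 (not_le_of_gt h6)
      rw [Ideal.ramificationIdx'_eq_ramificationIdx w.asIdeal W w.ne_bot] at h4
      apply hnb
      refine Bad.up w (h6S w hw h3w) _ hx' ⟨W, hW, hW0⟩ hunder.symm ?_
      rw [Ideal.ramificationIdx_tower (R := O) w.asIdeal W, h4]
      intro h1
      have := Nat.eq_one_of_mul_eq_one_left h1
      omega
    refine (h.unit hnbK).mul ?_
    rw [hval]
    exact Unit2_add (hu.mul (hEu.mul (h.unit hnbK))) hr
  · intro hb
    show Non2 ((ΛK 1 * Λχ 1) / R0 ^ Module.finrank F K')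
    rw [hval']
    by_cases hbK : Bad K
    · exact (h.non hbK).mul_int hχint
    · refine Int2.mul_non h.int ?_
      obtain ⟨W, h6, ⟨x, hx⟩, he⟩ := hb
      obtain ⟨w, hw⟩ := exists_under (K := K) W
      obtain ⟨y, hy⟩ := cube_down h2 W w hw x hx
      have h6w : (6 : 𝓞 K) ∉ w.asIdeal := by
        intro h
        apply h6
        rw [hw, Ideal.under_def, Ideal.mem_comap, map_ofNat] at h
        exact h
      have hlw : W.asIdeal.LiesOver w.asIdeal := ⟨hw⟩
      have hew : w.asIdeal.ramificationIdx O = 1 := by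
        by_contra hne
        exact hbK ⟨w, h6w, ⟨y, hy⟩, hne⟩
      have heW : W.asIdeal.ramificationIdx (𝓞 K) ≠ 1 := by
        intro h1
        apply he
        rw [Ideal.ramificationIdx_tower (R := O) w.asIdeal W.asIdeal, hew, h1]
      have hwS : w ∈ S := (hSf w).2 ((hram w).1 (ram_of_e h2 w W hw heW))
      have hEn : Non2 (∏ w ∈ S, (1 - tm (Psi K) 1 w.asIdeal)) := by
        classical
        rw [← Finset.mul_prod_erase S _ hwS]
        refine Non2.mul_int ?_ (Int2.prod _ _ fun w' hw' =>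
          Efac_int w' (h2S w' (Finset.mem_of_mem_erase hw')))
        have h3w : (3 : 𝓞 K) ∉ w.asIdeal := fun h3 => h6w (six_of_three w h3)
        obtain ⟨z, hz⟩ := cube_baseT hS w y hy
        exact Efac_non w (I2_under w) rfl (not_two_under w (h2S w hwS)) (not_three_under w h3w) z hz
      rw [hval]
      exact (Int2.mul_non (Int2_of_unit hu) (hEn.mul_int h.int)).add (Non2_two hr)

/-- The L-value over K is integral; it is a unit if K is not bad, and not a unit if K is bad. -/
theorem L_allT (k : ℕ) : ∀ (K : Type) [Field K] [NumberField K] [Algebra F K], SubT K →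
    Module.finrank F K = 2 ^ k → ∃ Λ : ℂ → ℂ, Val (Psi K) Λ := by
  induction k with
  | zero =>
    intro K _ _ _ _ hk
    rw [pow_zero] at hk
    obtain ⟨Λ, h1, h2, h3⟩ := LV_base K hk
    exact ⟨Λ, ⟨h1, h2⟩, Int2_of_unit h3, fun _ => h3, fun hb => absurd hb (not_bad_base K hk)⟩
  | succ k ih =>
    intro K' _ _ _ hS hk
    obtain ⟨K, i1, i2, i3, i4, i5, hSK, h2⟩ := exists_subT K' hS (by
      rw [hk]
      exact Nat.one_lt_two_pow (Nat.succ_ne_zero k))
    have h3 : Module.finrank F K = 2 ^ k := by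
      have h4 := Module.finrank_mul_finrank F K K'
      rw [h2, hk, pow_succ] at h4
      exact Nat.eq_of_mul_eq_mul_right (by norm_num) h4
    obtain ⟨ΛK, hΛK⟩ := ih K hSK h3
    exact stepT K K' h2 hSK hS ΛK hΛK

end H19Z
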