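import Mathlib
import Pool.Agent.Lib.H19Z.Stat
import Pool.Agent.Lib.H19Z.Y5
import Pool.Agent.Lib.H19Z.Y7
import Pool.Agent.Lib.H19Z.L8
import Pool.Agent.Lib.H19Z.S2
import Pool.Agent.Lib.H19Z.Fin
import Pool.Agent.Lib.H19Y.Y10

/-! The exact criterion for fields unramified above 2. -/

open NumberField IsDedekindDomain

namespace H19Z

open H55B H55C H55E H55N H19X H19Y

/-- shaK is the L-value divided by the power of the period, times a unit. -/
theorem shaK_eq (K : Type) [Field K] [NumberField K] (d : ℤ) (hd : AdmD d)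
    (hD : Odd (NumberField.discr K)) (hE : Odd (torsd d K)) (ht : Unit2 ((CEK d K : ℝ) : ℂ))
    (L : PeriodPair) (h2 : L.g₂ = 0) (h3 : L.g₃ = -(d : ℂ) ^ 3) :
    ∃ u : ℂ, Unit2 u ∧ ∀ L1 : ℂ, shaK d K L L1 =
      (L1 / R0 ^ (InfinitePlace.nrRealPlaces K + 2 * InfinitePlace.nrComplexPlaces K)) * u := by
  obtain ⟨X, hR0, -⟩ := exists_X
  have hr : R0 ≠ 0 := hR0
  obtain ⟨hv, hw⟩ := R0_Omrd d hd L h2 h3
  have hE' := (W13_nat hE).pow 2
  have hs := W13_sqrt _ hD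
  refine ⟨(R0 / (H55D.Omr L : ℂ)) ^ InfinitePlace.nrRealPlaces K *
    (R0 ^ 2 / (Om L : ℂ)) ^ InfinitePlace.nrComplexPlaces K *
    ((Real.sqrt |(NumberField.discr K : ℝ)| : ℝ) : ℂ) * (torsd d K : ℂ) ^ 2 /
      ((CEK d K : ℝ) : ℂ),
    W13_div (((hv.pow _).mul (hw.pow _) |>.mul hs).mul hE') ht, fun L1 => ?_⟩
  unfold shaK
  rw [H55D.Fin1_alg L1 _ _ _ _ _ R0 _ _ hr]
  ring

/-- The twist by the quadratic character of d. -/
theorem twist_dT (K : Type) [Field K] [NumberField K] [Algebra F K] (hS : SubT K) (d : ℤ)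
    (hd : AdmD d) (ΛK : ℂ → ℂ) (h : Val (Psi K) ΛK) :
    ∃ Λ : ℂ → ℂ, Val (Psi K * chd d K : Ideal (𝓞 K) →*₀ ℂ) Λ := by
  have hq := chd_qchr K d hd
  obtain ⟨Λ, S, u, r, hlc, hSf, hu, hr, hval⟩ :=
    twist_congT hS _ _ (QChr6.of_qchr hq) ΛK h.lc
  have hEu : Unit2 (∏ w ∈ S, (1 - tm (Psi K) 1 w.asIdeal)) :=
    Unit2.prod _ _ fun w hw => Efac_unit K w (I2_under w) rfl
      (hq.good w (I2_under w) ((hSf w).1 hw) rfl) (SubT.inertia hS w)
  refine ⟨Λ, hlc, ?_, fun hb => ?_, fun hb => ?_⟩ <;> rw [hval]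
  · exact ((Int2_of_unit hu).mul ((Int2_of_unit hEu).mul h.int)).add (Non2_two hr).int
  · exact Unit2_add (hu.mul (hEu.mul (h.unit hb))) hr
  · exact (Int2.mul_non (Int2_of_unit hu) (Int2.mul_non (Int2_of_unit hEu) (h.non hb))).add
      (Non2_two hr)

/-- Assembly of the criterion from the value at 1. -/
theorem crit_of_valT (K : Type) [Field K] [NumberField K] (hK : ClsT K) (d : ℤ) (hd : AdmD d)
    (hD : Odd (NumberField.discr K)) (hE : Odd (torsd d K))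
    (ht : Unit2 ((CEK d K : ℝ) : ℂ)) (hsel : GoodRam K → SelTwod d K) (Λ : ℂ → ℂ)
    (a1 : AnalyticOnNhd ℂ Λ {s | 1 / 2 < s.re})
    (a2 : ∀ s : ℂ, 3 / 2 < s.re →
      LSeriesSummable (fun n => ((((Ed d).baseChange K).LFunction n : ℤ) : ℂ)) s ∧
      Λ s = ((Ed d).baseChange K).LSeries s)
    (hi : Int2 (Λ 1 / R0 ^ (InfinitePlace.nrRealPlaces K + 2 * InfinitePlace.nrComplexPlaces K)))
    (hg : GoodRam K →
      Unit2 (Λ 1 / R0 ^ (InfinitePlace.nrRealPlaces K + 2 * InfinitePlace.nrComplexPlaces K)))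
    (hb : ¬ GoodRam K →
      Non2 (Λ 1 / R0 ^ (InfinitePlace.nrRealPlaces K + 2 * InfinitePlace.nrComplexPlaces K))) :
    CritK d K := by
  have hsg : SelZ d K ↔ GoodRam K :=
    ⟨fun hs => sel_iffT K hK d hd hs, fun h => (hsel h).1⟩
  refine ⟨period_existsd d hd, Λ, a1, a2, fun L g2 g3 => ?_⟩
  obtain ⟨u, hu, hsha⟩ := shaK_eq K d hd hD hE ht L g2 g3
  rw [hsha]
  refine ⟨hi.mul (Int2_of_unit hu), ?_, hsg, fun hs => (hsel (hsg.1 hs)).2, fun hs => ?_⟩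
  · constructor
    · intro hs
      have h1 := hg (hsg.1 hs)
      exact ⟨(div_ne_zero_iff.1 h1.ne_zero).1, h1.mul hu⟩
    · rintro ⟨-, h⟩
      rw [hsg]
      by_contra hng
      exact ((hb hng).mul_int (Int2_of_unit hu)).not_unit h
  · exact (hb fun h => hs (hsg.2 h)).mul_int (Int2_of_unit hu)

/-- Fields containing the cube roots of unity. -/
theorem critFT (K : Type) [Field K] [NumberField K] [Algebra F K] (hK : ClsT K) (hS : SubT K)
    (d : ℤ) (hd : AdmD d) (hA : UnrAt d K) (hsel : GoodRam K → SelTwod d K) : CritK d K := by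
  obtain ⟨k, hk⟩ := subT_rank hS
  obtain ⟨ΛK, hΛK⟩ := L_allT k K hS hk
  obtain ⟨Λd, hΛd⟩ := twist_dT K hS d hd ΛK hΛK
  obtain ⟨Λ, a1, a2, a3⟩ := L_of_lcT K hS d hd hA Λd hΛd.lc
  obtain ⟨K', i1, i2, i3, i4, ⟨δ, hδ⟩, hS'⟩ := exists_sqrt_anyT K hS d hd
  obtain ⟨k', hk'⟩ := subT_rank hS'
  refine crit_of_valT K hK d hd (odd_discr K (subT_unrT hS))
    (tors_odd K K' k' hk' d hd.ne_zero δ hδ) (CEK_unit K hS d hd) hsel Λ a1 a2 ?_ ?_ ?_ <;>
    rw [rankF K, a3]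
  · exact hΛd.int.mul (Int2.conj hΛd.int)
  · intro hg
    have h1 := hΛd.unit ((goodRam_iff K).1 hg)
    exact h1.mul h1.conj
  · intro hg
    have h1 := hΛd.non (by
      by_contra h
      exact hg ((goodRam_iff K).2 h))
    exact h1.mul_int (Int2.conj hΛd.int)

/-- Fields not containing the cube roots of unity. -/
theorem crit0T (K₀ K : Type) [Field K₀] [NumberField K₀] [Field K] [NumberField K] [Algebra F K]
    [Algebra K₀ K] (hQ : H13E.Quad K₀ K) (hK : ClsT K₀) (hS : SubT K) (d : ℤ) (hd : AdmD d)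
    (hA : UnrAt d K₀) (hsel : GoodRam K₀ → SelTwod d K₀) : CritK d K₀ := by
  obtain ⟨k, hk⟩ := subT_rank hS
  obtain ⟨ΛK, hΛK⟩ := L_allT k K hS hk
  obtain ⟨Λd, hΛd⟩ := twist_dT K hS d hd ΛK hΛK
  obtain ⟨a1, a2⟩ := L_of_lc0T hQ hS d hd hA Λd hΛd.lc
  obtain ⟨K', i1, i2, i3, i4, ⟨δ, hδ⟩, hS'⟩ := exists_sqrt_anyT K hS d hd
  obtain ⟨k', hk'⟩ := subT_rank hS'
  letI : Algebra K₀ K' := ((algebraMap K K').comp (algebraMap K₀ K)).toAlgebra
  refine crit_of_valT K₀ hK d hd (odd_discr0 K (subT_unrT hS))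
    (tors_odd K₀ K' k' hk' d hd.ne_zero δ hδ) (CEK_unit K hS d hd) hsel Λd a1 a2 ?_ ?_ ?_ <;>
    rw [rank0 K₀ K hQ]
  · exact hΛd.int
  · intro hg
    exact hΛd.unit ((goodRam_iff K).1 (good_up hQ hg))
  · intro hg
    refine hΛd.non ?_
    by_contra h
    exact hg (bad_up hQ ((goodRam_iff K).2 h))

/-- THEOREM (the exact criterion at 2). -/
theorem critK (K : Type) [Field K] [NumberField K] (hK : ClsT K) (d : ℤ) (hd : AdmD d)
    (hA : UnrAt d K) : CritK d K := by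
  rcases clsT_cases K hK with ⟨i1, hS⟩ | ⟨K₁, i1, i2, i3, i4, hQ, hS⟩
  · refine critFT K hK hS d hd hA fun hg => ?_
    exact selTwodG K (subG_of_subT hS (fun w h6 hx => by
      have h3 : (3 : 𝓞 K) ∉ w.asIdeal := by
        intro h
        apply h6
        have : (6 : 𝓞 K) = 2 * 3 := by norm_num
        rw [this]
        exact w.asIdeal.mul_mem_left _ h
      exact (e_iff w h3).1 (hg w h6 hx))) d hd
  · refine crit0T K K₁ hQ hK hS d hd hA fun hg => ?_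
    have hg1 := good_up hQ hg
    exact selTwod0G K K₁ hQ (subG_of_subT hS (fun w h6 hx => by
      have h3 : (3 : 𝓞 K₁) ∉ w.asIdeal := by
        intro h
        apply h6
        have : (6 : 𝓞 K₁) = 2 * 3 := by norm_num
        rw [this]
        exact w.asIdeal.mul_mem_left _ h
      exact (e_iff w h3).1 (hg1 w h6 hx))) d hd

end H19Z
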