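import Mathlib
import Pool.Agent.Lib.H19Z.Z9
import Pool.Agent.Lib.H19Z.Q0
import Pool.Agent.Lib.H55E.Final

/-! The final theorem. -/

open NumberField IsDedekindDomain

namespace H19Z

open H55B H55C H55D H55E H55N H19X H19Y

theorem unrT_of_unrOut {L : Type} [Field L] [NumberField L] [Algebra F L] (h : UnrOut L) : UnrT L := by
  intro w h2
  have hp : (w.asIdeal.under O).IsPrime := inferInstance
  have hne : w.asIdeal.under O ≠ ⊥ := by
    intro h
    exact w.ne_bot (Ideal.eq_bot_of_comap_eq_bot (R := O) (I := w.asIdeal) h)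
  refine h w ⟨w.asIdeal.under O, hp, hne⟩ rfl ?_
  rintro ⟨g2, -, -⟩
  apply g2
  show algebraMap O (𝓞 L) 2 ∈ w.asIdeal
  rwa [map_ofNat]

theorem goodRam_of_unrOut {L : Type} [Field L] [NumberField L] [Algebra F L] (hT : TwoExt L)
    (h : UnrOut L) : GoodRam L := by
  intro w h6 ⟨x, hx⟩
  have h3 : (3 : 𝓞 L) ∉ w.asIdeal := by
    intro h
    apply h6
    have : (6 : 𝓞 L) = 2 * 3 := by norm_num
    rw [this]
    exact w.asIdeal.mul_mem_left _ h
  rw [e_iff w h3]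
  have hp : (w.asIdeal.under O).IsPrime := inferInstance
  have hne : w.asIdeal.under O ≠ ⊥ := by
    intro h
    exact w.ne_bot (Ideal.eq_bot_of_comap_eq_bot (R := O) (I := w.asIdeal) h)
  refine h w ⟨w.asIdeal.under O, hp, hne⟩ rfl ?_
  rintro ⟨-, -, g⟩
  apply g
  exact cube_baseT ⟨L, inferInstance, inferInstance, inferInstance, Algebra.id L,
    IsScalarTower.right, hT, unrT_of_unrOut h⟩ w x hx

/-- Every Galois field of the class is contained in one with a bad ramified prime. -/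
theorem bad_above (K : Type) [Field K] [NumberField K] [Algebra F K] (hT : TwoExt K) (hU : UnrT K) :
    ∃ (K' : Type) (_ : Field K') (_ : NumberField K') (_ : Algebra F K') (_ : Algebra K K')
      (_ : IsScalarTower F K K'), TwoExt K' ∧ UnrT K' ∧ ¬ GoodRam K' := by
  obtain ⟨K', i1, i2, i3, i4, i5, δ, hδ, hT', hU'⟩ := X1_topT K hT hU 5 (by norm_num)
  refine ⟨K', i1, i2, i3, i4, i5, hT', hU', fun hg => ?_⟩
  -- a prime above 5
  have h5p : Prime (5 : ℤ) := by norm_num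
  have hmax : (Ideal.span {(5 : ℤ)}).IsMaximal :=
    PrincipalIdealRing.isMaximal_of_irreducible h5p.irreducible
  obtain ⟨Q, hQ, hQl⟩ := Ideal.exists_maximal_ideal_liesOver_of_isIntegral (S := 𝓞 K')
    (Ideal.span {(5 : ℤ)})
  have h5Q : (5 : 𝓞 K') ∈ Q := by
    have h1 : (5 : ℤ) ∈ Q.under ℤ := by
      rw [← hQl.over]
      exact Ideal.mem_span_singleton_self 5
    rw [Ideal.mem_under] at h1
    simpa using h1
  have hQ0 : Q ≠ ⊥ := by
    rintro rfl
    rw [Ideal.mem_bot] at h5Q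
    exact (by norm_num : (5 : 𝓞 K') ≠ 0) h5Q
  let w : HeightOneSpectrum (𝓞 K') := ⟨Q, hQ.isPrime, hQ0⟩
  have hw5 : (5 : 𝓞 K') ∈ w.asIdeal := h5Q
  have h6 : (6 : 𝓞 K') ∉ w.asIdeal := by
    intro h
    apply w.isPrime.ne_top
    rw [Ideal.eq_top_iff_one]
    have h1 : (1 : 𝓞 K') = 6 - 5 := by norm_num
    rw [h1]
    exact w.asIdeal.sub_mem h hw5
  have he := hg w h6 ⟨3, by
    have h1 : (3 : 𝓞 K') ^ 3 - 2 = 5 * 5 := by norm_num
    rw [h1]
    exact w.asIdeal.mul_mem_left _ hw5⟩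
  -- the square root of 5
  have hint : IsIntegral ℤ δ := by
    refine ⟨Polynomial.X ^ 2 - Polynomial.C 5, Polynomial.monic_X_pow_sub_C _ two_ne_zero, ?_⟩
    simp only [Polynomial.eval₂_sub, Polynomial.eval₂_pow, Polynomial.eval₂_X, Polynomial.eval₂_C]
    rw [hδ]
    simp
  let η : 𝓞 K' := ⟨δ, hint⟩
  have hη : η ^ 2 = 5 := by
    apply NumberField.RingOfIntegers.ext
    show δ ^ 2 = ((5 : 𝓞 K') : K')
    rw [hδ]
    have h1 : ((5 : 𝓞 K') : K') = 5 := map_ofNat (algebraMap (𝓞 K') K') 5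
    rw [h1]
    norm_num
  have hηw : η ∈ w.asIdeal := w.isPrime.mem_of_pow_mem 2 (by rw [hη]; exact hw5)
  have h52 : (5 : 𝓞 K') ∈ w.asIdeal ^ 2 := by
    rw [← hη]
    exact Ideal.pow_mem_pow hηw 2
  have hle : Ideal.map (algebraMap ℤ (𝓞 K')) (Ideal.span {(5 : ℤ)}) ≤ w.asIdeal ^ 2 := by
    rw [Ideal.map_span, Set.image_singleton, Ideal.span_singleton_le_iff_mem]
    have h2 : algebraMap ℤ (𝓞 K') 5 = 5 := by simp
    rw [h2]
    exact h52
  have h5b : Ideal.span {(5 : ℤ)} ≠ ⊥ := by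
    rw [Ne, Ideal.span_singleton_eq_bot]
    norm_num
  have hl : w.asIdeal.LiesOver (Ideal.span {(5 : ℤ)}) := hQl
  have hne := (Ideal.ramificationIdx'_ne_one_iff (hle.trans (Ideal.pow_le_self two_ne_zero))).2 hle
  rw [Ideal.ramificationIdx'_eq_ramificationIdx (Ideal.span {(5 : ℤ)}) w.asIdeal h5b] at hne
  exact hne he

/-- THEOREM. -/
theorem final :
    (∀ (K : Type) [Field K] [NumberField K], ClsT K → ∀ d : ℤ, AdmD d → UnrAt d K → CritK d K) ∧
    (∀ (K : Type) [Field K] [NumberField K] (B : ℕ), ∃ d : ℤ, AdmD d ∧ UnrAt d K ∧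
      B < d.natAbs) ∧
    (∀ (K : Type) [Field K] [NumberField K], SubQ2 K → ClsT K) ∧
    (∀ (H : Type) [Group H] [Finite H] (k : ℕ), Nat.card H = 2 ^ k →
      ∃ (K : Type) (_ : Field K) (_ : NumberField K) (_ : Algebra F K),
        TwoExt K ∧ UnrT K ∧ GoodRam K ∧ GalSub K H) ∧
    (∀ (K : Type) [Field K] [NumberField K] [Algebra F K], TwoExt K → UnrT K →
      ∃ (K' : Type) (_ : Field K') (_ : NumberField K') (_ : Algebra F K') (_ : Algebra K K')
        (_ : IsScalarTower F K K'), TwoExt K' ∧ UnrT K' ∧ ¬ GoodRam K') := by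
  obtain ⟨-, h2, -, -, -, -, -, -, h9⟩ := H55E.final
  refine ⟨fun K _ _ hK d hd hA => critK K hK d hd hA, h2, fun K _ _ h => clsT_of_subQ2 K h, ?_,
    fun K _ _ _ hT hU => bad_above K hT hU⟩
  intro H _ _ k hH
  obtain ⟨K, i1, i2, i3, ⟨h1, h3, -⟩, h4⟩ := h9 H k hH 0
  exact ⟨K, i1, i2, i3, h1, unrT_of_unrOut h3, goodRam_of_unrOut h1 h3, h4⟩

end H19Z
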