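import Mathlib
import Pool.Agent.Lib.H19Z.Main

/-!
# The exact criterion at 2 for the Birch and Swinnerton-Dyer formula over 2-extensions

F is the field of cube roots of unity, O its ring of integers, Ed d the curve (2y+1)^2 = 4x^3 + d^3, the quadratic
twist by d of y^2 + y = x^3.

(1) For all number fields K which embed in a Galois extension L of F of 2-power degree unramified above 2 (no
    condition on the Galois group or on the ramification at odd primes, 3 included; K need not contain F, need
    not be Galois over any subfield and may have real places) and all admissible d such that K is unramified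
    over the rationals at d, the exact criterion Crit d K holds: the L-function of Ed d over K continues
    analytically; the analytic order of the Tate-Shafarevich group is integral above 2; it is a unit above 2
    if and only if the 2-Selmer group is zero, if and only if no prime of K not above 6 modulo which 2 is a
    cube is ramified over the rationals; then the group of K-rational points is finite of odd order;
    otherwise the analytic order is divisible by all primes above 2.
(2) For every number field K there are infinitely many such d.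
(3) The class contains all subfields of the Galois extensions of the rationals of 2-power degree which are
    unramified at 2.
(4) Every finite 2-group is a subgroup of Gal(K/F) for some Galois K in the class with trivial 2-Selmer groups.
(5) Every K/F Galois in the class is contained in one with nontrivial 2-Selmer groups.
-/

open NumberField IsDedekindDomain

namespace H19Z.Draft

/-- The field of cube roots of unity. -/
abbrev F : Type := CyclotomicField 3 ℚ

/-- The ring of integers of F. -/
abbrev O : Type := 𝓞 F

/-! ### The fields -/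

/-- L is a Galois extension of F of 2-power degree which is unramified above 2. -/
def TwoExt (L : Type) [Field L] [NumberField L] [Algebra F L] : Prop :=
  IsGalois F L ∧ (∃ k : ℕ, Module.finrank F L = 2 ^ k) ∧
    ∀ w : HeightOneSpectrum (𝓞 L), (2 : 𝓞 L) ∈ w.asIdeal → w.asIdeal.ramificationIdx O = 1

/-- K embeds in a Galois extension of F of 2-power degree which is unramified above 2. -/
def InTwoExt (K : Type) [Field K] [NumberField K] : Prop :=
  ∃ (L : Type) (_ : Field L) (_ : NumberField L) (_ : Algebra F L) (_ : Algebra K L), TwoExt L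

/-- K embeds in a Galois extension of the rationals of 2-power degree which is unramified at 2. -/
def InTwoExtQ (K : Type) [Field K] [NumberField K] : Prop :=
  ∃ (L : Type) (_ : Field L) (_ : NumberField L) (_ : Algebra K L),
    IsGalois ℚ L ∧ (∃ k : ℕ, Module.finrank ℚ L = 2 ^ k) ∧
      ∀ w : HeightOneSpectrum (𝓞 L), (2 : 𝓞 L) ∈ w.asIdeal → w.asIdeal.ramificationIdx ℤ = 1

/-- Every prime of K which is not above 6 and modulo which 2 is a cube is unramified over the rationals. -/
def GoodRam (K : Type) [Field K] [NumberField K] : Prop :=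
  ∀ w : HeightOneSpectrum (𝓞 K), (6 : 𝓞 K) ∉ w.asIdeal → (∃ x : 𝓞 K, x ^ 3 - 2 ∈ w.asIdeal) →
    w.asIdeal.ramificationIdx ℤ = 1

/-! ### The curves and their 2-Selmer groups -/

/-- Admissible integers: squarefree, 1 modulo 4, all prime factors l are 1 modulo 3 with 2 not a cube modulo l. -/
def Adm (d : ℤ) : Prop :=
  Squarefree d ∧ d % 4 = 1 ∧ ∀ l : ℕ, l.Prime → (l : ℤ) ∣ d → l % 3 = 1 ∧ ¬ ∃ x : ZMod l, x ^ 3 = 2

/-- K is unramified over the rationals at the primes dividing d. -/
def UnrAt (d : ℤ) (K : Type) [Field K] [NumberField K] : Prop :=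
  ∀ w : HeightOneSpectrum (𝓞 K), (d : 𝓞 K) ∈ w.asIdeal → w.asIdeal.ramificationIdx ℤ = 1

/-- The curve y^2 + y = x^3 + (d^3 - 1)/4, that is (2y+1)^2 = 4x^3 + d^3, the quadratic twist by d of
y^2 + y = x^3; a global minimal model over the rationals for admissible d. -/
def Ed (d : ℤ) : WeierstrassCurve ℚ := ⟨0, 0, 1, 0, ((d : ℚ) ^ 3 - 1) / 4⟩

/-- The cubic algebra k[T]/(T^3 - 2). (The roots of 4x^3 + d^3 are -dT/2, T^3 = 2.) -/
abbrev Cub (k : Type) [Field k] : Type := AdjoinRoot (Polynomial.X ^ 3 - Polynomial.C 2 : Polynomial k)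

/-- Functoriality of the cubic algebra. -/
noncomputable def cmap {k k' : Type} [Field k] [Field k'] (f : k →+* k') : Cub k →+* Cub k' :=
  AdjoinRoot.map f _ _ (by
    rw [Polynomial.map_sub, Polynomial.map_pow, Polynomial.map_X, Polynomial.map_C, map_ofNat f])

/-- The image of the Kummer map of Ed d over k: m is 2(2x + dT) up to squares for a point (x, y) which is not of
order two. -/
def LocIm (d : ℤ) (k : Type) [Field k] (m : Cub k) : Prop :=
  ∃ x y : k, 4 * (y ^ 2 + y) = 4 * x ^ 3 + (d : k) ^ 3 - 1 ∧ 2 * y + 1 ≠ 0 ∧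
    ∃ b : Cub k, m * (2 * (2 * AdjoinRoot.of _ x + (d : Cub k) * AdjoinRoot.root _)) = b ^ 2

/-- Representatives of the 2-Selmer group of Ed d over K (explicit 2-descent): invertible elements of the cubic
algebra of square norm which are locally in the image of the Kummer map at all finite places; at the infinite
places this is automatic. Two elements give the same class if and only if they differ by a square. -/
def Sel (d : ℤ) (K : Type) [Field K] [NumberField K] : Set (Cub K) :=
  {m | IsUnit m ∧ (∃ n : K, Algebra.norm K m = n ^ 2) ∧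
    ∀ w : HeightOneSpectrum (𝓞 K),
      LocIm d (w.adicCompletion K) (cmap (algebraMap K (w.adicCompletion K)) m)}

/-- The 2-Selmer group of Ed d over K is zero. -/
def SelZero (d : ℤ) (K : Type) [Field K] [NumberField K] : Prop :=
  ∀ m ∈ Sel d K, ∃ b : Cub K, m = b ^ 2

/-! ### The terms of the formula -/

open Classical in
/-- The number of torsion points of Ed d over K. -/
noncomputable def tors (d : ℤ) (K : Type) [Field K] [NumberField K] : ℕ :=
  Nat.card {P : ((Ed d).baseChange K).toAffine.Point // IsOfFinAddOrder P}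

/-- The real period: the smallest positive real number in the period lattice. -/
noncomputable def OmR (L : PeriodPair) : ℝ := sInf {x : ℝ | 0 < x ∧ (x : ℂ) ∈ L.lattice}

/-- The complex period: twice the area of a period parallelogram. -/
noncomputable def OmC (L : PeriodPair) : ℝ := 2 * |L.ω₁.re * L.ω₂.im - L.ω₁.im * L.ω₂.re|

/-- The curve Ed d over the completion of K at w. -/
noncomputable def Ew (d : ℤ) (K : Type) [Field K] [NumberField K] (w : HeightOneSpectrum (𝓞 K)) :
    WeierstrassCurve (w.adicCompletion K) :=
  ((Ed d).baseChange K).baseChange (w.adicCompletion K)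

/-- A minimal Weierstrass equation of Ed d over the completion of K at w. -/
noncomputable def Wmin (d : ℤ) (K : Type) [Field K] [NumberField K] (w : HeightOneSpectrum (𝓞 K)) :
    WeierstrassCurve (w.adicCompletion K) :=
  (Ew d K w).minimal (w.adicCompletionIntegers K)

/-- The points with nonsingular reduction of a Weierstrass equation with integral coefficients: zero, the
points which reduce to zero (1 < v x), and the points at which the two partial derivatives do not both reduce
to 0. -/
def NonsRed {K : Type} [Field K] [NumberField K] (w : HeightOneSpectrum (𝓞 K))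
    (W : WeierstrassCurve (w.adicCompletion K)) : Set W.toAffine.Point :=
  {P | P = 0 ∨ ∃ (x y : w.adicCompletion K) (h : W.toAffine.Nonsingular x y),
    P = WeierstrassCurve.Affine.Point.some x y h ∧
      (1 < Valued.v x ∨ 1 ≤ Valued.v (3 * x ^ 2 + 2 * W.a₂ * x + W.a₄ - W.a₁ * y) ∨
        1 ≤ Valued.v (2 * y + W.a₁ * x + W.a₃))}

open Classical in
/-- The Tamagawa number: the index of the subgroup of points with nonsingular reduction of the minimal
model. -/
noncomputable def tam (d : ℤ) (K : Type) [Field K] [NumberField K] (w : HeightOneSpectrum (𝓞 K)) : ℕ :=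
  (AddSubgroup.closure (NonsRed w (Wmin d K w))).index

/-- The product of the Tamagawa numbers and the numbers |Δmin/Δ|^(1/12) (normalised absolute values). -/
noncomputable def CEK (d : ℤ) (K : Type) [Field K] [NumberField K] : ℝ :=
  ∏ᶠ w : HeightOneSpectrum (𝓞 K), (tam d K w : ℝ) * ‖(Wmin d K w).Δ / (Ew d K w).Δ‖ ^ (1 / 12 : ℝ)

/-- The analytic order of the Tate-Shafarevich group of Ed d over K: the order predicted by the formula of the
conjecture if the rank is 0. L1 is the value of the L-function at 1, L the period lattice of dx/(2y+1). -/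
noncomputable def shaAn (d : ℤ) (K : Type) [Field K] [NumberField K] (L : PeriodPair) (L1 : ℂ) : ℂ :=
  L1 * (Real.sqrt |(NumberField.discr K : ℝ)| : ℝ) * (tors d K : ℂ) ^ 2 /
    ((OmR L : ℂ) ^ NumberField.InfinitePlace.nrRealPlaces K *
      (OmC L : ℂ) ^ NumberField.InfinitePlace.nrComplexPlaces K * ((CEK d K : ℝ) : ℂ))

/-- The exact criterion. The period lattice L of dx/(2y+1) exists (g2 = 0, g3 = -d^3). The L-series of Ed d over K
converges absolutely for Re s > 3/2 and continues analytically to Re s > 1/2. The analytic order of the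
Tate-Shafarevich group is integral at all valuations of the complex numbers above 2. The 2-Selmer group is zero if
and only if L(Ed d/K, 1) is not 0 and the analytic order is a unit at all valuations above 2, and if and only if
GoodRam K; if so, the group of points is finite of odd order; if not, the analytic order has positive
valuation for all valuations above 2. -/
def Crit (d : ℤ) (K : Type) [Field K] [NumberField K] : Prop :=
  (∃ L : PeriodPair, L.g₂ = 0 ∧ L.g₃ = -(d : ℂ) ^ 3) ∧
  ∃ Λ : ℂ → ℂ, AnalyticOnNhd ℂ Λ {s | 1 / 2 < s.re} ∧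
    (∀ s : ℂ, 3 / 2 < s.re →
      LSeriesSummable (fun n => ((((Ed d).baseChange K).LFunction n : ℤ) : ℂ)) s ∧
      Λ s = ((Ed d).baseChange K).LSeries s) ∧
    ∀ L : PeriodPair, L.g₂ = 0 → L.g₃ = -(d : ℂ) ^ 3 →
      (∀ V : ValuationSubring ℂ, V.valuation 2 < 1 → V.valuation (shaAn d K L (Λ 1)) ≤ 1) ∧
      (SelZero d K ↔ Λ 1 ≠ 0 ∧
        ∀ V : ValuationSubring ℂ, V.valuation 2 < 1 → V.valuation (shaAn d K L (Λ 1)) = 1) ∧
      (SelZero d K ↔ GoodRam K) ∧
      (SelZero d K → Finite ((Ed d).baseChange K).toAffine.Point ∧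
        Odd (Nat.card ((Ed d).baseChange K).toAffine.Point)) ∧
      (¬ SelZero d K →
        ∀ V : ValuationSubring ℂ, V.valuation 2 < 1 → V.valuation (shaAn d K L (Λ 1)) < 1)

/-- The definitions agree with those of the library. -/
theorem crit_of {d : ℤ} {K : Type} [Field K] [NumberField K] (h : H19Z.CritK d K) : Crit d K := h

theorem adm_iff {d : ℤ} : Adm d ↔ H55E.AdmD d :=
  ⟨fun h => ⟨h.1, h.2.1, h.2.2⟩, fun h => ⟨h.sq, h.four, h.good⟩⟩

theorem result :
    (∀ (K : Type) [Field K] [NumberField K], InTwoExt K → ∀ d : ℤ, Adm d → UnrAt d K → Crit d K) ∧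
    (∀ (K : Type) [Field K] [NumberField K] (B : ℕ), ∃ d : ℤ, Adm d ∧ UnrAt d K ∧ B < d.natAbs) ∧
    (∀ (K : Type) [Field K] [NumberField K], InTwoExtQ K → InTwoExt K) ∧
    (∀ (H : Type) [Group H] [Finite H] (k : ℕ), Nat.card H = 2 ^ k →
      ∃ (K : Type) (_ : Field K) (_ : NumberField K) (_ : Algebra F K),
        TwoExt K ∧ GoodRam K ∧ ∃ φ : H →* (K ≃ₐ[F] K), Function.Injective φ) ∧
    (∀ (K : Type) [Field K] [NumberField K] [Algebra F K], TwoExt K →
      ∃ (K' : Type) (_ : Field K') (_ : NumberField K') (_ : Algebra F K') (_ : Algebra K K')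
        (_ : IsScalarTower F K K'), TwoExt K' ∧ ¬ GoodRam K') := by
  obtain ⟨h1, h2, h3, h4, h5⟩ := H19Z.final
  have e1 : ∀ (K : Type) [Field K] [NumberField K], InTwoExt K → H19Z.ClsT K := by
    rintro K _ _ ⟨L, i1, i2, i3, i4, g, p, u⟩
    exact ⟨L, i1, i2, i3, i4, ⟨g, p⟩, u⟩
  refine ⟨fun K _ _ hK d hd hA => crit_of (h1 K (e1 K hK) d (adm_iff.1 hd) hA), fun K _ _ B => ?_,
    fun K _ _ hK => ?_, fun H _ _ k hH => ?_, fun K _ _ _ hT => ?_⟩
  · obtain ⟨d, hd, hA, hB⟩ := h2 K B
    exact ⟨d, adm_iff.2 hd, hA, hB⟩
  · obtain ⟨L, i1, i2, i3, i4, ⟨g, p⟩, u⟩ := h3 K hK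
    exact ⟨L, i1, i2, i3, i4, g, p, u⟩
  · obtain ⟨K, i1, i2, i3, ⟨g, p⟩, u, hg, hφ⟩ := h4 H k hH
    exact ⟨K, i1, i2, i3, ⟨g, p, u⟩, hg, hφ⟩
  · obtain ⟨K', i1, i2, i3, i4, i5, ⟨g, p⟩, u, hg⟩ := h5 K ⟨hT.1, hT.2.1⟩ hT.2.2
    exact ⟨K', i1, i2, i3, i4, i5, ⟨g, p, u⟩, hg⟩

end H19Z.Draft
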